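import Pool.Agent.Lib.MP_e426f4_ag.WX.ConA

/-!
# WX-ConB: weak approximation for a conic with a rational point

PROOF. `P` from `con_a` (`P ≠ 0` because `bl(P, XR) ≠ 0`). For a vector `W` and a scalar `c` put
`ψ(c, W) = c (bl(W,W) P - 2 bl(P,W) W)`, a zero of the form. At each place `ψ(c_v, X_v) = X_v` for `c_v = -1/(2 bl(P,X_v))` as `bl(X_v,X_v) = 0`.
`ψ` is continuous: there is a radius (one for `ℝ` and the finitely many `p ≤ w`) such that `(c, W)` within the radius of `(c_v, X_v)` gives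
`ψ(c, W)` within `ρ` of `X_v`; in addition within `ρ' ≤ ` half of the size of one nonzero coordinate of `XR`, so that `X ≠ 0` (or: choose the radius with `min ρ (|XR k0| / 2)`).
`wq` with `m = 4` gives rational `(c, W)` close to all `(c_v, X_v)`; `X = ψ(c, W)`.
-/

set_option autoImplicit false

namespace TwWA

open TwHP

/-- the parametrisation -/
private def cbPsi {K : Type} [Field K] (A B C : K) (P : Fin 3 → K) (V : Fin 4 → K) (k : Fin 3) : K :=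
  V 3 * ((A * V 0 * V 0 + B * V 1 * V 1 + C * V 2 * V 2) * P k -
    2 * (A * P 0 * V 0 + B * P 1 * V 1 + C * P 2 * V 2) * (![V 0, V 1, V 2] : Fin 3 → K) k)

private theorem cb_zero {K : Type} [Field K] (A B C : K) (P : Fin 3 → K) (V : Fin 4 → K)
    (hP : bl A B C P P = 0) : bl A B C (cbPsi A B C P V) (cbPsi A B C P V) = 0 := by
  unfold bl at hP
  have h : bl A B C (cbPsi A B C P V) (cbPsi A B C P V) =
      V 3 ^ 2 * (A * V 0 * V 0 + B * V 1 * V 1 + C * V 2 * V 2) ^ 2 *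
        (A * P 0 * P 0 + B * P 1 * P 1 + C * P 2 * P 2) := by
    simp only [bl, cbPsi, Matrix.cons_val_zero, Matrix.cons_val_one, Matrix.cons_val]
    ring
  rw [h, hP, mul_zero]

private theorem cb_near {K : Type} [NormedField K] [CharZero K] (A B C : K) (P X : Fin 3 → K)
    (hX : bl A B C X X = 0) (hPX : bl A B C P X ≠ 0) : ∃ V0 : Fin 4 → K, ∀ ρ : ℝ, 0 < ρ →
      ∃ δ : ℝ, 0 < δ ∧ ∀ V : Fin 4 → K, (∀ k, ‖V k - V0 k‖ < δ) →
        ∀ k, ‖cbPsi A B C P V k - X k‖ < ρ := by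
  have h2 : (2 : K) ≠ 0 := two_ne_zero
  refine ⟨![X 0, X 1, X 2, -1 / (2 * bl A B C P X)], fun ρ hρ => ?_⟩
  have hval : ∀ k, cbPsi A B C P ![X 0, X 1, X 2, -1 / (2 * bl A B C P X)] k = X k := by
    intro k
    have hv : (![X 0, X 1, X 2] : Fin 3 → K) k = X k := by
      fin_cases k <;> rfl
    unfold bl at hX
    simp only [cbPsi, Matrix.cons_val_zero, Matrix.cons_val_one, Matrix.cons_val]
    rw [hX, hv]
    have e : A * P 0 * X 0 + B * P 1 * X 1 + C * P 2 * X 2 = bl A B C P X := rfl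
    rw [e]
    field_simp
    ring
  have hcont : ∀ k, Continuous fun V : Fin 4 → K => cbPsi A B C P V k := by
    intro k
    have hv : (fun V : Fin 4 → K => (![V 0, V 1, V 2] : Fin 3 → K) k) =
        fun V => V (Fin.castSucc k) := by
      funext V
      fin_cases k <;> rfl
    have hv' : Continuous fun V : Fin 4 → K => (![V 0, V 1, V 2] : Fin 3 → K) k := by
      rw [hv]
      exact continuous_apply _
    unfold cbPsi
    fun_prop
  have hδ : ∀ k, ∃ δ : ℝ, 0 < δ ∧ ∀ V : Fin 4 → K,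
      (∀ i, ‖V i - (![X 0, X 1, X 2, -1 / (2 * bl A B C P X)] : Fin 4 → K) i‖ < δ) →
        ‖cbPsi A B C P V k - X k‖ < ρ := by
    intro k
    obtain ⟨δ, h1, h3⟩ := Metric.continuous_iff.1 (hcont k)
      ![X 0, X 1, X 2, -1 / (2 * bl A B C P X)] ρ hρ
    refine ⟨δ, h1, fun V hV => ?_⟩
    have h4 := h3 V ((dist_pi_lt_iff h1).2 fun i => by rw [dist_eq_norm]; exact hV i)
    rw [hval k, dist_eq_norm] at h4
    exact h4
  choose δ h3 h4 using hδ
  refine ⟨min (δ 0) (min (δ 1) (δ 2)), lt_min (h3 0) (lt_min (h3 1) (h3 2)), fun V hV k => ?_⟩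
  fin_cases k
  · exact h4 0 V fun i => (hV i).trans_le (min_le_left _ _)
  · exact h4 1 V fun i => (hV i).trans_le ((min_le_right _ _).trans (min_le_left _ _))
  · exact h4 2 V fun i => (hV i).trans_le ((min_le_right _ _).trans (min_le_right _ _))

private theorem cb_min (w : ℕ) (Q : ∀ (p : ℕ) [Fact p.Prime], ℝ → Prop)
    (hQ : ∀ (p : ℕ) [Fact p.Prime] (a b : ℝ), a ≤ b → Q p b → Q p a)
    (h : ∀ (p : ℕ) [Fact p.Prime], p ≤ w → ∃ δ : ℝ, 0 < δ ∧ Q p δ) :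
    ∃ δ : ℝ, 0 < δ ∧ ∀ (p : ℕ) [Fact p.Prime], p ≤ w → Q p δ := by
  induction w with
  | zero =>
    refine ⟨1, one_pos, fun p hp hpw => ?_⟩
    exact absurd hp.out (by rw [Nat.le_zero.1 hpw]; exact Nat.not_prime_zero)
  | succ w ih =>
    obtain ⟨δ, h1, h2⟩ := ih fun p hp hpw => h p (hpw.trans (Nat.le_succ w))
    by_cases hw : (w + 1).Prime
    · have : Fact (w + 1).Prime := ⟨hw⟩
      obtain ⟨δ', h3, h4⟩ := h (w + 1) le_rfl
      refine ⟨min δ δ', lt_min h1 h3, fun p hp hpw => ?_⟩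
      rcases Nat.lt_or_ge w p with hlt | hge
      · obtain rfl : p = w + 1 := le_antisymm hpw hlt
        exact hQ _ _ _ (min_le_right _ _) h4
      · exact hQ _ _ _ (min_le_left _ _) (h2 p hge)
    · refine ⟨δ, h1, fun p hp hpw => ?_⟩
      rcases Nat.lt_or_ge w p with hlt | hge
      · obtain rfl : p = w + 1 := le_antisymm hpw hlt
        exact absurd hp.out hw
      · exact h2 p hge

private theorem cb_cast {K : Type} [Field K] [CharZero K] (A B C : ℚ) (P : Fin 3 → ℚ)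
    (V : Fin 4 → ℚ) (k : Fin 3) : ((cbPsi A B C P V k : ℚ) : K) =
      cbPsi (A : K) B C (fun k => (P k : K)) (fun k => (V k : K)) k := by
  unfold cbPsi
  have hv : (((![V 0, V 1, V 2] : Fin 3 → ℚ) k : ℚ) : K) =
      (![(V 0 : K), (V 1 : K), (V 2 : K)] : Fin 3 → K) k := by
    fin_cases k <;> rfl
  push_cast
  rw [hv]


theorem con_b (w : ℕ) (A B C : ℚ) (hA : A ≠ 0) (hB : B ≠ 0) (hC : C ≠ 0) (h : Iso A B C)
    (XR : Fin 3 → ℝ) (hXR : XR ≠ 0) (hR : bl (A : ℝ) B C XR XR = 0)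
    (XP : ∀ (p : ℕ) [Fact p.Prime], Fin 3 → ℚ_[p])
    (hXP : ∀ (p : ℕ) [Fact p.Prime], p ≤ w → XP p ≠ 0)
    (hP : ∀ (p : ℕ) [Fact p.Prime], p ≤ w → bl (A : ℚ_[p]) B C (XP p) (XP p) = 0)
    (ρ : ℝ) (hρ : 0 < ρ) :
    ∃ X : Fin 3 → ℚ, X ≠ 0 ∧ bl A B C X X = 0 ∧ (∀ k, |(X k : ℝ) - XR k| < ρ) ∧
      ∀ (p : ℕ) [Fact p.Prime], p ≤ w → ∀ k, ‖(X k : ℚ_[p]) - XP p k‖ < ρ := by
  obtain ⟨P, hP0, hP1, hP2⟩ := con_a w A B C hA hB hC h XR hXR hR XP hXP hP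
  obtain ⟨k0, hk0⟩ : ∃ k, XR k ≠ 0 := by
    by_contra hcon
    push Not at hcon
    exact hXR (funext hcon)
  have hρ' : 0 < min ρ |XR k0| := lt_min hρ (abs_pos.2 hk0)
  obtain ⟨VR, hVR⟩ := cb_near (A : ℝ) B C _ XR hR hP1
  obtain ⟨δR, hδR, hVR'⟩ := hVR _ hρ'
  have hloc : ∀ (p : ℕ) [Fact p.Prime], ∃ V0 : Fin 4 → ℚ_[p], p ≤ w → ∀ ρ : ℝ, 0 < ρ →
      ∃ δ : ℝ, 0 < δ ∧ ∀ V : Fin 4 → ℚ_[p], (∀ k, ‖V k - V0 k‖ < δ) →
        ∀ k, ‖cbPsi (A : ℚ_[p]) B C (fun k => (P k : ℚ_[p])) V k - XP p k‖ < ρ := by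
    intro p _
    by_cases hpw : p ≤ w
    · obtain ⟨V0, hV0⟩ := cb_near (A : ℚ_[p]) B C _ (XP p) (hP p hpw) (hP2 p hpw)
      exact ⟨V0, fun _ => hV0⟩
    · exact ⟨0, fun h => absurd h hpw⟩
  choose VP hVP using hloc
  obtain ⟨δ, hδ, hδP⟩ := cb_min w (fun p _ δ => ∀ V : Fin 4 → ℚ_[p], (∀ k, ‖V k - VP p k‖ < δ) →
        ∀ k, ‖cbPsi (A : ℚ_[p]) B C (fun k => (P k : ℚ_[p])) V k - XP p k‖ < ρ)
    (fun p _ a b hab hb V hV => hb V fun k => (hV k).trans_le hab)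
    (fun p _ hpw => hVP p hpw ρ hρ)
  obtain ⟨q, hq1, hq2⟩ := wq w VR VP (min δR δ) (lt_min hδR hδ)
  have hXR' : ∀ k, |((cbPsi A B C P q k : ℚ) : ℝ) - XR k| < min ρ |XR k0| := by
    intro k
    rw [cb_cast, ← Real.norm_eq_abs]
    refine hVR' _ (fun i => ?_) k
    rw [Real.norm_eq_abs]
    exact (hq1 i).trans_le (min_le_left _ _)
  refine ⟨cbPsi A B C P q, ?_, cb_zero A B C P q hP0, fun k => (hXR' k).trans_le (min_le_left _ _),
    fun p _ hpw k => ?_⟩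
  · intro hcon
    have h1 := hXR' k0
    rw [hcon] at h1
    simp only [Pi.zero_apply, Rat.cast_zero, zero_sub, abs_neg] at h1
    exact absurd h1 (not_lt.2 (min_le_right _ _))
  · rw [cb_cast]
    exact hδP p hpw _ (fun i => (hq2 p hpw i).trans_le (min_le_right _ _)) k

end TwWA
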