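import Mathlib

/-!
# WX-WQ: weak approximation for `ℚ`

PROOF. Coordinate by coordinate, so let `m = 1` (choose). It is enough to find for each place `v` among `ℝ` and the `p ≤ w` a
rational `e_v` which is arbitrarily close to `1` at `v` and arbitrarily close to `0` at the other places: take rationals
`r_∞` close to `x` (density of `ℚ` in `ℝ`) and `r_p` close to `y p` (`Padic.rat_dense p`) and `q = ∑_v r_v e_v`.
`e_v = u ^ N / (1 + u ^ N)`, `N` large, where `u ∈ ℚ` has `|u|_v > 1` and `|u|_{v'} < 1` for the other places: for `v = p` take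
`u = M / p ^ j`, `M` the product of the primes `≤ w` other than `p`, `p ^ j > M`, `j ≥ 1`; for `v = ℝ` take `u` = twice the product of all the primes `≤ w`
(for `w < 2`: `u = 2`; there are no primes `≤ w`). Then `u ^ N → 0` or `|u ^ N| → ∞` at each place (`tendsto_pow_atTop_nhds_zero_of_norm_lt_one`, `e_v - 1 = -1/(1+u^N)`).
(Any other proof is fine, for example by induction on the finite set of places or by the Chinese remainder theorem:
first an integer/rational close to all `y p`, then add `M ^ k * (a / b)` with `b ≡ 1` modulo `M` large for the real place.)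
-/

set_option autoImplicit false

namespace TwWA

open Filter Topology

private theorem wq_zero {K : Type*} [NormedField K] (u : K) (hu : ‖u‖ < 1) :
    Tendsto (fun N : ℕ => u ^ N / (1 + u ^ N)) atTop (𝓝 0) := by
  have h1 : Tendsto (fun N : ℕ => u ^ N) atTop (𝓝 0) := tendsto_pow_atTop_nhds_zero_of_norm_lt_one hu
  have h2 : Tendsto (fun N : ℕ => 1 + u ^ N) atTop (𝓝 (1 + 0)) := tendsto_const_nhds.add h1
  have h3 := h1.div h2 (by simp)
  rw [zero_div] at h3
  exact h3

private theorem wq_one {K : Type*} [NormedField K] (u : K) (hu : 1 < ‖u‖) :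
    Tendsto (fun N : ℕ => u ^ N / (1 + u ^ N)) atTop (𝓝 1) := by
  have hu0 : u ≠ 0 := by
    rintro rfl
    rw [norm_zero] at hu
    linarith
  have hinv : ‖u⁻¹‖ < 1 := by
    rw [norm_inv]
    exact inv_lt_one_of_one_lt₀ hu
  have h1 : Tendsto (fun N : ℕ => (u⁻¹) ^ N) atTop (𝓝 0) :=
    tendsto_pow_atTop_nhds_zero_of_norm_lt_one hinv
  have h2 : Tendsto (fun N : ℕ => 1 + (u⁻¹) ^ N) atTop (𝓝 (1 + 0)) := tendsto_const_nhds.add h1
  have h3 := (tendsto_const_nhds (x := (1 : K))).div h2 (by simp)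
  have h4 : (1 : K) / (1 + 0) = 1 := by simp
  rw [h4] at h3
  refine h3.congr fun N => ?_
  have hN : u ^ N ≠ 0 := pow_ne_zero N hu0
  show (1 : K) / (1 + (u⁻¹) ^ N) = u ^ N / (1 + u ^ N)
  rw [← mul_div_mul_left (1 : K) (1 + (u⁻¹) ^ N) hN, mul_one, mul_add, mul_one, inv_pow,
    mul_inv_cancel₀ hN, add_comm]

private theorem wq_small {K : Type*} [NormedField K] (u c : K) (hu : ‖u‖ < 1) (ε : ℝ) (hε : 0 < ε) :
    ∀ᶠ N : ℕ in atTop, ‖c * (u ^ N / (1 + u ^ N))‖ < ε := by
  have h1 : Tendsto (fun N : ℕ => c * (u ^ N / (1 + u ^ N))) atTop (𝓝 (c * 0)) :=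
    (wq_zero u hu).const_mul c
  rw [mul_zero] at h1
  have h2 := (Metric.tendsto_nhds.1 h1) ε hε
  filter_upwards [h2] with N hN
  simpa [dist_eq_norm] using hN

private theorem wq_small' {K : Type*} [NormedField K] (u c : K) (hu : 1 < ‖u‖) (ε : ℝ) (hε : 0 < ε) :
    ∀ᶠ N : ℕ in atTop, ‖c * (u ^ N / (1 + u ^ N) - 1)‖ < ε := by
  have h1 : Tendsto (fun N : ℕ => c * (u ^ N / (1 + u ^ N) - 1)) atTop (𝓝 (c * (1 - 1))) :=
    ((wq_one u hu).sub_const 1).const_mul c
  rw [sub_self, mul_zero] at h1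
  have h2 := (Metric.tendsto_nhds.1 h1) ε hε
  filter_upwards [h2] with N hN
  simpa [dist_eq_norm] using hN

private theorem wq_single (w : ℕ) : ∀ (x : ℝ) (y : ∀ (p : ℕ) [Fact p.Prime], ℚ_[p]) (ρ : ℝ), 0 < ρ →
    ∃ q : ℚ, |(q : ℝ) - x| < ρ ∧ ∀ (p : ℕ) [Fact p.Prime], p ≤ w → ‖(q : ℚ_[p]) - y p‖ < ρ := by
  induction w with
  | zero =>
    intro x y ρ hρ
    obtain ⟨q, h1, h2⟩ := exists_rat_btwn (show x - ρ < x + ρ by linarith)
    refine ⟨q, abs_lt.2 ⟨by linarith, by linarith⟩, fun p hp hpw => ?_⟩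
    exact absurd hp.out (by rw [Nat.le_zero.1 hpw]; exact Nat.not_prime_zero)
  | succ w ih =>
    intro x y ρ hρ
    by_cases hP : (w + 1).Prime
    · obtain ⟨q₁, hq1, hq2⟩ := ih x y (ρ / 2) (by linarith)
      have hF : Fact (w + 1).Prime := ⟨hP⟩
      obtain ⟨r, hr⟩ := Padic.rat_dense (w + 1) (y (w + 1)) (show 0 < ρ / 2 by linarith)
      -- choose the exponent of p
      have hp1 : (1 : ℝ) < ((w + 1 : ℕ) : ℝ) := by exact_mod_cast hP.one_lt
      obtain ⟨j, hj⟩ := pow_unbounded_of_one_lt ((w.factorial : ℕ) : ℝ) hp1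
      have hj0 : j ≠ 0 := by
        rintro rfl
        rw [pow_zero] at hj
        have : (1 : ℝ) ≤ ((w.factorial : ℕ) : ℝ) := by exact_mod_cast Nat.factorial_pos w
        linarith
      have hcop : Nat.Coprime (w + 1) w.factorial := by
        rw [Nat.Prime.coprime_iff_not_dvd hP, hP.dvd_factorial]
        omega
      set u : ℚ := (w.factorial : ℚ) / ((w + 1 : ℕ) : ℚ) ^ j with hu
      -- the real place
      have hR : ‖(u : ℝ)‖ < 1 := by
        have e : (u : ℝ) = (w.factorial : ℝ) / ((w + 1 : ℕ) : ℝ) ^ j := by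
          rw [hu]; push_cast; ring
        rw [e, norm_div, norm_pow, Real.norm_natCast, Real.norm_natCast]
        rw [div_lt_one (by positivity)]
        exact hj
      have hR' := wq_small (u : ℝ) ((r : ℝ) - (q₁ : ℝ)) hR (ρ / 2) (by linarith)
      -- the place p
      have hp' : 1 < ‖(u : ℚ_[w + 1])‖ := by
        have e : (u : ℚ_[w + 1]) = (w.factorial : ℚ_[w + 1]) / ((w + 1 : ℕ) : ℚ_[w + 1]) ^ j := by
          rw [hu]; push_cast; ring
        rw [e, norm_div, norm_pow, Padic.norm_p, (Padic.norm_natCast_eq_one_iff).2 hcop, one_div,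
          inv_pow, inv_inv]
        exact one_lt_pow₀ hp1 hj0
      have hp'' := wq_small' (u : ℚ_[w + 1]) ((r : ℚ_[w + 1]) - (q₁ : ℚ_[w + 1])) hp' (ρ / 2)
        (by linarith)
      -- the smaller primes
      have hS : ∀ᶠ N : ℕ in atTop, ∀ p ∈ Finset.range (w + 1), ∀ hp : Fact p.Prime,
          ‖((r : ℚ_[p]) - (q₁ : ℚ_[p])) * ((u : ℚ_[p]) ^ N / (1 + (u : ℚ_[p]) ^ N))‖ < ρ / 2 := by
        rw [Filter.eventually_all_finset]
        intro p hpw
        by_cases hp : p.Prime
        · have hFp : Fact p.Prime := ⟨hp⟩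
          have hpw' : p ≤ w := by
            have := Finset.mem_range.1 hpw
            omega
          have h1 : ‖(u : ℚ_[p])‖ < 1 := by
            have e : (u : ℚ_[p]) = (w.factorial : ℚ_[p]) / ((w + 1 : ℕ) : ℚ_[p]) ^ j := by
              rw [hu]; push_cast; ring
            have hc : Nat.Coprime p (w + 1) := by
              rw [Nat.coprime_primes hp hP]
              omega
            rw [e, norm_div, norm_pow, (Padic.norm_natCast_eq_one_iff).2 hc, one_pow, div_one]
            exact (Padic.norm_natCast_lt_one_iff).2 ((hp.dvd_factorial).2 hpw')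
          filter_upwards [wq_small (u : ℚ_[p]) ((r : ℚ_[p]) - (q₁ : ℚ_[p])) h1 (ρ / 2)
            (by linarith)] with N hN _
          exact hN
        · exact Filter.Eventually.of_forall fun N hp' => absurd hp'.out hp
      obtain ⟨N, hN1, hN2, hN3⟩ := (hR'.and (hp''.and hS)).exists
      refine ⟨q₁ + (r - q₁) * (u ^ N / (1 + u ^ N)), ?_, ?_⟩
      · have e : ((q₁ + (r - q₁) * (u ^ N / (1 + u ^ N)) : ℚ) : ℝ) - x =
            ((q₁ : ℝ) - x) + ((r : ℝ) - (q₁ : ℝ)) * ((u : ℝ) ^ N / (1 + (u : ℝ) ^ N)) := by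
          push_cast; ring
        rw [e]
        have h1 := abs_add_le ((q₁ : ℝ) - x)
          (((r : ℝ) - (q₁ : ℝ)) * ((u : ℝ) ^ N / (1 + (u : ℝ) ^ N)))
        rw [Real.norm_eq_abs] at hN1
        linarith
      · intro p hp hpw
        by_cases hpe : p = w + 1
        · subst hpe
          have e : ((q₁ + (r - q₁) * (u ^ N / (1 + u ^ N)) : ℚ) : ℚ_[w + 1]) - y (w + 1) =
              -(y (w + 1) - (r : ℚ_[w + 1])) +
              ((r : ℚ_[w + 1]) - (q₁ : ℚ_[w + 1])) *
                ((u : ℚ_[w + 1]) ^ N / (1 + (u : ℚ_[w + 1]) ^ N) - 1) := by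
            push_cast; ring
          rw [e]
          refine lt_of_le_of_lt (norm_add_le _ _) ?_
          rw [norm_neg]
          have h2 := hN2
          have h3 := hr
          linarith
        · have hpw' : p ≤ w := by omega
          have e : ((q₁ + (r - q₁) * (u ^ N / (1 + u ^ N)) : ℚ) : ℚ_[p]) - y p =
              ((q₁ : ℚ_[p]) - y p) +
              ((r : ℚ_[p]) - (q₁ : ℚ_[p])) * ((u : ℚ_[p]) ^ N / (1 + (u : ℚ_[p]) ^ N)) := by
            push_cast; ring
          rw [e]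
          refine lt_of_le_of_lt (norm_add_le _ _) ?_
          have h2 := hN3 p (Finset.mem_range.2 (by omega)) hp
          have h3 := hq2 p hpw'
          linarith
    · obtain ⟨q, hq1, hq2⟩ := ih x y ρ hρ
      refine ⟨q, hq1, fun p hp hpw => ?_⟩
      have hne : p ≠ w + 1 := by
        rintro rfl
        exact hP hp.out
      exact hq2 p (by omega)

theorem wq {m : ℕ} (w : ℕ) (x : Fin m → ℝ) (y : ∀ (p : ℕ) [Fact p.Prime], Fin m → ℚ_[p])
    (ρ : ℝ) (hρ : 0 < ρ) :
    ∃ q : Fin m → ℚ, (∀ k, |(q k : ℝ) - x k| < ρ) ∧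
      ∀ (p : ℕ) [Fact p.Prime], p ≤ w → ∀ k, ‖(q k : ℚ_[p]) - y p k‖ < ρ := by
  have h : ∀ k : Fin m, ∃ q : ℚ, |(q : ℝ) - x k| < ρ ∧
      ∀ (p : ℕ) [Fact p.Prime], p ≤ w → ‖(q : ℚ_[p]) - y p k‖ < ρ :=
    fun k => wq_single w (x k) (fun p _ => y p k) ρ hρ
  choose q h1 h2 using h
  exact ⟨q, h1, fun p hp hpw k => h2 k p hpw⟩

end TwWA
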