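import Pool.Agent.Lib.MP_e426f4_ag.TW.PNear

/-!
# WX-SqP: square roots of `p`-adic numbers close to `1`

PROOF. As `one_add_square` in `TW/PNear.lean`: Hensel's lemma for `X ^ 2 - u`, `‖u - 1‖ < ‖4‖`, gives `z` with `z ^ 2 = u` and
`‖z - 1‖ < ‖2‖`. Then `‖z + 1‖ = ‖2 + (z - 1)‖ = ‖2‖` (ultrametric), so `‖z - 1‖ = ‖u - 1‖ / ‖2‖`: take
`δ = min ‖4‖ (ε ‖2‖)`; `‖z‖ = 1` because `‖z - 1‖ < ‖2‖ ≤ 1`.
-/

set_option autoImplicit false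

namespace TwWA

open Polynomial in
/-- Hensel's lemma for `X ^ 2 - (1 + δ)` -/
private theorem sqp_hensel (p : ℕ) [Fact p.Prime] (δ : ℚ_[p]) (hδ : ‖δ‖ < ‖(4 : ℚ_[p])‖) :
    ∃ t : ℚ_[p], t ^ 2 = 1 + δ ∧ ‖t - 1‖ < ‖(2 : ℚ_[p])‖ := by
  have h4 : ‖(4 : ℚ_[p])‖ ≤ 1 := by
    have := Padic.norm_int_le_one (p := p) 4
    simpa using this
  have hδ1 : ‖δ‖ < 1 := lt_of_lt_of_le hδ h4
  set d : ℤ_[p] := ⟨δ, hδ1.le⟩ with hd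
  have e2 : (derivative (X ^ 2 - C (1 + d) : ℤ_[p][X])).aeval (1 : ℤ_[p]) = 2 := by
    simp
    norm_num
  have hnorm : ‖(X ^ 2 - C (1 + d) : ℤ_[p][X]).aeval (1 : ℤ_[p])‖ <
      ‖(derivative (X ^ 2 - C (1 + d) : ℤ_[p][X])).aeval (1 : ℤ_[p])‖ ^ 2 := by
    have e1 : (X ^ 2 - C (1 + d) : ℤ_[p][X]).aeval (1 : ℤ_[p]) = -d := by
      simp
    rw [e1, e2, norm_neg, ← norm_pow]
    have e3 : ((2 : ℤ_[p]) ^ 2) = 4 := by norm_num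
    rw [e3]
    have e4 : ‖(4 : ℤ_[p])‖ = ‖(4 : ℚ_[p])‖ := by
      rw [PadicInt.norm_def]; norm_cast
    rw [e4]
    exact hδ
  obtain ⟨z, hz, hz', -⟩ := hensels_lemma hnorm
  rw [e2] at hz'
  have hz2 : z ^ 2 = 1 + d := by
    have : z ^ 2 - (1 + d) = 0 := by simpa using hz
    exact sub_eq_zero.1 this
  have hz3 : ((z : ℚ_[p])) ^ 2 = 1 + δ := by
    have h5 : ((z ^ 2 : ℤ_[p]) : ℚ_[p]) = ((1 + d : ℤ_[p]) : ℚ_[p]) := by rw [hz2]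
    rw [PadicInt.coe_pow, PadicInt.coe_add, PadicInt.coe_one] at h5
    exact h5
  refine ⟨z, hz3, ?_⟩
  have e5 : ‖z - 1‖ = ‖(z : ℚ_[p]) - 1‖ := by
    rw [PadicInt.norm_def]; norm_cast
  have e6 : ‖(2 : ℤ_[p])‖ = ‖(2 : ℚ_[p])‖ := by
    rw [PadicInt.norm_def]; norm_cast
  rw [e5, e6] at hz'
  exact hz'

theorem sq_near_p (p : ℕ) [Fact p.Prime] (ε : ℝ) (hε : 0 < ε) :
    ∃ δ : ℝ, 0 < δ ∧ ∀ u : ℚ_[p], ‖u - 1‖ < δ →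
      ∃ t : ℚ_[p], t ≠ 0 ∧ ‖t‖ = 1 ∧ u = t ^ 2 ∧ ‖t - 1‖ < ε := by
  have h4p : (0 : ℝ) < ‖(4 : ℚ_[p])‖ := norm_pos_iff.2 (by norm_num)
  have h2p : (0 : ℝ) < ‖(2 : ℚ_[p])‖ := norm_pos_iff.2 (by norm_num)
  refine ⟨min ‖(4 : ℚ_[p])‖ (ε * ‖(2 : ℚ_[p])‖), lt_min h4p (by positivity), ?_⟩
  intro u hu
  obtain ⟨hu4, huε⟩ := lt_min_iff.1 hu
  obtain ⟨z, hz2, hz1⟩ := sqp_hensel p (u - 1) hu4
  have hz2' : z ^ 2 = u := by rw [hz2]; ring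
  have h2le : ‖(2 : ℚ_[p])‖ ≤ 1 := by
    have := Padic.norm_int_le_one (p := p) 2
    simpa using this
  have hz3 : ‖z‖ = 1 := by
    have h1 : ‖(z - 1) + 1‖ = max ‖z - 1‖ ‖(1 : ℚ_[p])‖ := by
      apply Padic.add_eq_max_of_ne
      rw [norm_one]
      exact (lt_of_lt_of_le hz1 h2le).ne
    rw [norm_one, max_eq_right (lt_of_lt_of_le hz1 h2le).le, sub_add_cancel] at h1
    exact h1
  have hz4 : ‖z + 1‖ = ‖(2 : ℚ_[p])‖ := by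
    have h1 : ‖(z - 1) + 2‖ = max ‖z - 1‖ ‖(2 : ℚ_[p])‖ := by
      apply Padic.add_eq_max_of_ne
      exact hz1.ne
    rw [max_eq_right hz1.le] at h1
    have h2 : (z - 1) + 2 = z + 1 := by ring
    rw [h2] at h1
    exact h1
  refine ⟨z, ?_, hz3, hz2'.symm, ?_⟩
  · rintro rfl
    rw [norm_zero] at hz3
    exact zero_ne_one hz3
  · have h1 : u - 1 = (z - 1) * (z + 1) := by rw [← hz2']; ring
    rw [h1, norm_mul, hz4] at huε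
    exact lt_of_mul_lt_mul_right huε h2p.le

end TwWA
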