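import Pool.Agent.Lib.MP_e426f4_ag.TW.ClassBad
import Pool.Agent.Lib.MP_e426f4_ag.WX.ClassThm
import Pool.Agent.Lib.MP_e426f4_ag.WX.ExCD

/-!
# WX-ClassBad: `TW/ClassBad.lean` with open cones
-/

set_option autoImplicit false

namespace TwWA

open Finset TwHP

variable {ι : Type} [Fintype ι] [DecidableEq ι] [Nonempty ι] {n : ℕ}

open Classical in
theorem class_badX (Cn : Cones n) (F : ι → Bool → MvPolynomial (Fin (n + 1)) ℤ) (d : ι → Bool → ℕ)
    (hF : Fam F d) : ∃ C5 : ℝ, 0 < C5 ∧ ∃ w0 : ℕ, 2 ≤ w0 ∧ ∀ w : ℕ, w0 ≤ w →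
    ∀ δ : ℝ, 0 < δ → δ ≤ 1 → ∀ cb : ℕ, ∀ (al : ℤ) (u : ℕ), al ≠ 0 →
    (∀ p : ℕ, p.Prime → (p : ℤ) ∣ al → p ≤ w) → u.Coprime (W8 w) → ∀ η : ℝ, 0 < η →
    ∃ H0 : ℕ, ∀ H : ℕ, H0 ≤ H →
      (((Icc 1 (H / al.natAbs)).filter fun a : ℕ => a ≡ u [MOD W8 w] ∧
        AnW (∑ i, (d i false + d i true)) (Fintype.card ι) cb δ H a ∧ ELSIn Cn F (al * (a : ℤ)) ∧
        ¬ SolQ Cn w F (al * (a : ℤ))).card : ℝ) ≤
      C5 / (w * δ * Nat.totient (W8 w)) * ((H : ℝ) / al.natAbs) + η * H := by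
  obtain ⟨C4, hC4, hcl⟩ := class_thmX (∑ i, (d i false + d i true)) (Fintype.card ι)
  obtain ⟨w0, hw0⟩ := exists_CDX Cn F d hF
  refine ⟨C4, hC4, max 2 w0, le_max_left _ _, ?_⟩
  intro w hw δ hδ hδ1 cb al u hal hpr hu η hη
  have hw2 : 2 ≤ w := (le_max_left _ _).trans hw
  by_cases hex : ∃ a0 : ℕ, 0 < a0 ∧ a0 ≡ u [MOD W8 w] ∧ SolIn F (al * a0) ℝ Cn.R ∧
        ∀ (p : ℕ) [Fact p.Prime], p ≤ w → SolIn F (al * a0) ℚ_[p] (Cn.P p)
  · obtain ⟨c, hval, hcw, hcal, hcu, hsum, hpt⟩ :=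
      hw0 w ((le_max_right _ _).trans hw) al u hal hpr hu hex (η / 2) (by positivity)
    obtain ⟨H1, hH1⟩ := hcl ι rfl c hval δ hδ hδ1 cb
    refine ⟨max H1 (⌈Real.exp (2 / η)⌉₊), fun H hH => ?_⟩
    have hHa : H1 ≤ H := (le_max_left _ _).trans hH
    have hHb : Real.exp (2 / η) ≤ H :=
      (Nat.le_ceil _).trans (by exact_mod_cast (le_max_right _ _).trans hH)
    have hHpos : (0 : ℝ) < H := (Real.exp_pos _).trans_le hHb
    have hlog : 2 / η ≤ Real.log H := (Real.le_log_iff_exp_le hHpos).mpr hHb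
    have hlog0 : 0 < Real.log H := lt_of_lt_of_le (by positivity) hlog
    have hHlog : (H : ℝ) / Real.log H ≤ η / 2 * H := by
      rw [div_le_iff₀ hlog0]
      have h1 : 1 ≤ η / 2 * Real.log H := by
        have := mul_le_mul_of_nonneg_left hlog (by positivity : (0 : ℝ) ≤ η / 2)
        have e : η / 2 * (2 / η) = 1 := by
          field_simp
        linarith
      nlinarith
    have h1 := hH1 H hHa
    rw [hcal, hcw, hcu] at h1
    have h2 := an_div (H / al.natAbs) (c.Q0.primeFactors.filter (w < ·))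
    have h3 : ((H / al.natAbs : ℕ) : ℝ) ≤ H := by exact_mod_cast Nat.div_le_self _ _
    have h4 : ((H / al.natAbs : ℕ) : ℝ) * ∑ q ∈ c.Q0.primeFactors.filter (w < ·), (1 : ℝ) / q ≤
        H * (η / 2) := by
      refine mul_le_mul h3 hsum (Finset.sum_nonneg fun q _ => by positivity) hHpos.le
    have hsub : ((Icc 1 (H / al.natAbs)).filter fun a : ℕ => a ≡ u [MOD W8 w] ∧
        AnW (∑ i, (d i false + d i true)) (Fintype.card ι) cb δ H a ∧ ELSIn Cn F (al * (a : ℤ)) ∧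
        ¬ SolQ Cn w F (al * (a : ℤ))) ⊆
        ((Icc 1 (H / al.natAbs)).filter fun a : ℕ => a ≡ u [MOD W8 w] ∧
          c.Anat (∑ i, (d i false + d i true)) cb δ H a ∧ ¬ HasPtX c (al * (a : ℤ))) ∪
        ((Icc 1 (H / al.natAbs)).filter fun a : ℕ =>
          ∃ q ∈ c.Q0.primeFactors.filter (w < ·), q ∣ a) := by
      intro a ha
      rw [Finset.mem_filter] at ha
      obtain ⟨haI, hau, hAn, hE, hS⟩ := ha
      rw [Finset.mem_union]
      by_cases hcop : a.Coprime c.Q0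
      · left
        rw [Finset.mem_filter]
        exact ⟨haI, hau, ⟨hcop, hAn.bb_le, hAn.sqf, hAn.om, hAn.big⟩, fun h => hS (hpt _ h)⟩
      · right
        rw [Finset.mem_filter]
        refine ⟨haI, ?_⟩
        obtain ⟨q, hq, hqa, hqQ⟩ := Nat.Prime.not_coprime_iff_dvd.mp hcop
        refine ⟨q, ?_, hqa⟩
        rw [Finset.mem_filter, Nat.mem_primeFactors]
        refine ⟨⟨hq, hqQ, hval.Q0_pos.ne'⟩, ?_⟩
        by_contra hqw
        have hqW : q ∣ W8 w := (prime_dvd_W8 w hw2 q hq).mpr (not_lt.mp hqw)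
        have h5 : q ∣ u := ((hau.of_dvd hqW).dvd_iff (dvd_refl q)).mp hqa
        have h6 : q ∣ Nat.gcd u (W8 w) := Nat.dvd_gcd h5 hqW
        rw [hu] at h6
        exact hq.one_lt.ne' (Nat.dvd_one.mp h6)
    have hcard := (Finset.card_le_card hsub).trans (Finset.card_union_le _ _)
    have hcard' : ((((Icc 1 (H / al.natAbs)).filter fun a : ℕ => a ≡ u [MOD W8 w] ∧
        AnW (∑ i, (d i false + d i true)) (Fintype.card ι) cb δ H a ∧ ELSIn Cn F (al * (a : ℤ)) ∧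
        ¬ SolQ Cn w F (al * (a : ℤ))).card : ℕ) : ℝ) ≤
        ((((Icc 1 (H / al.natAbs)).filter fun a : ℕ => a ≡ u [MOD W8 w] ∧
          c.Anat (∑ i, (d i false + d i true)) cb δ H a ∧
            ¬ HasPtX c (al * (a : ℤ))).card : ℕ) : ℝ) +
        ((((Icc 1 (H / al.natAbs)).filter fun a : ℕ =>
          ∃ q ∈ c.Q0.primeFactors.filter (w < ·), q ∣ a).card : ℕ) : ℝ) := by
      exact_mod_cast hcard
    linarith
  · refine ⟨0, fun H _ => ?_⟩
    have hempty : ((Icc 1 (H / al.natAbs)).filter fun a : ℕ => a ≡ u [MOD W8 w] ∧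
        AnW (∑ i, (d i false + d i true)) (Fintype.card ι) cb δ H a ∧ ELSIn Cn F (al * (a : ℤ)) ∧
        ¬ SolQ Cn w F (al * (a : ℤ))) = ∅ := by
      rw [Finset.filter_eq_empty_iff]
      intro a ha h
      obtain ⟨hau, -, ⟨-, hR, hP⟩, -⟩ := h
      exact hex ⟨a, (Finset.mem_Icc.mp ha).1, hau, hR, fun p _ _ => hP p⟩
    rw [hempty, Finset.card_empty, Nat.cast_zero]
    positivity

end TwWA
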