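import Pool.Agent.Lib.MP_e426f4_ag.WX.WQ
import Pool.Agent.Lib.MP_e426f4_ag.TW.IsoBasic

/-!
# WX-ConA: a rational point of a conic that is not orthogonal to given local points

Let `q(X) = A X₀² + B X₁² + C X₂²`, `bl X Y = A X₀ Y₀ + B X₁ Y₁ + C X₂ Y₂` (so `q(X) = bl X X`).

PROOF. Let `P0 ≠ 0` be a rational zero of `q` (`h`). For a vector `W` put `φ(W) = q(W) P0 - 2 bl(P0,W) W`; `q(φ(W)) = 0` (`ring`, using `q(P0) = 0`).
`bl(φ(W), X) = q(W) bl(P0,X) - 2 bl(P0,W) bl(W,X)`. Claim: for every field `K` of characteristic 0 and every `X ≠ 0` in `K³`, `q(X) = 0`, there is `W ∈ K³` with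
`bl(φ(W), X) ≠ 0`. Case `bl(P0,X) = 0`: `bl(P0,·)` and `bl(·,X)` are nonzero linear forms, so there is `W` with both values nonzero
(if `bl(P0,W1) ≠ 0`, `bl(W2,X) ≠ 0` one of `W1, W2, W1 + W2` works). Case `bl(P0,X) ≠ 0`: take `W` with `bl(P0,W) = 0`, `q(W) ≠ 0`: if `P0₂ ≠ 0`: `W = (B P0₁, -A P0₀, 0)`, unless
this is zero; `q(W) = A B (B P0₁² + A P0₀²) = -A B C P0₂²≠ 0`. Similarly with the other pairs of coordinates if `P0₀ ≠ 0` or `P0₁ ≠ 0`.
For fixed `X` the function `W ↦ bl(φ(W), X)` is continuous (polynomial) on `ℝ³`, `ℚ_p³`, so it is nonzero on a ball around the `W_v` of the claim (one radius `ρ` for the finitely many places: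
the minimum over `ℝ` and the `p ≤ w`). `wq` gives a rational `W` in all these balls; `P = φ(W)`.
-/

set_option autoImplicit false

namespace TwWA

open TwHP

/-- the bilinear form of the conic -/
def bl {K : Type} [Field K] (A B C : K) (X Y : Fin 3 → K) : K :=
  A * X 0 * Y 0 + B * X 1 * Y 1 + C * X 2 * Y 2

/-- the second point of the line through `P0` and `W` on the conic -/
private def ph {K : Type} [Field K] (A B C : K) (P W : Fin 3 → K) : Fin 3 → K :=
  fun k => bl A B C W W * P k - 2 * bl A B C P W * W k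

private theorem ph_zero {K : Type} [Field K] (A B C : K) (P W : Fin 3 → K)
    (h : bl A B C P P = 0) : bl A B C (ph A B C P W) (ph A B C P W) = 0 := by
  unfold ph bl at *
  linear_combination (A * W 0 * W 0 + B * W 1 * W 1 + C * W 2 * W 2) ^ 2 * h

private theorem bl_ph {K : Type} [Field K] (A B C : K) (P W X : Fin 3 → K) :
    bl A B C (ph A B C P W) X = bl A B C W W * bl A B C P X - 2 * bl A B C P W * bl A B C W X := by
  unfold ph bl
  ring

/-- the coefficients as a function -/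
private def co {K : Type} (A B C : K) : Fin 3 → K := ![A, B, C]

private theorem co_ne {K : Type} [Field K] (A B C : K) (hA : A ≠ 0) (hB : B ≠ 0) (hC : C ≠ 0)
    (i : Fin 3) : co A B C i ≠ 0 := by
  unfold co
  fin_cases i
  · exact hA
  · exact hB
  · exact hC

private theorem bl_single_left {K : Type} [Field K] (A B C : K) (X : Fin 3 → K) (i : Fin 3) :
    bl A B C (Pi.single i 1) X = co A B C i * X i := by
  unfold bl co
  fin_cases i <;> simp

private theorem bl_single_right {K : Type} [Field K] (A B C : K) (X : Fin 3 → K) (i : Fin 3) :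
    bl A B C X (Pi.single i 1) = co A B C i * X i := by
  unfold bl co
  fin_cases i <;> simp

private theorem bl_add_left {K : Type} [Field K] (A B C : K) (X Y Z : Fin 3 → K) :
    bl A B C (X + Y) Z = bl A B C X Z + bl A B C Y Z := by
  unfold bl
  simp only [Pi.add_apply]
  ring

private theorem bl_add_right {K : Type} [Field K] (A B C : K) (X Y Z : Fin 3 → K) :
    bl A B C X (Y + Z) = bl A B C X Y + bl A B C X Z := by
  unfold bl
  simp only [Pi.add_apply]
  ring

/-- the claim over a field -/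
private theorem exW {K : Type} [Field K] (h2 : (2 : K) ≠ 0) (A B C : K) (hA : A ≠ 0) (hB : B ≠ 0)
    (hC : C ≠ 0) (P X : Fin 3 → K) (hP0 : P ≠ 0) (hP : bl A B C P P = 0) (hX0 : X ≠ 0) :
    ∃ W : Fin 3 → K, bl A B C (ph A B C P W) X ≠ 0 := by
  obtain ⟨i, hi⟩ := Function.ne_iff.1 hP0
  obtain ⟨j, hj⟩ := Function.ne_iff.1 hX0
  rw [Pi.zero_apply] at hi hj
  by_cases hPX : bl A B C P X = 0
  · have key : ∃ W : Fin 3 → K, bl A B C P W ≠ 0 ∧ bl A B C W X ≠ 0 := by
      have hi' : bl A B C P (Pi.single i 1) ≠ 0 := by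
        rw [bl_single_right]
        exact mul_ne_zero (co_ne A B C hA hB hC i) hi
      have hj' : bl A B C (Pi.single j 1) X ≠ 0 := by
        rw [bl_single_left]
        exact mul_ne_zero (co_ne A B C hA hB hC j) hj
      by_cases h3 : bl A B C P (Pi.single j 1) = 0
      · by_cases h4 : bl A B C (Pi.single i 1) X = 0
        · refine ⟨Pi.single i 1 + Pi.single j 1, ?_, ?_⟩
          · rw [bl_add_right, h3, add_zero]
            exact hi'
          · rw [bl_add_left, h4, zero_add]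
            exact hj'
        · exact ⟨_, hi', h4⟩
      · exact ⟨_, h3, hj'⟩
    obtain ⟨W, h5, h6⟩ := key
    refine ⟨W, ?_⟩
    rw [bl_ph, hPX, mul_zero, zero_sub, neg_ne_zero]
    exact mul_ne_zero (mul_ne_zero h2 h5) h6
  · have key : ∃ W : Fin 3 → K, bl A B C P W = 0 ∧ bl A B C W W ≠ 0 := by
      have hP' : A * P 0 * P 0 + B * P 1 * P 1 + C * P 2 * P 2 = 0 := hP
      have hABC : A * B * C ≠ 0 := mul_ne_zero (mul_ne_zero hA hB) hC
      fin_cases i
      · refine ⟨![0, C * P 2, -(B * P 1)], ?_, ?_⟩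
        · unfold bl
          simp
          ring
        · have e : bl A B C ![0, C * P 2, -(B * P 1)] ![0, C * P 2, -(B * P 1)] =
              -(A * B * C * P 0 ^ 2) := by
            unfold bl
            simp
            linear_combination (B * C) * hP'
          rw [e, neg_ne_zero]
          exact mul_ne_zero hABC (pow_ne_zero 2 hi)
      · refine ⟨![C * P 2, 0, -(A * P 0)], ?_, ?_⟩
        · unfold bl
          simp
          ring
        · have e : bl A B C ![C * P 2, 0, -(A * P 0)] ![C * P 2, 0, -(A * P 0)] =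
              -(A * B * C * P 1 ^ 2) := by
            unfold bl
            simp
            linear_combination (A * C) * hP'
          rw [e, neg_ne_zero]
          exact mul_ne_zero hABC (pow_ne_zero 2 hi)
      · refine ⟨![B * P 1, -(A * P 0), 0], ?_, ?_⟩
        · unfold bl
          simp
          ring
        · have e : bl A B C ![B * P 1, -(A * P 0), 0] ![B * P 1, -(A * P 0), 0] =
              -(A * B * C * P 2 ^ 2) := by
            unfold bl
            simp
            linear_combination (A * B) * hP'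
          rw [e, neg_ne_zero]
          exact mul_ne_zero hABC (pow_ne_zero 2 hi)
    obtain ⟨W, h5, h6⟩ := key
    refine ⟨W, ?_⟩
    rw [bl_ph, h5, mul_zero, zero_mul, sub_zero]
    exact mul_ne_zero h6 hPX

/-- the claim holds in a ball -/
private theorem exBall {K : Type} [NormedField K] (h2 : (2 : K) ≠ 0) (A B C : K) (hA : A ≠ 0)
    (hB : B ≠ 0) (hC : C ≠ 0) (P X : Fin 3 → K) (hP0 : P ≠ 0) (hP : bl A B C P P = 0)
    (hX0 : X ≠ 0) :
    ∃ (W : Fin 3 → K) (ρ : ℝ), 0 < ρ ∧ ∀ W' : Fin 3 → K, (∀ k, ‖W' k - W k‖ < ρ) →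
      bl A B C (ph A B C P W') X ≠ 0 := by
  obtain ⟨W, hW⟩ := exW h2 A B C hA hB hC P X hP0 hP hX0
  have hcont : Continuous fun W' : Fin 3 → K => bl A B C (ph A B C P W') X := by
    unfold ph bl
    fun_prop
  have hopen : IsOpen {W' : Fin 3 → K | bl A B C (ph A B C P W') X ≠ 0} :=
    isOpen_ne_fun hcont continuous_const
  obtain ⟨ρ, hρ, hball⟩ := Metric.isOpen_iff.1 hopen W hW
  refine ⟨W, ρ, hρ, fun W' h => ?_⟩
  have h3 : W' ∈ Metric.ball W ρ := by
    rw [Metric.mem_ball, dist_pi_lt_iff hρ]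
    intro k
    rw [dist_eq_norm]
    exact h k
  exact hball h3

private theorem exMin (w : ℕ) (r : ℕ → ℝ) (hr : ∀ p, 0 < r p) (r0 : ℝ) (h0 : 0 < r0) :
    ∃ ρ : ℝ, 0 < ρ ∧ ρ ≤ r0 ∧ ∀ p, p ≤ w → ρ ≤ r p := by
  have hne : (Finset.range (w + 1)).Nonempty := ⟨0, by simp⟩
  refine ⟨min r0 ((Finset.range (w + 1)).inf' hne r), ?_, min_le_left _ _, fun p hp => ?_⟩
  · rw [lt_min_iff, Finset.lt_inf'_iff]
    exact ⟨h0, fun p _ => hr p⟩
  · exact (min_le_right _ _).trans (Finset.inf'_le _ (Finset.mem_range.2 (by omega)))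

theorem con_a (w : ℕ) (A B C : ℚ) (hA : A ≠ 0) (hB : B ≠ 0) (hC : C ≠ 0) (h : Iso A B C)
    (XR : Fin 3 → ℝ) (hXR : XR ≠ 0) (hR : bl (A : ℝ) B C XR XR = 0)
    (XP : ∀ (p : ℕ) [Fact p.Prime], Fin 3 → ℚ_[p])
    (hXP : ∀ (p : ℕ) [Fact p.Prime], p ≤ w → XP p ≠ 0)
    (hP : ∀ (p : ℕ) [Fact p.Prime], p ≤ w → bl (A : ℚ_[p]) B C (XP p) (XP p) = 0) :
    ∃ P : Fin 3 → ℚ, bl A B C P P = 0 ∧ bl (A : ℝ) B C (fun k => (P k : ℝ)) XR ≠ 0 ∧
      ∀ (p : ℕ) [Fact p.Prime], p ≤ w →
        bl (A : ℚ_[p]) B C (fun k => (P k : ℚ_[p])) (XP p) ≠ 0 := by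
  obtain ⟨x, y, z, hne, he⟩ := h
  obtain ⟨P0, hP0def⟩ : ∃ P0 : Fin 3 → ℚ, P0 = ![x, y, z] := ⟨_, rfl⟩
  have hP00 : P0 ≠ 0 := by
    rw [hP0def]
    intro h0
    have e0 := congrFun h0 0
    have e1 := congrFun h0 1
    have e2 := congrFun h0 2
    simp at e0 e1 e2
    tauto
  have hP0q : bl A B C P0 P0 = 0 := by
    rw [hP0def]
    unfold bl
    simp
    linear_combination he
  -- the casts
  have hcast0 : ∀ (K : Type) [Field K] [CharZero K], (fun k => (P0 k : K)) ≠ 0 := by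
    intro K _ _ h0
    apply hP00
    funext k
    have := congrFun h0 k
    simpa using this
  have hcastq : ∀ (K : Type) [Field K] [CharZero K],
      bl (A : K) (B : K) (C : K) (fun k => (P0 k : K)) (fun k => (P0 k : K)) = 0 := by
    intro K _ _
    have e : bl (A : K) (B : K) (C : K) (fun k => (P0 k : K)) (fun k => (P0 k : K)) =
        ((bl A B C P0 P0 : ℚ) : K) := by
      unfold bl
      push_cast
      rfl
    rw [e, hP0q, Rat.cast_zero]
  have hcastph : ∀ (K : Type) [Field K] [CharZero K] (W : Fin 3 → ℚ),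
      (fun k => ((ph A B C P0 W k : ℚ) : K)) =
        ph (A : K) (B : K) (C : K) (fun k => (P0 k : K)) (fun k => (W k : K)) := by
    intro K _ _ W
    funext k
    unfold ph bl
    push_cast
    rfl
  have hAK : ∀ (K : Type) [Field K] [CharZero K], (A : K) ≠ 0 ∧ (B : K) ≠ 0 ∧ (C : K) ≠ 0 := by
    intro K _ _
    exact ⟨by exact_mod_cast hA, by exact_mod_cast hB, by exact_mod_cast hC⟩
  obtain ⟨WR, ρR, hρR, hWR⟩ := exBall (K := ℝ) two_ne_zero (A : ℝ) B C (hAK ℝ).1 (hAK ℝ).2.1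
    (hAK ℝ).2.2 (fun k => (P0 k : ℝ)) XR (hcast0 ℝ) (hcastq ℝ) hXR
  have hloc : ∀ (p : ℕ) (hp : Fact p.Prime), ∃ (W : Fin 3 → ℚ_[p]) (ρ : ℝ), 0 < ρ ∧
      (p ≤ w → ∀ W' : Fin 3 → ℚ_[p], (∀ k, ‖W' k - W k‖ < ρ) →
        bl (A : ℚ_[p]) B C (ph (A : ℚ_[p]) B C (fun k => (P0 k : ℚ_[p])) W') (XP p) ≠ 0) := by
    intro p hp
    by_cases hpw : p ≤ w
    · obtain ⟨W, ρ, h1, h2⟩ := exBall (K := ℚ_[p]) two_ne_zero (A : ℚ_[p]) B C (hAK ℚ_[p]).1
        (hAK ℚ_[p]).2.1 (hAK ℚ_[p]).2.2 (fun k => (P0 k : ℚ_[p])) (XP p) (hcast0 ℚ_[p])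
        (hcastq ℚ_[p]) (hXP p hpw)
      exact ⟨W, ρ, h1, fun _ => h2⟩
    · exact ⟨0, 1, one_pos, fun h => absurd h hpw⟩
  choose WP ρP hρP hWP using hloc
  obtain ⟨ρ, hρ, hρ1, hρ2⟩ := exMin w (fun p => if hp : p.Prime then ρP p ⟨hp⟩ else 1) (by
    intro p
    split_ifs with hp
    · exact hρP p ⟨hp⟩
    · exact one_pos) ρR hρR
  obtain ⟨q, hq1, hq2⟩ := wq w WR (fun p [hp : Fact p.Prime] => WP p hp) ρ hρ
  refine ⟨ph A B C P0 q, ph_zero A B C P0 q hP0q, ?_, ?_⟩
  · rw [hcastph ℝ q]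
    apply hWR
    intro k
    rw [Real.norm_eq_abs]
    exact (hq1 k).trans_le hρ1
  · intro p hp hpw
    rw [hcastph ℚ_[p] q]
    apply hWP p hp hpw
    intro k
    have h3 := hρ2 p hpw
    rw [dif_pos hp.out] at h3
    exact (hq2 p hpw k).trans_le h3

end TwWA
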