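import Pool.Agent.Lib.MP_e426f4_ag.WX.Defs
import Pool.Agent.Lib.MP_e426f4_ag.WX.WQ

/-!
# WX-ConeOf: the cones over open sets, and rational multiples in all open sets

PROOF. `coneOf B = {s | ∃ c ≠ 0, c s ∈ B}` is the union over `c ≠ 0` of the preimages of `B` under the continuous maps `s ↦ c s`: open
(`isOpen_iUnion`, `IsOpen.preimage`). It is a cone. `cones`: put the cone over `BR`, the cones over the `BP p` for `p ≤ w` and `Set.univ` for `p > w` together.
`scale`: let `c_v s ∈ B_v`, `c_v ≠ 0`. The set of `c` with `c s ∈ B_v` is open (preimage), so it contains a ball around `c_v`; one radius for all places; also with radius `≤ |c_∞| / 2`,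
so that the rational `l` from `wq` (with `m = 1`) is not zero.
-/

set_option autoImplicit false

namespace TwWA

open TwHP

variable {n : ℕ}

/-- the cone over a set -/
def coneOf {K : Type} [Field K] (B : Set (Fin (n + 1) → K)) : Set (Fin (n + 1) → K) :=
  {s | ∃ c : K, c ≠ 0 ∧ (fun j => c * s j) ∈ B}

private theorem coneOf_open {K : Type} [Field K] [TopologicalSpace K] [ContinuousMul K]
    (B : Set (Fin (n + 1) → K)) (hB : IsOpen B) : IsOpen (coneOf B) := by
  have h : coneOf B = ⋃ c : {c : K // c ≠ 0}, (fun (s : Fin (n + 1) → K) j => c.1 * s j) ⁻¹' B := by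
    ext s
    simp [coneOf]
  rw [h]
  exact isOpen_iUnion fun c => hB.preimage (by fun_prop)

private theorem coneOf_cone {K : Type} [Field K] (B : Set (Fin (n + 1) → K)) (c : K)
    (s : Fin (n + 1) → K) (hc : c ≠ 0) (hs : s ∈ coneOf B) : (fun j => c * s j) ∈ coneOf B := by
  obtain ⟨d, hd, hB⟩ := hs
  refine ⟨d * c⁻¹, mul_ne_zero hd (inv_ne_zero hc), ?_⟩
  have h : (fun j => d * c⁻¹ * (c * s j)) = fun j => d * s j := by
    funext j
    field_simp
  rw [h]
  exact hB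

private theorem min_eps (ε : ∀ (p : ℕ) [Fact p.Prime], ℝ) (hε : ∀ (p : ℕ) [Fact p.Prime], 0 < ε p)
    (w : ℕ) : ∃ δ : ℝ, 0 < δ ∧ ∀ (p : ℕ) [Fact p.Prime], p ≤ w → δ ≤ ε p := by
  induction w with
  | zero =>
    refine ⟨1, one_pos, fun p hp h => ?_⟩
    have := hp.out.pos
    omega
  | succ w ih =>
    obtain ⟨δ, hδ, h⟩ := ih
    by_cases hw : (w + 1).Prime
    · haveI : Fact (w + 1).Prime := ⟨hw⟩
      refine ⟨min δ (ε (w + 1)), lt_min hδ (hε _), fun p hp hpw => ?_⟩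
      rcases Nat.lt_or_ge w p with h1 | h1
      · obtain rfl : p = w + 1 := by omega
        exact min_le_right _ _
      · exact (min_le_left _ _).trans (h p h1)
    · refine ⟨δ, hδ, fun p hp hpw => h p ?_⟩
      rcases Nat.lt_or_ge w p with h1 | h1
      · obtain rfl : p = w + 1 := by omega
        exact absurd hp.out hw
      · exact h1

theorem cones (w : ℕ) (BR : Set (Fin (n + 1) → ℝ)) (hBR : IsOpen BR)
    (BP : ∀ (p : ℕ) [Fact p.Prime], Set (Fin (n + 1) → ℚ_[p]))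
    (hBP : ∀ (p : ℕ) [Fact p.Prime], p ≤ w → IsOpen (BP p)) :
    ∃ C : Cones n, C.R = coneOf BR ∧ (∀ (p : ℕ) [Fact p.Prime], p ≤ w → C.P p = coneOf (BP p)) ∧
      ∀ (p : ℕ) [Fact p.Prime], w < p → C.P p = Set.univ := by
  classical
  refine ⟨{ R := coneOf BR
            P := fun p _ => if p ≤ w then coneOf (BP p) else Set.univ
            openR := coneOf_open BR hBR
            openP := fun p _ => ?_
            coneR := fun c s hc hs => coneOf_cone BR c s hc hs
            coneP := fun p _ c s hc hs => ?_ }, rfl, fun p _ hp => ?_, fun p _ hp => ?_⟩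
  · by_cases h : p ≤ w
    · simpa only [if_pos h] using coneOf_open (BP p) (hBP p h)
    · simp only [if_neg h, isOpen_univ]
  · by_cases h : p ≤ w
    · simp only [if_pos h] at hs ⊢
      exact coneOf_cone (BP p) c s hc hs
    · simp only [if_neg h, Set.mem_univ]
  · simp only [if_pos hp]
  · simp only [if_neg (not_le.mpr hp)]

theorem scale (w : ℕ) (BR : Set (Fin (n + 1) → ℝ)) (hBR : IsOpen BR)
    (BP : ∀ (p : ℕ) [Fact p.Prime], Set (Fin (n + 1) → ℚ_[p]))
    (hBP : ∀ (p : ℕ) [Fact p.Prime], p ≤ w → IsOpen (BP p)) (s : Fin (n + 1) → ℚ)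
    (hR : (fun j => (s j : ℝ)) ∈ coneOf BR)
    (hP : ∀ (p : ℕ) [Fact p.Prime], p ≤ w → (fun j => (s j : ℚ_[p])) ∈ coneOf (BP p)) :
    ∃ l : ℚ, l ≠ 0 ∧ (fun j => ((l * s j : ℚ) : ℝ)) ∈ BR ∧
      ∀ (p : ℕ) [Fact p.Prime], p ≤ w → (fun j => ((l * s j : ℚ) : ℚ_[p])) ∈ BP p := by
  obtain ⟨cR, hcR, hBs⟩ := hR
  have hoR : IsOpen {d : ℝ | (fun j => d * (s j : ℝ)) ∈ BR} :=
    hBR.preimage (f := fun (d : ℝ) (j : Fin (n + 1)) => d * (s j : ℝ)) (by fun_prop)
  obtain ⟨εR, hεR, hballR⟩ := Metric.isOpen_iff.mp hoR cR hBs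
  have h1 : ∀ (p : ℕ) [Fact p.Prime], ∃ (c : ℚ_[p]) (ε : ℝ), 0 < ε ∧
      (p ≤ w → ∀ d : ℚ_[p], ‖d - c‖ < ε → (fun j => d * (s j : ℚ_[p])) ∈ BP p) := by
    intro p hp
    by_cases h : p ≤ w
    · obtain ⟨c, hc, hB⟩ := hP p h
      have ho : IsOpen {d : ℚ_[p] | (fun j => d * (s j : ℚ_[p])) ∈ BP p} :=
        (hBP p h).preimage (f := fun (d : ℚ_[p]) (j : Fin (n + 1)) => d * (s j : ℚ_[p]))
          (by fun_prop)
      obtain ⟨ε, hε, hball⟩ := Metric.isOpen_iff.mp ho c hB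
      refine ⟨c, ε, hε, fun _ d hd => ?_⟩
      exact hball (by rw [Metric.mem_ball, dist_eq_norm]; exact hd)
    · exact ⟨0, 1, one_pos, fun h' => absurd h' h⟩
  choose c ε hε hc using h1
  obtain ⟨δ, hδ, hδε⟩ := min_eps ε hε w
  obtain ⟨q, hq, hqp⟩ := wq (m := 1) w (fun _ => cR) (fun p _ _ => c p)
    (min δ (min εR |cR|)) (lt_min hδ (lt_min hεR (abs_pos.mpr hcR)))
  have hq0 := hq 0
  refine ⟨q 0, ?_, ?_, ?_⟩
  · intro h0
    have h2 : |((q 0 : ℚ) : ℝ) - cR| < |cR| :=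
      hq0.trans_le ((min_le_right _ _).trans (min_le_right _ _))
    rw [h0] at h2
    simp at h2
  · have h3 : ((q 0 : ℚ) : ℝ) ∈ {d : ℝ | (fun j => d * (s j : ℝ)) ∈ BR} := by
      apply hballR
      rw [Metric.mem_ball, Real.dist_eq]
      exact hq0.trans_le ((min_le_right _ _).trans (min_le_left _ _))
    have h4 : (fun j => ((q 0 * s j : ℚ) : ℝ)) = fun j => ((q 0 : ℚ) : ℝ) * (s j : ℝ) := by
      funext j
      push_cast
      rfl
    rw [h4]
    exact h3
  · intro p hp hpw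
    have h4 : (fun j => ((q 0 * s j : ℚ) : ℚ_[p])) =
        fun j => ((q 0 : ℚ) : ℚ_[p]) * (s j : ℚ_[p]) := by
      funext j
      push_cast
      rfl
    rw [h4]
    exact hc p hpw _ ((hqp p hpw 0).trans_le ((min_le_left _ _).trans (hδε p hpw)))

end TwWA
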