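import Pool.Agent.Lib.MP_e426f4_ag.WX.Defs
import Pool.Agent.Lib.MP_e426f4_ag.TW.Res

/-!
# WX-DSol: density gives a rational point

PROOF. `Dense F w ρ a` gives a rational point as soon as there are local points `L` of the twist by `a` with all coordinates at most `1`. From `ELS F a`: at each place there are `s`
with nonzero values and zeros `(x, y, z) ≠ 0` of the conics. Multiply `s` by a scalar `l ≠ 0` with `|l s j| ≤ 1` for all `j` (a small positive real number, a power of `p`: `locP_scale` in `TW/LocP.lean` for the idea):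
the values get multiplied by `l ^ d i b`, `d i b` even (`eval_smul`), so `(x, y / l ^ (d/2), z / l ^ (d'/2))` is a zero of the new conic. Then multiply `(x, y, z)` by a small nonzero scalar (with
`√|a| |x|` in the real case). `IsPt` has the form `a x² = F0 y² + F1 z²`, `Iso` the form `a x² + (-F0) y² + (-F1) z² = 0`.
`sol_of_isPt`: a rational point gives `Sol F a ℚ`.
-/

set_option autoImplicit false

namespace TwWA

open TwHP

variable {ι : Type} [Fintype ι] {n : ℕ}

theorem sol_iff (F : ι → Bool → MvPolynomial (Fin (n + 1)) ℤ) (a : ℤ) (K : Type) [Field K] :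
    Sol F a K ↔ ∃ (s : Fin (n + 1) → K) (v : ι → Fin 3 → K), IsPt F a s v := by
  constructor
  · rintro ⟨s, hs, h⟩
    choose x y z hne he using h
    refine ⟨s, fun i => ![x i, y i, z i], hs, fun i => ⟨?_, ?_⟩⟩
    · intro h0
      rcases hne i with h1 | h1 | h1
      · exact h1 (by simpa using congrFun h0 0)
      · exact h1 (by simpa using congrFun h0 1)
      · exact h1 (by simpa using congrFun h0 2)
    · have h2 := he i
      simp only [Matrix.cons_val_zero, Matrix.cons_val_one, Matrix.cons_val]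
      linear_combination h2
  · rintro ⟨s, v, hs, h⟩
    refine ⟨s, hs, fun i => ⟨v i 0, v i 1, v i 2, ?_, ?_⟩⟩
    · by_contra hc
      push Not at hc
      apply (h i).1
      funext k
      fin_cases k
      · exact hc.1
      · exact hc.2.1
      · exact hc.2.2
    · linear_combination (h i).2

/-- scaling of the base point -/
private theorem scale_base (F : ι → Bool → MvPolynomial (Fin (n + 1)) ℤ) (d : ι → Bool → ℕ)
    (hF : Fam F d) (a : ℤ) {K : Type} [Field K] (s : Fin (n + 1) → K) (v : ι → Fin 3 → K)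
    (h : IsPt F a s v) (l : K) (hl : l ≠ 0) :
    ∃ v' : ι → Fin 3 → K, IsPt F a (fun j => l * s j) v' := by
  have hval : ∀ i b, MvPolynomial.aeval (fun j => l * s j) (F i b) =
      (l ^ (d i b / 2)) ^ 2 * MvPolynomial.aeval s (F i b) := by
    intro i b
    have e : (l ^ (d i b / 2)) ^ 2 = l ^ d i b := by
      rw [← pow_mul, Nat.div_mul_cancel (hF.even i b).two_dvd]
    rw [eval_smul (F i b) (d i b) (hF.hom i b) l s, e]
  refine ⟨fun i => ![v i 0, v i 1 / l ^ (d i false / 2), v i 2 / l ^ (d i true / 2)],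
    fun i b => ?_, fun i => ⟨?_, ?_⟩⟩
  · rw [hval]
    exact mul_ne_zero (pow_ne_zero _ (pow_ne_zero _ hl)) (h.1 i b)
  · intro h0
    apply (h.2 i).1
    have e0 : v i 0 = 0 := by simpa using congrFun h0 0
    have e1 : v i 1 / l ^ (d i false / 2) = 0 := by simpa using congrFun h0 1
    have e2 : v i 2 / l ^ (d i true / 2) = 0 := by simpa using congrFun h0 2
    rw [div_eq_zero_iff] at e1 e2
    have e1' := e1.resolve_right (pow_ne_zero _ hl)
    have e2' := e2.resolve_right (pow_ne_zero _ hl)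
    funext k
    fin_cases k
    · exact e0
    · exact e1'
    · exact e2'
  · rw [hval, hval]
    simp only [Matrix.cons_val_zero, Matrix.cons_val_one, Matrix.cons_val]
    have h1 := (h.2 i).2
    have hl1 : l ^ (d i false / 2) ≠ 0 := pow_ne_zero _ hl
    have hl2 : l ^ (d i true / 2) ≠ 0 := pow_ne_zero _ hl
    rw [div_pow, div_pow, h1]
    field_simp

/-- scaling of the points of the conics -/
private theorem scale_pts (F : ι → Bool → MvPolynomial (Fin (n + 1)) ℤ) (a : ℤ) {K : Type} [Field K]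
    (s : Fin (n + 1) → K) (v : ι → Fin 3 → K)
    (h : IsPt F a s v) (m : ι → K) (hm : ∀ i, m i ≠ 0) :
    IsPt F a s (fun i k => m i * v i k) := by
  refine ⟨h.1, fun i => ⟨?_, ?_⟩⟩
  · intro h0
    apply (h.2 i).1
    funext k
    have := congrFun h0 k
    exact (mul_eq_zero.1 this).resolve_left (hm i)
  · have h1 := (h.2 i).2
    simp only
    linear_combination (m i) ^ 2 * h1

private theorem real_pt (F : ι → Bool → MvPolynomial (Fin (n + 1)) ℤ) (d : ι → Bool → ℕ)
    (hF : Fam F d) (a : ℤ) (h : Sol F a ℝ) :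
    ∃ (s : Fin (n + 1) → ℝ) (v : ι → Fin 3 → ℝ), IsPt F a s v ∧ BdR a s v := by
  obtain ⟨s, v, hp⟩ := (sol_iff F a ℝ).1 h
  set S : ℝ := 1 + ∑ j, |s j| with hS
  have hS0 : 0 < S := by positivity
  obtain ⟨v', hp'⟩ := scale_base F d hF a s v hp S⁻¹ (inv_ne_zero hS0.ne')
  set m : ι → ℝ := fun i => (1 + |√|(a : ℝ)| * v' i 0| + |v' i 1| + |v' i 2|)⁻¹ with hm
  have hm0 : ∀ i, 0 < 1 + |√|(a : ℝ)| * v' i 0| + |v' i 1| + |v' i 2| := fun i => by positivity
  refine ⟨_, _, scale_pts F a _ v' hp' m (fun i => inv_ne_zero (hm0 i).ne'), fun j => ?_,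
    fun i => ⟨?_, ?_, ?_⟩⟩
  · have h1 : |s j| ≤ S := by
      have := Finset.single_le_sum (f := fun j => |s j|) (fun _ _ => abs_nonneg _)
        (Finset.mem_univ j)
      linarith
    rw [abs_mul, abs_inv, abs_of_pos hS0, inv_mul_le_iff₀ hS0, mul_one]
    exact h1
  · have e : √|(a : ℝ)| * (m i * v' i 0) = m i * (√|(a : ℝ)| * v' i 0) := by ring
    rw [e, abs_mul, hm, abs_inv, abs_of_pos (hm0 i), inv_mul_le_iff₀ (hm0 i), mul_one]
    linarith [abs_nonneg (v' i 1), abs_nonneg (v' i 2)]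
  · rw [abs_mul, hm, abs_inv, abs_of_pos (hm0 i), inv_mul_le_iff₀ (hm0 i), mul_one]
    linarith [abs_nonneg (√|(a : ℝ)| * v' i 0), abs_nonneg (v' i 2)]
  · rw [abs_mul, hm, abs_inv, abs_of_pos (hm0 i), inv_mul_le_iff₀ (hm0 i), mul_one]
    linarith [abs_nonneg (√|(a : ℝ)| * v' i 0), abs_nonneg (v' i 1)]

private theorem padic_scale {m : ℕ} (p : ℕ) [Fact p.Prime] (s : Fin (m + 1) → ℚ_[p]) :
    ∃ l : ℚ_[p], l ≠ 0 ∧ ∀ j, ‖l * s j‖ ≤ 1 := by
  have hp : (1 : ℝ) < p := by exact_mod_cast (Fact.out : p.Prime).one_lt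
  have hp0 : (p : ℚ_[p]) ≠ 0 := by exact_mod_cast (Fact.out : p.Prime).ne_zero
  obtain ⟨k, hk⟩ := pow_unbounded_of_one_lt ‖s‖ hp
  refine ⟨(p : ℚ_[p]) ^ k, pow_ne_zero _ hp0, fun j => ?_⟩
  rw [norm_mul, norm_pow, Padic.norm_p]
  have h1 : ‖s j‖ ≤ (p : ℝ) ^ k := (norm_le_pi_norm s j).trans hk.le
  have h2 : (0 : ℝ) < (p : ℝ) ^ k := by positivity
  rw [inv_pow, inv_mul_le_iff₀ h2, mul_one]
  exact h1

private theorem padic_pt (F : ι → Bool → MvPolynomial (Fin (n + 1)) ℤ) (d : ι → Bool → ℕ)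
    (hF : Fam F d) (a : ℤ) (p : ℕ) [Fact p.Prime] (h : Sol F a ℚ_[p]) :
    ∃ (s : Fin (n + 1) → ℚ_[p]) (v : ι → Fin 3 → ℚ_[p]), IsPt F a s v ∧ BdP s v := by
  obtain ⟨s, v, hp⟩ := (sol_iff F a ℚ_[p]).1 h
  obtain ⟨l, hl0, hl⟩ := padic_scale p s
  obtain ⟨v', hp'⟩ := scale_base F d hF a s v hp l hl0
  choose m hm0 hm using fun i => padic_scale p (v' i)
  exact ⟨_, _, scale_pts F a _ v' hp' m hm0, hl, hm⟩

theorem dense_sol (F : ι → Bool → MvPolynomial (Fin (n + 1)) ℤ) (d : ι → Bool → ℕ) (hF : Fam F d)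
    (w : ℕ) (ρ : ℝ) (a : ℤ) (h : ELS F a) (hD : Dense F w ρ a) : Sol F a ℚ := by
  obtain ⟨_, hR, hP⟩ := h
  obtain ⟨sR, vR, hR1, hR2⟩ := real_pt F d hF a hR
  have hP' : ∀ (p : ℕ) (hp : Fact p.Prime), ∃ (s : Fin (n + 1) → ℚ_[p]) (v : ι → Fin 3 → ℚ_[p]),
      IsPt F a s v ∧ BdP s v := fun p hp => padic_pt F d hF a p (hP p)
  choose sP vP hP1 using hP'
  let L : Loc ι n :=
    { sR := sR
      vR := vR
      sP := fun p hp => sP p hp
      vP := fun p hp => vP p hp }
  obtain ⟨s, v, hsv, _⟩ := hD L ⟨hR1, fun p hp _ => (hP1 p hp).1⟩ hR2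
    (fun p hp _ => (hP1 p hp).2)
  exact (sol_iff F a ℚ).2 ⟨s, v, hsv⟩

end TwWA
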