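import Pool.Agent.Lib.MP_e426f4_ag.TW.ElsPos

/-!
# Weak approximation for almost all twists: definitions

`F i false`, `F i true` are the forms of the `i`-th conic `a x² = F i false y² + F i true z²` (`TW/Defs.lean`).
A point is a pair `(s, v)`, `s` the coordinates of the base point, `v i = (x_i, y_i, z_i)`.
-/

set_option autoImplicit false

namespace TwWA

open TwHP

variable {ι : Type} {n : ℕ}

/-- `(s, v)` is a point over `K` of the twist by `a` -/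
def IsPt (F : ι → Bool → MvPolynomial (Fin (n + 1)) ℤ) (a : ℤ) {K : Type} [Field K]
    (s : Fin (n + 1) → K) (v : ι → Fin 3 → K) : Prop :=
  (∀ i b, MvPolynomial.aeval s (F i b) ≠ 0) ∧ ∀ i, v i ≠ 0 ∧
    (a : K) * v i 0 ^ 2 =
      MvPolynomial.aeval s (F i false) * v i 1 ^ 2 + MvPolynomial.aeval s (F i true) * v i 2 ^ 2

/-- Open cones of vectors over `ℝ` and over all `ℚ_p`. -/
structure Cones (n : ℕ) where
  /-- the real cone -/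
  R : Set (Fin (n + 1) → ℝ)
  /-- the `p`-adic cones -/
  P : ∀ (p : ℕ) [Fact p.Prime], Set (Fin (n + 1) → ℚ_[p])
  openR : IsOpen R
  openP : ∀ (p : ℕ) [Fact p.Prime], IsOpen (P p)
  coneR : ∀ (c : ℝ) (s : Fin (n + 1) → ℝ), c ≠ 0 → s ∈ R → (fun j => c * s j) ∈ R
  coneP : ∀ (p : ℕ) [Fact p.Prime] (c : ℚ_[p]) (s : Fin (n + 1) → ℚ_[p]), c ≠ 0 → s ∈ P p →
    (fun j => c * s j) ∈ P p

/-- all conics over `s` are soluble, `s ∈ O` -/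
def SolIn (F : ι → Bool → MvPolynomial (Fin (n + 1)) ℤ) (a : ℤ) (K : Type) [Field K]
    (O : Set (Fin (n + 1) → K)) : Prop :=
  ∃ s ∈ O, (∀ i b, MvPolynomial.aeval s (F i b) ≠ 0) ∧
    ∀ i, Iso (a : K) (-MvPolynomial.aeval s (F i false)) (-MvPolynomial.aeval s (F i true))

/-- everywhere locally soluble, with base points in the cones -/
def ELSIn (C : Cones n) (F : ι → Bool → MvPolynomial (Fin (n + 1)) ℤ) (a : ℤ) : Prop :=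
  a ≠ 0 ∧ SolIn F a ℝ C.R ∧ ∀ (p : ℕ) [Fact p.Prime], SolIn F a ℚ_[p] (C.P p)

/-- all conics over some rational `s` are soluble over `ℚ`, `s` in the cones of `ℝ` and of all `ℚ_p`, `p ≤ w` -/
def SolQ (C : Cones n) (w : ℕ) (F : ι → Bool → MvPolynomial (Fin (n + 1)) ℤ) (a : ℤ) : Prop :=
  ∃ s : Fin (n + 1) → ℚ, (fun j => (s j : ℝ)) ∈ C.R ∧
    (∀ (p : ℕ) [Fact p.Prime], p ≤ w → (fun j => (s j : ℚ_[p])) ∈ C.P p) ∧
    (∀ i b, MvPolynomial.aeval s (F i b) ≠ 0) ∧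
    ∀ i, Iso (a : ℚ) (-MvPolynomial.aeval s (F i false)) (-MvPolynomial.aeval s (F i true))

/-- `HasPt` of `TW/Defs.lean` with a base point `x ≥ x0`, `x ≡ x0` modulo `Q0` -/
def HasPtX [Fintype ι] (c : CD ι) (a : ℤ) : Prop :=
  ∃ x : ℕ, c.x0 ≤ x ∧ x ≡ c.x0 [MOD c.Q0] ∧ c.vt x ≠ 0 ∧
    ∀ i, Iso (a : ℚ) (-(c.v i false x) : ℚ) (-(c.v i true x) : ℚ)

/-! ### Sets of twists that are negligible -/

/-- a notion of negligible sets of integers -/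
structure Ideal (I : Set ℤ → Prop) : Prop where
  mono : ∀ E E' : Set ℤ, E ⊆ E' → I E' → I E
  union : ∀ E E' : Set ℤ, I E → I E' → I (E ∪ E')
  empty : I ∅

/-- density `0` -/
def SmallZ (E : Set ℤ) : Prop :=
  ∀ ε : ℝ, 0 < ε → ∃ H0 : ℕ, ∀ H : ℕ, H0 ≤ H →
    (Set.ncard {a : ℤ | |a| ≤ H ∧ a ∈ E} : ℝ) ≤ ε * H

/-- the primes `p` with `α p ∈ E` have density `0` in the primes -/
def SmallP (α : ℤ) (E : Set ℤ) : Prop :=
  ∀ ε : ℝ, 0 < ε → ∃ x0 : ℕ, ∀ x : ℕ, x0 ≤ x →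
    (Set.ncard {p : ℕ | p ≤ x ∧ p.Prime ∧ α * (p : ℤ) ∈ E} : ℝ) ≤ ε * ((x : ℝ) / Real.log x)

/-! ### Points close to given points -/

/-- the sign of `a` is the sign of `a0`, and `a = a0 t²` with `|t| = 1` in `ℚ_p` for `p ≤ w` -/
def Equ (w : ℕ) (a0 a : ℤ) : Prop :=
  0 < a0 * a ∧ ∀ (p : ℕ) [Fact p.Prime], p ≤ w → ∃ t : ℚ_[p], ‖t‖ = 1 ∧ (a : ℚ_[p]) = a0 * t ^ 2

/-- local points for the real place and the `p ≤ w` -/
structure Loc (ι : Type) (n : ℕ) where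
  /-- the real base point -/
  sR : Fin (n + 1) → ℝ
  /-- the real points of the conics -/
  vR : ι → Fin 3 → ℝ
  /-- the `p`-adic base points -/
  sP : ∀ (p : ℕ) [Fact p.Prime], Fin (n + 1) → ℚ_[p]
  /-- the `p`-adic points of the conics -/
  vP : ∀ (p : ℕ) [Fact p.Prime], ι → Fin 3 → ℚ_[p]

/-- the local points are points of the twist by `a` -/
def Loc.Of (L : Loc ι n) (F : ι → Bool → MvPolynomial (Fin (n + 1)) ℤ) (w : ℕ) (a : ℤ) : Prop :=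
  IsPt F a L.sR L.vR ∧ ∀ (p : ℕ) [Fact p.Prime], p ≤ w → IsPt F a (L.sP p) (L.vP p)

/-- The twist by `a` has a rational point close to the local points `L` of the twist by `a0`; for
`a = a0 t²` the point `(s, (x, y, z))` of the twist by `a0` is the point `(s, (x / t, y, z))` of the
twist by `a`; over `ℝ` the coordinate `x` is multiplied by `√|a|`. -/
def Near (F : ι → Bool → MvPolynomial (Fin (n + 1)) ℤ) (w : ℕ) (a0 : ℤ) (L : Loc ι n) (ρ : ℝ)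
    (a : ℤ) : Prop :=
  ∀ t : ∀ (p : ℕ) [Fact p.Prime], ℚ_[p],
    (∀ (p : ℕ) [Fact p.Prime], p ≤ w → ‖t p‖ = 1 ∧ (a : ℚ_[p]) = a0 * t p ^ 2) →
    ∃ (s : Fin (n + 1) → ℚ) (v : ι → Fin 3 → ℚ), IsPt F a s v ∧
      (∀ j, |(s j : ℝ) - L.sR j| < ρ) ∧
      (∀ i, |√|(a : ℝ)| * v i 0 - √|(a0 : ℝ)| * L.vR i 0| < ρ ∧ |(v i 1 : ℝ) - L.vR i 1| < ρ ∧
        |(v i 2 : ℝ) - L.vR i 2| < ρ) ∧
      ∀ (p : ℕ) [Fact p.Prime], p ≤ w → (∀ j, ‖(s j : ℚ_[p]) - L.sP p j‖ < ρ) ∧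
        ∀ i, ‖(v i 0 : ℚ_[p]) - L.vP p i 0 / t p‖ < ρ ∧ ‖(v i 1 : ℚ_[p]) - L.vP p i 1‖ < ρ ∧
          ‖(v i 2 : ℚ_[p]) - L.vP p i 2‖ < ρ

/-- all coordinates of a real point of the twist by `a` (with `√|a| x` for `x`) are at most `1` -/
def BdR (a : ℤ) (s : Fin (n + 1) → ℝ) (v : ι → Fin 3 → ℝ) : Prop :=
  (∀ j, |s j| ≤ 1) ∧ ∀ i, |√|(a : ℝ)| * v i 0| ≤ 1 ∧ |v i 1| ≤ 1 ∧ |v i 2| ≤ 1

/-- all coordinates of a `p`-adic point are at most `1` -/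
def BdP {p : ℕ} [Fact p.Prime] (s : Fin (n + 1) → ℚ_[p]) (v : ι → Fin 3 → ℚ_[p]) : Prop :=
  (∀ j, ‖s j‖ ≤ 1) ∧ ∀ i k, ‖v i k‖ ≤ 1

/-- the local points `L` and `N` of the twist by `a` are close to each other -/
def Close (w : ℕ) (a : ℤ) (ρ : ℝ) (L N : Loc ι n) : Prop :=
  (∀ j, |L.sR j - N.sR j| < ρ) ∧
    (∀ i, |√|(a : ℝ)| * L.vR i 0 - √|(a : ℝ)| * N.vR i 0| < ρ ∧ |L.vR i 1 - N.vR i 1| < ρ ∧
      |L.vR i 2 - N.vR i 2| < ρ) ∧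
    ∀ (p : ℕ) [Fact p.Prime], p ≤ w → (∀ j, ‖L.sP p j - N.sP p j‖ < ρ) ∧
      ∀ i k, ‖L.vP p i k - N.vP p i k‖ < ρ

/-- the rational points of the twist by `a` are `ρ`-dense in the product of the real points and of the
`p`-adic points, `p ≤ w` -/
def Dense (F : ι → Bool → MvPolynomial (Fin (n + 1)) ℤ) (w : ℕ) (ρ : ℝ) (a : ℤ) : Prop :=
  ∀ L : Loc ι n, L.Of F w a → BdR a L.sR L.vR →
    (∀ (p : ℕ) [Fact p.Prime], p ≤ w → BdP (L.sP p) (L.vP p)) →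
    ∃ (s : Fin (n + 1) → ℚ) (v : ι → Fin 3 → ℚ), IsPt F a s v ∧
      (∀ j, |(s j : ℝ) - L.sR j| < ρ) ∧
      (∀ i, |√|(a : ℝ)| * v i 0 - √|(a : ℝ)| * L.vR i 0| < ρ ∧ |(v i 1 : ℝ) - L.vR i 1| < ρ ∧
        |(v i 2 : ℝ) - L.vR i 2| < ρ) ∧
      ∀ (p : ℕ) [Fact p.Prime], p ≤ w → (∀ j, ‖(s j : ℚ_[p]) - L.sP p j‖ < ρ) ∧
        ∀ i k, ‖(v i k : ℚ_[p]) - L.vP p i k‖ < ρ

end TwWA
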