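import Pool.Agent.Lib.MP_e426f4_ag.WX.Defs
import Pool.Agent.Lib.MP_e426f4_ag.WX.DSol

/-!
# WX-Diag: all places up to `W(|a|)` with precision `1 / (W(|a|) + 1)`, `W → ∞`

Sets of density zero form a P-ideal: from `{a | ELS F a ∧ ¬ Dense F w ρ a}` of density zero for all `w`, `ρ`
it follows that there is one function `W → ∞` such that `{a | ELS F a ∧ ¬ Dense F (W |a|) (1 / (W |a| + 1)) a}`
has density zero; the same function serves for the twists by `α p`.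
-/

set_option autoImplicit false

namespace TwWA

open TwHP

/-- thresholds for the diagonal function -/
theorem diag_W (M : ℕ → ℕ) (_ : Monotone M) : ∃ W : ℕ → ℕ, Monotone W ∧
    (∀ k : ℕ, ∃ N : ℕ, ∀ h : ℕ, N ≤ h → k ≤ W h) ∧
    ∀ h : ℕ, W h ≠ 0 → (W h + 1) * (M (W h) + 1) ≤ h := by
  have hge : ∀ k : ℕ, k ≤ (k + 1) * (M k + 1) := fun k => by nlinarith [Nat.zero_le (M k)]
  refine ⟨fun h => Nat.findGreatest (fun k => (k + 1) * (M k + 1) ≤ h) h, ?_, ?_, ?_⟩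
  · intro h h' hh
    exact Nat.findGreatest_mono (fun k hk => le_trans hk hh) hh
  · intro k
    refine ⟨(k + 1) * (M k + 1), fun h hh => ?_⟩
    exact Nat.le_findGreatest (le_trans (hge k) hh) hh
  · intro h hne
    exact Nat.findGreatest_of_ne_zero (P := fun k => (k + 1) * (M k + 1) ≤ h) rfl hne

/-- **Diagonal argument.** For an increasing sequence of sets of density zero there is one function
`W → ∞` with: the set of `a ∈ E (W |a|)` has density zero. -/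
theorem diag (E : ℕ → Set ℤ) (hmono : ∀ k l, k ≤ l → E k ⊆ E l) (hZ : ∀ k, SmallZ (E k)) :
    ∃ W : ℕ → ℕ, Monotone W ∧ (∀ k : ℕ, ∃ N : ℕ, ∀ h : ℕ, N ≤ h → k ≤ W h) ∧
      SmallZ {a | a ∈ E (W a.natAbs)} ∧
      ∀ α : ℤ, α ≠ 0 → (∀ k, SmallP α (E k)) → SmallP α {a | a ∈ E (W a.natAbs)} := by
  classical
  have hpos : ∀ k : ℕ, (0 : ℝ) < 1 / ((k : ℝ) + 1) := fun k => by positivity
  choose tZ htZ using fun k : ℕ => hZ k (1 / ((k : ℝ) + 1)) (hpos k)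
  have hP : ∀ (α : ℤ) (k : ℕ), ∃ x0 : ℕ, (∀ k, SmallP α (E k)) → ∀ x : ℕ, x0 ≤ x →
      (Set.ncard {p : ℕ | p ≤ x ∧ p.Prime ∧ α * (p : ℤ) ∈ E k} : ℝ) ≤
        1 / ((k : ℝ) + 1) * ((x : ℝ) / Real.log x) := by
    intro α k
    by_cases h : ∀ k, SmallP α (E k)
    · obtain ⟨x0, hx0⟩ := h k (1 / ((k : ℝ) + 1)) (hpos k)
      exact ⟨x0, fun _ => hx0⟩
    · exact ⟨0, fun h' => absurd h' h⟩
  choose tP htP using hP
  let T : ℕ → ℕ := fun k => tZ k + ∑ α ∈ Finset.Icc (-(k : ℤ)) k, tP α k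
  let M : ℕ → ℕ := fun k => ∑ j ∈ Finset.range (k + 1), T j
  have hM : Monotone M := by
    intro k l hkl
    exact Finset.sum_le_sum_of_subset (Finset.range_subset_range.2 (by omega))
  have hTM : ∀ k, T k ≤ M k := fun k =>
    Finset.single_le_sum (f := T) (fun _ _ => Nat.zero_le _) (Finset.mem_range.2 (Nat.lt_succ_self k))
  obtain ⟨W, hW1, hW2, hW3⟩ := diag_W M hM
  have hsmall : ∀ ε : ℝ, 0 < ε → ∃ k : ℕ, k ≠ 0 ∧ 1 / ((k : ℝ) + 1) ≤ ε := by
    intro ε hε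
    obtain ⟨k, hk⟩ := exists_nat_one_div_lt hε
    refine ⟨k + 1, Nat.succ_ne_zero k, le_trans ?_ hk.le⟩
    rw [Nat.cast_add, Nat.cast_one]
    exact one_div_le_one_div_of_le (by positivity) (by linarith)
  refine ⟨W, hW1, hW2, ?_, ?_⟩
  · intro ε hε
    obtain ⟨k, hk0, hk⟩ := hsmall ε hε
    obtain ⟨N, hN⟩ := hW2 k
    refine ⟨N, fun H hH => ?_⟩
    have hkW : k ≤ W H := hN H hH
    have hW0 : W H ≠ 0 := by omega
    have h3 := hW3 H hW0
    have hT : tZ (W H) ≤ H := by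
      have h4 : tZ (W H) ≤ T (W H) := Nat.le_add_right _ _
      have h5 := hTM (W H)
      nlinarith [Nat.zero_le (M (W H)), Nat.zero_le (W H)]
    have h6 := htZ (W H) H hT
    have hfin : Set.Finite {a : ℤ | |a| ≤ (H : ℤ) ∧ a ∈ E (W H)} := by
      refine (Set.finite_Icc (-(H : ℤ)) H).subset ?_
      rintro a ⟨ha, -⟩
      exact abs_le.1 ha
    have hsub : {a : ℤ | |a| ≤ (H : ℤ) ∧ a ∈ {a | a ∈ E (W a.natAbs)}} ⊆
        {a : ℤ | |a| ≤ (H : ℤ) ∧ a ∈ E (W H)} := by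
      rintro a ⟨ha, ha'⟩
      refine ⟨ha, hmono _ _ (hW1 ?_) ha'⟩
      have : (a.natAbs : ℤ) ≤ (H : ℤ) := by rwa [Int.natCast_natAbs]
      exact_mod_cast this
    have h7 : (Set.ncard {a : ℤ | |a| ≤ (H : ℤ) ∧ a ∈ {a | a ∈ E (W a.natAbs)}} : ℝ) ≤
        (Set.ncard {a : ℤ | |a| ≤ (H : ℤ) ∧ a ∈ E (W H)} : ℝ) := by
      exact_mod_cast Set.ncard_le_ncard hsub hfin
    refine le_trans h7 (le_trans h6 ?_)
    refine mul_le_mul_of_nonneg_right (le_trans ?_ hk) (Nat.cast_nonneg H)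
    exact one_div_le_one_div_of_le (by positivity) (by
      have : (k : ℝ) ≤ (W H : ℝ) := by exact_mod_cast hkW
      linarith)
  · intro α hα hPα ε hε
    obtain ⟨k, hk0, hk⟩ := hsmall ε hε
    obtain ⟨N, hN⟩ := hW2 (max k α.natAbs)
    have hα1 : 1 ≤ α.natAbs := Nat.one_le_iff_ne_zero.2 (Int.natAbs_ne_zero.2 hα)
    refine ⟨N, fun x hx => ?_⟩
    let K : ℕ := W (α.natAbs * x)
    have hKge : max k α.natAbs ≤ K := hN _ (le_trans hx (Nat.le_mul_of_pos_left x hα1))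
    have hkK : k ≤ K := le_trans (le_max_left _ _) hKge
    have hαK : α.natAbs ≤ K := le_trans (le_max_right _ _) hKge
    have hK0 : K ≠ 0 := by omega
    have h3 : (K + 1) * (M K + 1) ≤ α.natAbs * x := hW3 _ hK0
    have hx' : M K + 1 ≤ x := by
      by_contra hcon
      have : x ≤ M K := by omega
      nlinarith [Nat.mul_le_mul hαK this, Nat.zero_le (M K), Nat.zero_le K]
    have hmem : α ∈ Finset.Icc (-(K : ℤ)) K := by
      rw [Finset.mem_Icc, ← abs_le, ← Int.natCast_natAbs]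
      exact_mod_cast hαK
    have hT : tP α K ≤ x := by
      have h4 : tP α K ≤ ∑ β ∈ Finset.Icc (-(K : ℤ)) K, tP β K :=
        Finset.single_le_sum (f := fun β => tP β K) (fun _ _ => Nat.zero_le _) hmem
      have h5 : ∑ β ∈ Finset.Icc (-(K : ℤ)) K, tP β K ≤ T K := Nat.le_add_left _ _
      have h6 := hTM K
      omega
    have h6 := htP α K hPα x hT
    have hfin : Set.Finite {p : ℕ | p ≤ x ∧ p.Prime ∧ α * (p : ℤ) ∈ E K} := by
      refine (Set.finite_Iic x).subset ?_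
      rintro p ⟨hp, -⟩
      exact hp
    have hsub : {p : ℕ | p ≤ x ∧ p.Prime ∧ α * (p : ℤ) ∈ {a | a ∈ E (W a.natAbs)}} ⊆
        {p : ℕ | p ≤ x ∧ p.Prime ∧ α * (p : ℤ) ∈ E K} := by
      rintro p ⟨hp, hp1, hp2⟩
      refine ⟨hp, hp1, hmono _ _ (hW1 ?_) hp2⟩
      rw [Int.natAbs_mul, Int.natAbs_natCast]
      exact Nat.mul_le_mul_left _ hp
    have h7 : (Set.ncard {p : ℕ | p ≤ x ∧ p.Prime ∧ α * (p : ℤ) ∈ {a | a ∈ E (W a.natAbs)}} : ℝ) ≤
        (Set.ncard {p : ℕ | p ≤ x ∧ p.Prime ∧ α * (p : ℤ) ∈ E K} : ℝ) := by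
      exact_mod_cast Set.ncard_le_ncard hsub hfin
    refine le_trans h7 (le_trans h6 ?_)
    refine mul_le_mul_of_nonneg_right (le_trans ?_ hk) ?_
    · exact one_div_le_one_div_of_le (by positivity) (by
        have : (k : ℝ) ≤ (K : ℝ) := by exact_mod_cast hkK
        linarith)
    · rcases Nat.eq_zero_or_pos x with h0 | h0
      · simp [h0]
      · exact div_nonneg (Nat.cast_nonneg x) (Real.log_nonneg (by exact_mod_cast h0))


variable {ι : Type} [Fintype ι] {n : ℕ}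

/-- scaling of the base point -/
private theorem scale_base (F : ι → Bool → MvPolynomial (Fin (n + 1)) ℤ) (d : ι → Bool → ℕ)
    (hF : Fam F d) (a : ℤ) {K : Type} [Field K] (s : Fin (n + 1) → K) (v : ι → Fin 3 → K)
    (h : IsPt F a s v) (l : K) (hl : l ≠ 0) :
    ∃ v' : ι → Fin 3 → K, IsPt F a (fun j => l * s j) v' := by
  have hval : ∀ i b, MvPolynomial.aeval (fun j => l * s j) (F i b) =
      (l ^ (d i b / 2)) ^ 2 * MvPolynomial.aeval s (F i b) := by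
    intro i b
    have e : (l ^ (d i b / 2)) ^ 2 = l ^ d i b := by
      rw [← pow_mul, Nat.div_mul_cancel (hF.even i b).two_dvd]
    rw [eval_smul (F i b) (d i b) (hF.hom i b) l s, e]
  refine ⟨fun i => ![v i 0, v i 1 / l ^ (d i false / 2), v i 2 / l ^ (d i true / 2)],
    fun i b => ?_, fun i => ⟨?_, ?_⟩⟩
  · rw [hval]
    exact mul_ne_zero (pow_ne_zero _ (pow_ne_zero _ hl)) (h.1 i b)
  · intro h0
    apply (h.2 i).1
    have e0 : v i 0 = 0 := by simpa using congrFun h0 0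
    have e1 : v i 1 / l ^ (d i false / 2) = 0 := by simpa using congrFun h0 1
    have e2 : v i 2 / l ^ (d i true / 2) = 0 := by simpa using congrFun h0 2
    rw [div_eq_zero_iff] at e1 e2
    have e1' := e1.resolve_right (pow_ne_zero _ hl)
    have e2' := e2.resolve_right (pow_ne_zero _ hl)
    funext k
    fin_cases k
    · exact e0
    · exact e1'
    · exact e2'
  · rw [hval, hval]
    simp only [Matrix.cons_val_zero, Matrix.cons_val_one, Matrix.cons_val]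
    have h1 := (h.2 i).2
    have hl1 : l ^ (d i false / 2) ≠ 0 := pow_ne_zero _ hl
    have hl2 : l ^ (d i true / 2) ≠ 0 := pow_ne_zero _ hl
    rw [div_pow, div_pow, h1]
    field_simp

/-- scaling of the points of the conics -/
private theorem scale_pts (F : ι → Bool → MvPolynomial (Fin (n + 1)) ℤ) (a : ℤ) {K : Type} [Field K]
    (s : Fin (n + 1) → K) (v : ι → Fin 3 → K)
    (h : IsPt F a s v) (m : ι → K) (hm : ∀ i, m i ≠ 0) :
    IsPt F a s (fun i k => m i * v i k) := by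
  refine ⟨h.1, fun i => ⟨?_, ?_⟩⟩
  · intro h0
    apply (h.2 i).1
    funext k
    have := congrFun h0 k
    exact (mul_eq_zero.1 this).resolve_left (hm i)
  · have h1 := (h.2 i).2
    simp only
    linear_combination (m i) ^ 2 * h1

private theorem padic_scale {m : ℕ} (p : ℕ) [Fact p.Prime] (s : Fin (m + 1) → ℚ_[p]) :
    ∃ l : ℚ_[p], l ≠ 0 ∧ ∀ j, ‖l * s j‖ ≤ 1 := by
  have hp : (1 : ℝ) < p := by exact_mod_cast (Fact.out : p.Prime).one_lt
  have hp0 : (p : ℚ_[p]) ≠ 0 := by exact_mod_cast (Fact.out : p.Prime).ne_zero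
  obtain ⟨k, hk⟩ := pow_unbounded_of_one_lt ‖s‖ hp
  refine ⟨(p : ℚ_[p]) ^ k, pow_ne_zero _ hp0, fun j => ?_⟩
  rw [norm_mul, norm_pow, Padic.norm_p]
  have h1 : ‖s j‖ ≤ (p : ℝ) ^ k := (norm_le_pi_norm s j).trans hk.le
  have h2 : (0 : ℝ) < (p : ℝ) ^ k := by positivity
  rw [inv_pow, inv_mul_le_iff₀ h2, mul_one]
  exact h1

private theorem padic_pt (F : ι → Bool → MvPolynomial (Fin (n + 1)) ℤ) (d : ι → Bool → ℕ)
    (hF : Fam F d) (a : ℤ) (p : ℕ) [Fact p.Prime] (h : Sol F a ℚ_[p]) :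
    ∃ (s : Fin (n + 1) → ℚ_[p]) (v : ι → Fin 3 → ℚ_[p]), IsPt F a s v ∧ BdP s v := by
  obtain ⟨s, v, hp⟩ := (sol_iff F a ℚ_[p]).1 h
  obtain ⟨l, hl0, hl⟩ := padic_scale p s
  obtain ⟨v', hp'⟩ := scale_base F d hF a s v hp l hl0
  choose m hm0 hm using fun i => padic_scale p (v' i)
  exact ⟨_, _, scale_pts F a _ v' hp' m hm0, hl, hm⟩

/-- `Dense` for more places and a smaller precision is stronger (for everywhere locally soluble twists) -/
theorem dense_anti (F : ι → Bool → MvPolynomial (Fin (n + 1)) ℤ) (d : ι → Bool → ℕ) (hF : Fam F d)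
    {w w' : ℕ} (hw : w' ≤ w) {ρ ρ' : ℝ} (hρ : ρ ≤ ρ') (a : ℤ) (h : ELS F a)
    (hD : Dense F w ρ a) : Dense F w' ρ' a := by
  classical
  intro L hL hB hBP
  have hP' : ∀ (p : ℕ) (hp : Fact p.Prime), ∃ (s : Fin (n + 1) → ℚ_[p]) (v : ι → Fin 3 → ℚ_[p]),
      IsPt F a s v ∧ BdP s v := fun p hp => padic_pt F d hF a p (h.2.2 p)
  have hQ : ∀ (p : ℕ) (hp : Fact p.Prime), ∃ (s : Fin (n + 1) → ℚ_[p]) (v : ι → Fin 3 → ℚ_[p]),
      IsPt F a s v ∧ BdP s v ∧ (p ≤ w' → s = L.sP p ∧ v = L.vP p) := by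
    intro p hp
    by_cases hpw : p ≤ w'
    · exact ⟨L.sP p, L.vP p, hL.2 p hpw, hBP p hpw, fun _ => ⟨rfl, rfl⟩⟩
    · obtain ⟨s, v, h1, h2⟩ := hP' p hp
      exact ⟨s, v, h1, h2, fun h3 => absurd h3 hpw⟩
  choose sP vP hQ1 hQ2 hQ3 using hQ
  let L' : Loc ι n :=
    { sR := L.sR
      vR := L.vR
      sP := fun p hp => sP p hp
      vP := fun p hp => vP p hp }
  obtain ⟨s, v, hsv, h1, h2, h3⟩ := hD L' ⟨hL.1, fun p hp _ => hQ1 p hp⟩ hB
    (fun p hp _ => hQ2 p hp)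
  refine ⟨s, v, hsv, fun j => lt_of_lt_of_le (h1 j) hρ, fun i =>
    ⟨lt_of_lt_of_le (h2 i).1 hρ, lt_of_lt_of_le (h2 i).2.1 hρ, lt_of_lt_of_le (h2 i).2.2 hρ⟩, ?_⟩
  intro p hp hpw
  obtain ⟨h4, h5⟩ := h3 p (le_trans hpw hw)
  obtain ⟨e1, e2⟩ := hQ3 p hp hpw
  refine ⟨fun j => ?_, fun i k => ?_⟩
  · have := h4 j
    simp only [L', e1] at this
    exact lt_of_lt_of_le this hρ
  · have := h5 i k
    simp only [L', e2] at this
    exact lt_of_lt_of_le this hρ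

/-- **One function for all places and all precisions.** -/
theorem diag_dense (F : ι → Bool → MvPolynomial (Fin (n + 1)) ℤ) (d : ι → Bool → ℕ) (hF : Fam F d)
    (hZ : ∀ (w : ℕ) (ρ : ℝ), 0 < ρ → SmallZ {a | ELS F a ∧ ¬ Dense F w ρ a}) :
    ∃ W : ℕ → ℕ, Monotone W ∧ (∀ k : ℕ, ∃ N : ℕ, ∀ h : ℕ, N ≤ h → k ≤ W h) ∧
      SmallZ {a | ELS F a ∧ ¬ Dense F (W a.natAbs) (1 / ((W a.natAbs : ℝ) + 1)) a} ∧
      ∀ α : ℤ, α ≠ 0 → (∀ (w : ℕ) (ρ : ℝ), 0 < ρ → SmallP α {a | ELS F a ∧ ¬ Dense F w ρ a}) →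
        SmallP α {a | ELS F a ∧ ¬ Dense F (W a.natAbs) (1 / ((W a.natAbs : ℝ) + 1)) a} := by
  have hpos : ∀ k : ℕ, (0 : ℝ) < 1 / ((k : ℝ) + 1) := fun k => by positivity
  obtain ⟨W, h1, h2, h3, h4⟩ := diag (fun k => {a | ELS F a ∧ ¬ Dense F k (1 / ((k : ℝ) + 1)) a})
    (by
      rintro k l hkl a ⟨ha, ha'⟩
      refine ⟨ha, fun hD => ha' ?_⟩
      refine dense_anti F d hF hkl ?_ a ha hD
      exact one_div_le_one_div_of_le (by positivity) (by
        have : (k : ℝ) ≤ (l : ℝ) := by exact_mod_cast hkl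
        linarith))
    (fun k => hZ k _ (hpos k))
  exact ⟨W, h1, h2, h3, fun α hα hP => h4 α hα (fun k => hP k _ (hpos k))⟩

end TwWA
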