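import Pool.Agent.Lib.MP_e426f4_ag.WX.Defs
import Pool.Agent.Lib.MP_e426f4_ag.WX.SqP
import Pool.Agent.Lib.MP_e426f4_ag.TW.LocP

/-!
# WX-FibP: points of the fibres over base points close to a given one (`p`-adic)

PROOF. Let `c = aeval s0 (F i b) ≠ 0`. The map `s ↦ aeval s (F i b)` is continuous (see the proof of `loc_p` in
`TW/LocP.lean`), so for `s` close to `s0` the number `u = aeval s (F i b) / c` is close to `1`: `u = t ^ 2`, `‖t - 1‖ < ε'`, `‖t‖ = 1` (`sq_near_p`). Put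
`v i 0 = v0 i 0`, `v i 1 = v0 i 1 / t_(i,false)`, `v i 2 = v0 i 2 / t_(i,true)`: this is a point over `s`, not zero, and
`‖v0 / t - v0‖ = ‖v0‖ ‖t - 1‖ < ρ` if `ε' (1 + max ‖v0 i k‖) ≤ ρ`. `B` = the interior of the set of these `s`
(`eventually_nhds` as in `loc_p`; finitely many pairs `(i, b)`: `Filter.eventually_all`; `mem_nhds_iff`).
-/

set_option autoImplicit false

namespace TwWA

open TwHP

variable {ι : Type} [Fintype ι] {n : ℕ}

theorem fib_p (F : ι → Bool → MvPolynomial (Fin (n + 1)) ℤ) (p : ℕ) [Fact p.Prime] (a0 : ℤ)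
    (s0 : Fin (n + 1) → ℚ_[p]) (v0 : ι → Fin 3 → ℚ_[p]) (h : IsPt F a0 s0 v0) (ρ : ℝ)
    (hρ : 0 < ρ) :
    ∃ B : Set (Fin (n + 1) → ℚ_[p]), IsOpen B ∧ s0 ∈ B ∧ ∀ s ∈ B, (∀ j, ‖s j - s0 j‖ < ρ) ∧
      ∃ v : ι → Fin 3 → ℚ_[p], IsPt F a0 s v ∧ (∀ i, v i 0 = v0 i 0) ∧
        ∀ i k, ‖v i k - v0 i k‖ < ρ := by
  set M : ℝ := 1 + ‖v0‖ with hM
  have hM0 : 0 < M := by positivity
  obtain ⟨δ, hδ, hsq⟩ := sq_near_p p (ρ / M) (div_pos hρ hM0)
  have hev : ∀ᶠ x in nhds s0, (∀ j, ‖x j - s0 j‖ < ρ) ∧ ∀ i b, ∃ t : ℚ_[p], t ≠ 0 ∧ ‖t‖ = 1 ∧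
      MvPolynomial.aeval x (F i b) = MvPolynomial.aeval s0 (F i b) * t ^ 2 ∧
      ‖t - 1‖ < ρ / M := by
    refine Filter.Eventually.and ?_ ?_
    · filter_upwards [Metric.ball_mem_nhds s0 hρ] with x hx j
      have h1 := (dist_pi_lt_iff hρ).1 (Metric.mem_ball.1 hx) j
      rwa [dist_eq_norm] at h1
    · rw [Filter.eventually_all]
      intro i
      rw [Filter.eventually_all]
      intro b
      have hc : Continuous fun x : Fin (n + 1) → ℚ_[p] => MvPolynomial.aeval x (F i b) := by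
        have : (fun x : Fin (n + 1) → ℚ_[p] => MvPolynomial.aeval x (F i b)) =
            fun x => MvPolynomial.eval x ((F i b).map (Int.castRingHom ℚ_[p])) := by
          funext x
          rw [MvPolynomial.aeval_def, MvPolynomial.eval_map]
          rfl
        rw [this]
        exact MvPolynomial.continuous_eval _
      have hc0 := h.1 i b
      have hd : Continuous fun x : Fin (n + 1) → ℚ_[p] =>
          MvPolynomial.aeval x (F i b) / MvPolynomial.aeval s0 (F i b) := hc.div_const _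
      have h2 := Metric.continuousAt_iff'.1 (hd.continuousAt (x := s0)) δ hδ
      refine h2.mono fun x hx => ?_
      rw [dist_eq_norm, div_self hc0] at hx
      obtain ⟨t, ht0, ht1, ht2, ht3⟩ := hsq _ hx
      refine ⟨t, ht0, ht1, ?_, ht3⟩
      rw [← ht2, mul_div_cancel₀ _ hc0]
  obtain ⟨B, hB, hBo, hB0⟩ := mem_nhds_iff.1 hev
  refine ⟨B, hBo, hB0, fun s hs => ?_⟩
  obtain ⟨h1, h2⟩ := hB hs
  refine ⟨h1, ?_⟩
  choose t ht0 ht1 ht2 ht3 using h2
  have key : ∀ i k b, ‖v0 i k / t i b - v0 i k‖ < ρ := by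
    intro i k b
    have e : v0 i k / t i b - v0 i k = -(v0 i k / t i b * (t i b - 1)) := by
      have := ht0 i b
      field_simp
      ring
    rw [e, norm_neg, norm_mul, norm_div, ht1, div_one]
    have h3 : ‖v0 i k‖ ≤ ‖v0‖ := (norm_le_pi_norm (v0 i) k).trans (norm_le_pi_norm v0 i)
    calc ‖v0 i k‖ * ‖t i b - 1‖ ≤ ‖v0‖ * ‖t i b - 1‖ := by gcongr
      _ ≤ ‖v0‖ * (ρ / M) := by gcongr; exact (ht3 i b).le
      _ < M * (ρ / M) := by
          apply mul_lt_mul_of_pos_right _ (div_pos hρ hM0)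
          rw [hM]; linarith
      _ = ρ := mul_div_cancel₀ _ hM0.ne'
  refine ⟨fun i => ![v0 i 0, v0 i 1 / t i false, v0 i 2 / t i true], ⟨fun i b => ?_, fun i => ⟨?_, ?_⟩⟩,
    fun i => rfl, fun i k => ?_⟩
  · rw [ht2]
    exact mul_ne_zero (h.1 i b) (pow_ne_zero _ (ht0 i b))
  · intro h0
    apply (h.2 i).1
    funext k
    have e0 := congrFun h0 0
    have e1 := congrFun h0 1
    have e2 := congrFun h0 2
    simp only [Matrix.cons_val_zero, Matrix.cons_val_one, Matrix.cons_val, Pi.zero_apply,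
      div_eq_zero_iff, ht0, or_false] at e0 e1 e2
    fin_cases k
    · exact e0
    · exact e1
    · exact e2
  · have h5 := (h.2 i).2
    simp only [Matrix.cons_val_zero, Matrix.cons_val_one, Matrix.cons_val]
    rw [h5, ht2 i false, ht2 i true]
    have := ht0 i false
    have := ht0 i true
    field_simp
  · fin_cases k
    · simpa using hρ
    · exact key i 1 false
    · exact key i 2 true

end TwWA
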