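import Pool.Agent.Lib.MP_e426f4_ag.WX.Defs
import Pool.Agent.Lib.MP_e426f4_ag.TW.LocR

/-!
# WX-FibR: points of the fibres over base points close to a given one (real)
-/

set_option autoImplicit false

namespace TwWA

open TwHP

variable {ι : Type} [Fintype ι] {n : ℕ}

theorem fib_r (F : ι → Bool → MvPolynomial (Fin (n + 1)) ℤ) (a0 : ℤ)
    (s0 : Fin (n + 1) → ℝ) (v0 : ι → Fin 3 → ℝ) (h : IsPt F a0 s0 v0) (ρ : ℝ)
    (hρ : 0 < ρ) :
    ∃ B : Set (Fin (n + 1) → ℝ), IsOpen B ∧ s0 ∈ B ∧ ∀ s ∈ B, (∀ j, |s j - s0 j| < ρ) ∧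
      ∃ v : ι → Fin 3 → ℝ, IsPt F a0 s v ∧ (∀ i, v i 0 = v0 i 0) ∧
        ∀ i k, |v i k - v0 i k| < ρ := by
  set M : ℝ := 1 + ‖v0‖ with hM
  have hM0 : 0 < M := by positivity
  obtain ⟨δ, hδ, hsq⟩ : ∃ δ : ℝ, 0 < δ ∧ ∀ u : ℝ, |u - 1| < δ →
      0 < u ∧ |(√u)⁻¹ - 1| < ρ / M := by
    have hc : ContinuousAt (fun u : ℝ => (√u)⁻¹) 1 := by
      refine ContinuousAt.inv₀ Real.continuous_sqrt.continuousAt ?_
      simp
    obtain ⟨δ, hδ, h1⟩ := Metric.continuousAt_iff.1 hc (ρ / M) (div_pos hρ hM0)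
    refine ⟨min δ 1, lt_min hδ one_pos, fun u hu => ?_⟩
    have h2 := h1 (x := u) (by rw [Real.dist_eq]; exact hu.trans_le (min_le_left _ _))
    rw [Real.dist_eq, Real.sqrt_one, inv_one] at h2
    have h3 := abs_lt.1 (hu.trans_le (min_le_right _ _))
    exact ⟨by linarith, h2⟩
  have hev : ∀ᶠ x in nhds s0, (∀ j, |x j - s0 j| < ρ) ∧ ∀ i b, ∃ t : ℝ, t ≠ 0 ∧
      MvPolynomial.aeval x (F i b) = MvPolynomial.aeval s0 (F i b) * t ^ 2 ∧
      |t⁻¹ - 1| < ρ / M := by
    refine Filter.Eventually.and ?_ ?_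
    · filter_upwards [Metric.ball_mem_nhds s0 hρ] with x hx j
      have h1 := (dist_pi_lt_iff hρ).1 (Metric.mem_ball.1 hx) j
      rwa [Real.dist_eq] at h1
    · rw [Filter.eventually_all]
      intro i
      rw [Filter.eventually_all]
      intro b
      have hc : Continuous fun x : Fin (n + 1) → ℝ => MvPolynomial.aeval x (F i b) := by
        have : (fun x : Fin (n + 1) → ℝ => MvPolynomial.aeval x (F i b)) =
            fun x => MvPolynomial.eval x ((F i b).map (Int.castRingHom ℝ)) := by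
          funext x
          rw [MvPolynomial.aeval_def, MvPolynomial.eval_map]
          rfl
        rw [this]
        exact MvPolynomial.continuous_eval _
      have hc0 := h.1 i b
      have hd : Continuous fun x : Fin (n + 1) → ℝ =>
          MvPolynomial.aeval x (F i b) / MvPolynomial.aeval s0 (F i b) := hc.div_const _
      have h2 := Metric.continuousAt_iff'.1 (hd.continuousAt (x := s0)) δ hδ
      refine h2.mono fun x hx => ?_
      rw [Real.dist_eq, div_self hc0] at hx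
      obtain ⟨hu, ht⟩ := hsq _ hx
      refine ⟨_, (Real.sqrt_pos.2 hu).ne', ?_, ht⟩
      rw [Real.sq_sqrt hu.le, mul_div_cancel₀ _ hc0]
  obtain ⟨B, hB, hBo, hB0⟩ := mem_nhds_iff.1 hev
  refine ⟨B, hBo, hB0, fun s hs => ?_⟩
  obtain ⟨h1, h2⟩ := hB hs
  refine ⟨h1, ?_⟩
  choose t ht0 ht2 ht3 using h2
  have key : ∀ i k b, |v0 i k / t i b - v0 i k| < ρ := by
    intro i k b
    have e : v0 i k / t i b - v0 i k = v0 i k * ((t i b)⁻¹ - 1) := by
      rw [div_eq_mul_inv]
      ring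
    rw [e, abs_mul]
    have h3 : |v0 i k| ≤ ‖v0‖ := (norm_le_pi_norm (v0 i) k).trans (norm_le_pi_norm v0 i)
    calc |v0 i k| * |(t i b)⁻¹ - 1| ≤ ‖v0‖ * |(t i b)⁻¹ - 1| := by gcongr
      _ ≤ ‖v0‖ * (ρ / M) := by gcongr; exact (ht3 i b).le
      _ < M * (ρ / M) := by
          apply mul_lt_mul_of_pos_right _ (div_pos hρ hM0)
          rw [hM]; linarith
      _ = ρ := mul_div_cancel₀ _ hM0.ne'
  refine ⟨fun i => ![v0 i 0, v0 i 1 / t i false, v0 i 2 / t i true], ⟨fun i b => ?_, fun i => ⟨?_, ?_⟩⟩,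
    fun i => rfl, fun i k => ?_⟩
  · rw [ht2]
    exact mul_ne_zero (h.1 i b) (pow_ne_zero _ (ht0 i b))
  · intro h0
    apply (h.2 i).1
    funext k
    have e0 := congrFun h0 0
    have e1 := congrFun h0 1
    have e2 := congrFun h0 2
    simp only [Matrix.cons_val_zero, Matrix.cons_val_one, Matrix.cons_val, Pi.zero_apply,
      div_eq_zero_iff, ht0, or_false] at e0 e1 e2
    fin_cases k
    · exact e0
    · exact e1
    · exact e2
  · have h5 := (h.2 i).2
    simp only [Matrix.cons_val_zero, Matrix.cons_val_one, Matrix.cons_val]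
    rw [h5, ht2 i false, ht2 i true]
    have := ht0 i false
    have := ht0 i true
    field_simp
  · fin_cases k
    · simpa using hρ
    · exact key i 1 false
    · exact key i 2 true

end TwWA
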