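import Pool.Agent.Lib.MP_e426f4_ag.WX.Defs

/-!
# WX-Net: finitely many tuples of local points come close to all bounded ones

PROOF. Let `J = {p : ℕ // p.Prime ∧ p ≤ w}` (finite; `Fact (p : ℕ).Prime` for `p : J`) and
`X = ((Fin (n + 1) → ℝ) × (ι → Fin 3 → ℝ)) × ∀ p : J, (Fin (n + 1) → ℚ_[p]) × (ι → Fin 3 → ℚ_[p])`, a finite product of proper metric spaces, hence a proper metric space.
Attach to `L` the point `P(L) ∈ X` of its coordinates, with `√|a0| x` instead of `x` in the real part. The set `Y = {P(L) | L.Of F w a0, bounded as in the statement}` is bounded (all coordinates at most `1` in norm), so it is totally bounded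
(`Metric.isBounded...`, closed ball compact: `isCompact_closedBall`, `TotallyBounded.subset`), and there is a finite subset of `Y` such that every point of `Y` is within `ρ` of one of its points
(`TotallyBounded` with centres in the set: `totallyBounded_iff_subset`, or `Metric.totallyBounded_iff` with `ρ/2` and one point of `Y` in each ball that meets `Y`). `T` = one `L` for each of these finitely many points.
The distance in `X` is the maximum of the distances of the coordinates. To go back from `p : J` to `(p : ℕ) [Fact p.Prime], p ≤ w` use `⟨p, Fact.out, h⟩ : J` (the instances are equal, `Fact` is a proposition).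
-/

set_option autoImplicit false

namespace TwWA

open TwHP

variable {ι : Type} [Fintype ι] {n : ℕ}

private abbrev JP (w : ℕ) : Type := {p : ℕ // p.Prime ∧ p ≤ w}

private theorem jp_finite (w : ℕ) : Finite (JP w) :=
  Finite.of_injective (fun p : JP w => (⟨p.1, Nat.lt_succ_of_le p.2.2⟩ : Fin (w + 1)))
    (fun p q h => Subtype.ext (by simpa using h))

private noncomputable instance jp_fintype (w : ℕ) : Fintype (JP w) :=
  @Fintype.ofFinite _ (jp_finite w)

private instance jp_fact (w : ℕ) (p : JP w) : Fact (p : ℕ).Prime := ⟨p.2.1⟩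

private abbrev XX (ι : Type) [Fintype ι] (n w : ℕ) : Type :=
  ((Fin (n + 1) → ℝ) × (ι → Fin 3 → ℝ)) ×
    ((p : JP w) → (Fin (n + 1) → ℚ_[(p : ℕ)]) × (ι → Fin 3 → ℚ_[(p : ℕ)]))

private noncomputable def toX (w : ℕ) (a0 : ℤ) (L : Loc ι n) : XX ι n w :=
  ((L.sR, fun i k => if k = 0 then √|(a0 : ℝ)| * L.vR i 0 else L.vR i k), fun p => (L.sP p, L.vP p))

theorem net (F : ι → Bool → MvPolynomial (Fin (n + 1)) ℤ) (w : ℕ) (a0 : ℤ) (ρ : ℝ) (hρ : 0 < ρ) :
    ∃ T : Set (Loc ι n), T.Finite ∧ (∀ L ∈ T, L.Of F w a0) ∧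
      ∀ L : Loc ι n, L.Of F w a0 → BdR a0 L.sR L.vR →
        (∀ (p : ℕ) [Fact p.Prime], p ≤ w → BdP (L.sP p) (L.vP p)) → ∃ N ∈ T, Close w a0 ρ L N := by
  classical
  obtain ⟨Y, hY⟩ : ∃ Y : Set (Loc ι n), Y = {L | L.Of F w a0 ∧ BdR a0 L.sR L.vR ∧
      ∀ (p : ℕ) [Fact p.Prime], p ≤ w → BdP (L.sP p) (L.vP p)} := ⟨_, rfl⟩
  have hsub : toX w a0 '' Y ⊆ Metric.closedBall (0 : XX ι n w) 1 := by
    rintro _ ⟨L, hL, rfl⟩
    rw [hY] at hL
    obtain ⟨-, ⟨h1, h2⟩, h3⟩ := hL
    rw [mem_closedBall_zero_iff, norm_prod_le_iff, norm_prod_le_iff]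
    refine ⟨⟨?_, ?_⟩, ?_⟩
    · rw [pi_norm_le_iff_of_nonneg zero_le_one]
      intro j
      exact h1 j
    · rw [pi_norm_le_iff_of_nonneg zero_le_one]
      intro i
      rw [pi_norm_le_iff_of_nonneg zero_le_one]
      intro k
      obtain ⟨g0, g1, g2⟩ := h2 i
      fin_cases k
      · simpa [toX] using g0
      · simpa [toX] using g1
      · simpa [toX] using g2
    · rw [pi_norm_le_iff_of_nonneg zero_le_one]
      intro p
      obtain ⟨g1, g2⟩ := h3 (p : ℕ) p.2.2
      rw [norm_prod_le_iff]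
      refine ⟨?_, ?_⟩
      · rw [pi_norm_le_iff_of_nonneg zero_le_one]
        intro j
        exact g1 j
      · rw [pi_norm_le_iff_of_nonneg zero_le_one]
        intro i
        rw [pi_norm_le_iff_of_nonneg zero_le_one]
        intro k
        exact g2 i k
  have htb : TotallyBounded (toX w a0 '' Y) :=
    (isCompact_closedBall (0 : XX ι n w) 1).totallyBounded.subset hsub
  obtain ⟨t, ht1, ht2, ht3⟩ := totallyBounded_iff_subset.mp htb _ (Metric.dist_mem_uniformity hρ)
  obtain ⟨u, hu1, hu2⟩ := Set.subset_image_iff.mp ht1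
  obtain ⟨T, hT1, hT2⟩ := Set.exists_subset_bijOn u (toX w a0)
  rw [hu2] at hT2
  refine ⟨T, hT2.finite_iff_finite.mpr ht2, ?_, ?_⟩
  · intro L hL
    have := hu1 (hT1 hL)
    rw [hY] at this
    exact this.1
  · intro L hL hR hP
    have hLY : L ∈ Y := by
      rw [hY]
      exact ⟨hL, hR, hP⟩
    have h1 := ht3 (Set.mem_image_of_mem _ hLY)
    rw [Set.mem_iUnion₂] at h1
    obtain ⟨y, hy, hLy⟩ := h1
    obtain ⟨N, hN, rfl⟩ := hT2.surjOn hy
    refine ⟨N, hN, ?_⟩
    have h2 : dist (toX w a0 L) (toX w a0 N) < ρ := hLy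
    rw [Prod.dist_eq, max_lt_iff, Prod.dist_eq, max_lt_iff, dist_pi_lt_iff hρ, dist_pi_lt_iff hρ,
      dist_pi_lt_iff hρ] at h2
    obtain ⟨⟨h3, h4⟩, h5⟩ := h2
    refine ⟨fun j => ?_, fun i => ?_, fun p hp hpw => ?_⟩
    · exact h3 j
    · have h6 := (dist_pi_lt_iff hρ).mp (h4 i)
      have g0 := h6 0
      have g1 := h6 1
      have g2 := h6 2
      rw [Real.dist_eq] at g0 g1 g2
      refine ⟨?_, ?_, ?_⟩
      · simpa [toX] using g0
      · simpa [toX] using g1
      · simpa [toX] using g2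
    · have h6 := h5 ⟨p, hp.out, hpw⟩
      rw [Prod.dist_eq, max_lt_iff, dist_pi_lt_iff hρ, dist_pi_lt_iff hρ] at h6
      refine ⟨fun j => ?_, fun i k => ?_⟩
      · have := h6.1 j
        rw [dist_eq_norm] at this
        exact this
      · have := (dist_pi_lt_iff hρ).mp (h6.2 i) k
        rw [dist_eq_norm] at this
        exact this

end TwWA
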