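import Pool.Agent.Lib.MP_e426f4_ag.WX.Defs
import Pool.Agent.Lib.MP_e426f4_ag.WX.SqP

/-!
# WX-Rep: finitely many types of twists

PROOF. `M = ∏_{p ≤ w prime} p ^ (K + 3)` (`M ≥ 1`), `A0` = the nonzero integers of absolute value at most `M`. Given `a`, let `a0` have the sign of `a`, `1 ≤ |a0| ≤ M`, `a0 ≡ a` modulo `M`
(for `a > 0`: `a0 = a % M`, or `M` if this is `0`; for `a < 0` the negative of the representative of `-a`). For `p ≤ w`: as `p ^ (K + 3)` divides `a - a0`,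
`‖a0‖ > p ^ (-(K + 1))` and `‖(a - a0) / a0‖ < p ^ (-2) ≤ ‖4‖`, so `1 + (a - a0) / a0 = t ^ 2` with `‖t‖ = 1` (`one_add_square` of `TW/PNear.lean`).
-/

set_option autoImplicit false

namespace TwWA

open TwHP

private lemma pick_pos (M : ℤ) (hM : 0 < M) (a : ℤ) :
    ∃ a0 : ℤ, 0 < a0 ∧ a0 ≤ M ∧ M ∣ a - a0 := by
  by_cases h : a % M = 0
  · exact ⟨M, hM, le_refl _, (Int.dvd_of_emod_eq_zero h).sub (dvd_refl M)⟩
  · refine ⟨a % M, lt_of_le_of_ne (Int.emod_nonneg a hM.ne') (Ne.symm h),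
      (Int.emod_lt_of_pos a hM).le, ?_⟩
    exact Int.dvd_self_sub_emod

private lemma pick (M : ℤ) (hM : 0 < M) (a : ℤ) (ha : a ≠ 0) :
    ∃ a0 : ℤ, a0 ≠ 0 ∧ -M ≤ a0 ∧ a0 ≤ M ∧ 0 < a0 * a ∧ M ∣ a - a0 := by
  rcases lt_or_gt_of_ne ha with h | h
  · obtain ⟨b, hb, hbM, hd⟩ := pick_pos M hM (-a)
    refine ⟨-b, by omega, by omega, by omega, ?_, ?_⟩
    · have : 0 < b * (-a) := mul_pos hb (by omega)
      nlinarith
    · have e : a - -b = -(-a - b) := by ring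
      rw [e]
      exact (dvd_neg).mpr hd
  · obtain ⟨b, hb, hbM, hd⟩ := pick_pos M hM a
    exact ⟨b, hb.ne', by omega, hbM, mul_pos hb h, hd⟩

private lemma four_norm (p : ℕ) [hp : Fact p.Prime] :
    (p : ℝ) ^ (-2 : ℤ) ≤ ‖(4 : ℚ_[p])‖ := by
  have h : ¬ ((p : ℤ) ^ 3 ∣ (4 : ℤ)) := by
    intro h
    have h1 := Int.le_of_dvd (by norm_num) h
    have h2 : (2 : ℤ) ≤ p := by exact_mod_cast hp.out.two_le
    nlinarith [sq_nonneg ((p : ℤ) - 2)]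
  have h3 : ¬ ‖((4 : ℤ) : ℚ_[p])‖ ≤ (p : ℝ) ^ (-(3 : ℕ) : ℤ) := by
    intro h4
    apply h
    have := (Padic.norm_int_le_pow_iff_dvd (p := p) (4 : ℤ) 3).mp h4
    exact_mod_cast this
  have h5 := not_le.mp h3
  have h6 : ((4 : ℤ) : ℚ_[p]) = 4 := by norm_num
  rw [h6] at h5
  have h7 := (Padic.norm_le_pow_iff_norm_lt_pow_add_one (4 : ℚ_[p]) (-3)).not.mp (by
    simpa using h3)
  have h8 := not_lt.mp h7
  simpa using h8

theorem reps (w K : ℕ) : ∃ A0 : Finset ℤ, (∀ a0 ∈ A0, a0 ≠ 0) ∧ ∀ a : ℤ, a ≠ 0 →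
    (∀ p : ℕ, p.Prime → p ≤ w → ¬ (p : ℤ) ^ (K + 1) ∣ a) → ∃ a0 ∈ A0, Equ w a0 a := by
  classical
  set M : ℤ := ∏ p ∈ (Finset.range (w + 1)).filter Nat.Prime, (p : ℤ) ^ (K + 3) with hMdef
  have hM : 0 < M := by
    rw [hMdef]
    apply Finset.prod_pos
    intro p hp
    have h : 0 < p := (Finset.mem_filter.mp hp).2.pos
    positivity
  refine ⟨(Finset.Icc (-M) M).filter (fun x => x ≠ 0), ?_, ?_⟩
  · intro a0 h
    exact (Finset.mem_filter.mp h).2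
  · intro a ha hp
    obtain ⟨a0, h0, h1, h2, hs, hd⟩ := pick M hM a ha
    refine ⟨a0, Finset.mem_filter.mpr ⟨Finset.mem_Icc.mpr ⟨h1, h2⟩, h0⟩, hs, ?_⟩
    intro p _ hpw
    have hpp : p.Prime := Fact.out
    have hp0 : (0 : ℝ) < p := by exact_mod_cast hpp.pos
    have hdp : (p : ℤ) ^ (K + 3) ∣ a - a0 := by
      refine dvd_trans ?_ hd
      rw [hMdef]
      exact Finset.dvd_prod_of_mem (fun p : ℕ => (p : ℤ) ^ (K + 3))
        (Finset.mem_filter.mpr ⟨Finset.mem_range.mpr (by omega), hpp⟩)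
    have hnd : ¬ (p : ℤ) ^ (K + 1) ∣ a0 := by
      intro h
      apply hp p hpp hpw
      have h3 : (p : ℤ) ^ (K + 1) ∣ a - a0 :=
        dvd_trans (pow_dvd_pow _ (by omega)) hdp
      have h4 := dvd_add h3 h
      simpa using h4
    have hn0 : (p : ℝ) ^ (-((K + 1 : ℕ) : ℤ)) < ‖(a0 : ℚ_[p])‖ := by
      rw [← not_le]
      intro h
      apply hnd
      have := (Padic.norm_int_le_pow_iff_dvd (p := p) a0 (K + 1)).mp h
      exact_mod_cast this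
    have hn1 : ‖((a - a0 : ℤ) : ℚ_[p])‖ ≤ (p : ℝ) ^ (-((K + 3 : ℕ) : ℤ)) := by
      apply (Padic.norm_int_le_pow_iff_dvd (p := p) (a - a0) (K + 3)).mpr
      exact_mod_cast hdp
    have ha0 : (a0 : ℚ_[p]) ≠ 0 := by exact_mod_cast h0
    have hδ : ‖(((a - a0 : ℤ) : ℚ_[p]) / a0)‖ < ‖(4 : ℚ_[p])‖ := by
      rw [norm_div, div_lt_iff₀ (norm_pos_iff.mpr ha0)]
      calc ‖((a - a0 : ℤ) : ℚ_[p])‖ ≤ (p : ℝ) ^ (-((K + 3 : ℕ) : ℤ)) := hn1
        _ = (p : ℝ) ^ (-2 : ℤ) * (p : ℝ) ^ (-((K + 1 : ℕ) : ℤ)) := by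
            rw [← zpow_add₀ hp0.ne']
            congr 1
            push_cast
            ring
        _ < (p : ℝ) ^ (-2 : ℤ) * ‖(a0 : ℚ_[p])‖ :=
            mul_lt_mul_of_pos_left hn0 (by positivity)
        _ ≤ ‖(4 : ℚ_[p])‖ * ‖(a0 : ℚ_[p])‖ :=
            mul_le_mul_of_nonneg_right (four_norm p) (norm_nonneg _)
    obtain ⟨t, ht, hte⟩ := one_add_square p _ hδ
    refine ⟨t, ?_, ?_⟩
    · have h4 : ‖(4 : ℚ_[p])‖ ≤ 1 := by
        have := Padic.norm_int_le_one (p := p) 4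
        simpa using this
      have hlt : ‖(((a - a0 : ℤ) : ℚ_[p]) / a0)‖ < 1 := lt_of_lt_of_le hδ h4
      have h5 : ‖t ^ 2‖ = 1 := by
        rw [hte]
        have h6 := Padic.add_eq_max_of_ne (p := p) (q := (1 : ℚ_[p]))
          (r := ((a - a0 : ℤ) : ℚ_[p]) / a0) (by
            rw [norm_one]
            exact hlt.ne')
        rw [h6, norm_one]
        exact max_eq_left hlt.le
      rw [norm_pow] at h5
      exact (pow_eq_one_iff_of_nonneg (norm_nonneg t) (by norm_num)).mp h5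
    · rw [hte]
      field_simp
      push_cast
      ring

end TwWA
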