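import Pool.Agent.Lib.MP_e426f4_ag.WX.One
import Pool.Agent.Lib.MP_e426f4_ag.WX.Net
import Pool.Agent.Lib.MP_e426f4_ag.WX.Rep

/-!
# WX-Fin: density of the rational points for almost all twists

PROOF. `reps w K` gives `A0`; for `a0 ∈ A0` let `T a0` be the finite set of `net F w a0 (ρ / 2)`. The set of the statement is contained in the finite union over `a0 ∈ A0`, `N ∈ T a0` of the sets
`{a | ELS F a ∧ Equ w a0 a ∧ ¬ Near F w a0 N (ρ / 2) a}` of `one`; finite unions of sets of `I` are in `I` (`Ideal.union`, `Ideal.empty`, induction on finite sets), and `Ideal.mono`.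
So let `a` be such that `Near F w a0 N (ρ/2) a` for its `a0` (`reps`) and all `N ∈ T a0`; show `Dense F w ρ a`. Let `L` be local points of the twist by `a`, bounded. Choose `t p` with `‖t p‖ = 1`, `a = a0 (t p) ^ 2` (`Equ`; anything for `p > w`).
Transport: `L'` has the base points of `L`, real conic points `(√(|a|/|a0|) x, y, z)`, `p`-adic `(t p * x, y, z)`: `L'.Of F w a0` and bounded for `a0` (`√|a0| √(|a|/|a0|) = √|a|`; `‖t p‖ = 1`).
`net` gives `N ∈ T a0` with `Close w a0 (ρ/2) L' N`; `Near` for this `N` and `t` gives a rational point `(s, v)`; triangle inequality: real first coordinate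
`|√|a| v i 0 - √|a| L.vR i 0| ≤ |√|a| v i 0 - √|a0| N.vR i 0| + |√|a0| N.vR i 0 - √|a0| L'.vR i 0|`, `√|a0| L'.vR i 0 = √|a| L.vR i 0`; `p`-adic first coordinate: `L.vP p i 0 = L'.vP p i 0 / t p`,
`‖N.vP p i 0 / t p - L'.vP p i 0 / t p‖ = ‖N.vP p i 0 - L'.vP p i 0‖`.
-/

set_option autoImplicit false

namespace TwWA

open TwHP

variable {ι : Type} [Fintype ι] {n : ℕ}

private theorem fin_union {α : Type*} {I : Set ℤ → Prop} (hI : Ideal I) {T : Set α}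
    (hT : T.Finite) (f : α → Set ℤ) (h : ∀ x ∈ T, I (f x)) : I (⋃ x ∈ T, f x) := by
  induction T, hT using Set.Finite.induction_on with
  | empty =>
    rw [Set.biUnion_empty]
    exact hI.empty
  | insert ha hs ih =>
    rw [Set.biUnion_insert]
    exact hI.union _ _ (h _ (Set.mem_insert _ _)) (ih fun x hx => h x (Set.mem_insert_of_mem _ hx))

/-- a vector with the first coordinate multiplied by `c` -/
private def fin_sc {K : Type} [Field K] (c : K) (v : Fin 3 → K) : Fin 3 → K :=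
  fun k => if k = 0 then c * v 0 else v k

private theorem fin_sc0 {K : Type} [Field K] (c : K) (v : Fin 3 → K) : fin_sc c v 0 = c * v 0 := rfl

private theorem fin_sc1 {K : Type} [Field K] (c : K) (v : Fin 3 → K) : fin_sc c v 1 = v 1 := rfl

private theorem fin_sc2 {K : Type} [Field K] (c : K) (v : Fin 3 → K) : fin_sc c v 2 = v 2 := rfl

private theorem fin_pt (F : ι → Bool → MvPolynomial (Fin (n + 1)) ℤ) {K : Type} [Field K]
    (a a0 : ℤ) (c : K) (hc : c ≠ 0) (h : (a0 : K) * c ^ 2 = a) (s : Fin (n + 1) → K)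
    (v : ι → Fin 3 → K) (hv : IsPt F a s v) : IsPt F a0 s (fun i => fin_sc c (v i)) := by
  refine ⟨hv.1, fun i => ⟨fun h0 => (hv.2 i).1 ?_, ?_⟩⟩
  · have e0 : fin_sc c (v i) 0 = 0 := congrFun h0 0
    have e1 : fin_sc c (v i) 1 = 0 := congrFun h0 1
    have e2 : fin_sc c (v i) 2 = 0 := congrFun h0 2
    rw [fin_sc0] at e0
    rw [fin_sc1] at e1
    rw [fin_sc2] at e2
    have e0' : v i 0 = 0 := (mul_eq_zero.mp e0).resolve_left hc
    funext k
    fin_cases k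
    · exact e0'
    · exact e1
    · exact e2
  · have h2 := (hv.2 i).2
    show (a0 : K) * fin_sc c (v i) 0 ^ 2 = _ * fin_sc c (v i) 1 ^ 2 + _ * fin_sc c (v i) 2 ^ 2
    rw [fin_sc0, fin_sc1, fin_sc2, ← h2, ← h]
    ring

private theorem fin_real {a a0 : ℤ} (h : 0 < a0 * a) :
    (a0 : ℝ) * (√(|(a : ℝ)| / |(a0 : ℝ)|)) ^ 2 = a := by
  have h0 : (0 : ℝ) ≤ |(a : ℝ)| / |(a0 : ℝ)| := by positivity
  rw [Real.sq_sqrt h0]
  rcases pos_and_pos_or_neg_and_neg_of_mul_pos h with ⟨h1, h2⟩ | ⟨h1, h2⟩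
  · have h1' : (0 : ℝ) < a0 := by exact_mod_cast h1
    have h2' : (0 : ℝ) < a := by exact_mod_cast h2
    rw [abs_of_pos h1', abs_of_pos h2']
    field_simp
  · have h1' : (a0 : ℝ) < 0 := by exact_mod_cast h1
    have h2' : (a : ℝ) < 0 := by exact_mod_cast h2
    rw [abs_of_neg h1', abs_of_neg h2', neg_div_neg_eq]
    have h3 : (a0 : ℝ) ≠ 0 := h1'.ne
    field_simp

private theorem fin_sqrt {a a0 : ℤ} (h : a0 ≠ 0) :
    √|(a0 : ℝ)| * √(|(a : ℝ)| / |(a0 : ℝ)|) = √|(a : ℝ)| := by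
  have h1 : (0 : ℝ) < |(a0 : ℝ)| := abs_pos.mpr (by exact_mod_cast h)
  rw [← Real.sqrt_mul h1.le]
  congr 1
  field_simp

theorem fin_dense (F : ι → Bool → MvPolynomial (Fin (n + 1)) ℤ) (d : ι → Bool → ℕ) (hF : Fam F d)
    (I : Set ℤ → Prop) (hI : Ideal I)
    (hbase : ∀ (C : Cones n) (w : ℕ), I {a | ELSIn C F a ∧ ¬ SolQ C w F a}) (w K : ℕ) (ρ : ℝ)
    (hρ : 0 < ρ) :
    I {a | ELS F a ∧ (∀ p : ℕ, p.Prime → p ≤ w → ¬ (p : ℤ) ^ (K + 1) ∣ a) ∧
      ¬ Dense F w ρ a} := by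
  classical
  obtain ⟨A0, hA0, hrep⟩ := reps w K
  choose T hTfin hTof hTnet using fun a0 : ℤ => net F w a0 (ρ / 2) (half_pos hρ)
  have hU : I (⋃ a0 ∈ (A0 : Set ℤ), ⋃ N ∈ T a0,
      {a | ELS F a ∧ Equ w a0 a ∧ ¬ Near F w a0 N (ρ / 2) a}) := by
    refine fin_union hI A0.finite_toSet _ fun a0 ha0 => ?_
    refine fin_union hI (hTfin a0) _ fun N hN => ?_
    exact one F d hF I hI hbase w a0 (hA0 a0 ha0) N (hTof a0 N hN) (ρ / 2) (half_pos hρ)
  refine hI.mono _ _ ?_ hU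
  rintro a ⟨hels, hpow, hnd⟩
  by_contra hnot
  apply hnd
  obtain ⟨a0, ha0, hequ⟩ := hrep a hels.1 hpow
  have hnear : ∀ N ∈ T a0, Near F w a0 N (ρ / 2) a := by
    intro N hN
    by_contra hc
    exact hnot (Set.mem_biUnion (Finset.mem_coe.mpr ha0) (Set.mem_biUnion hN ⟨hels, hequ, hc⟩))
  intro L hL hBR hBP
  have ha0' : a0 ≠ 0 := hA0 a0 ha0
  have hpos := hequ.1
  obtain ⟨t, ht⟩ : ∃ t : ∀ (p : ℕ) [Fact p.Prime], ℚ_[p], ∀ (p : ℕ) [Fact p.Prime], p ≤ w →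
      ‖t p‖ = 1 ∧ (a : ℚ_[p]) = a0 * t p ^ 2 := by
    refine ⟨fun p _ => if h : p ≤ w then (hequ.2 p h).choose else 1, fun p _ h => ?_⟩
    simp only [dif_pos h]
    exact (hequ.2 p h).choose_spec
  have ht0 : ∀ (p : ℕ) [Fact p.Prime], p ≤ w → t p ≠ 0 := by
    intro p _ hp h0
    have h1 := (ht p hp).1
    rw [h0, norm_zero] at h1
    exact zero_ne_one h1
  have hc0 : √(|(a : ℝ)| / |(a0 : ℝ)|) ≠ 0 := by
    have h1 : (0 : ℝ) < |(a0 : ℝ)| := abs_pos.mpr (by exact_mod_cast ha0')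
    have h2 : (0 : ℝ) < |(a : ℝ)| := abs_pos.mpr (by exact_mod_cast hels.1)
    exact (Real.sqrt_pos.mpr (div_pos h2 h1)).ne'
  obtain ⟨L', hL'⟩ : ∃ L' : Loc ι n, L' = ⟨L.sR, fun i => fin_sc (√(|(a : ℝ)| / |(a0 : ℝ)|)) (L.vR i),
      fun p _ => L.sP p, fun p _ i => fin_sc (t p) (L.vP p i)⟩ := ⟨_, rfl⟩
  have hOf : L'.Of F w a0 := by
    rw [hL']
    refine ⟨fin_pt F a a0 _ hc0 (fin_real hpos) _ _ hL.1, fun p _ hp => ?_⟩
    exact fin_pt F a a0 (t p) (ht0 p hp) (ht p hp).2.symm _ _ (hL.2 p hp)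
  have hscale : ∀ x : ℝ, √|(a0 : ℝ)| * (√(|(a : ℝ)| / |(a0 : ℝ)|) * x) = √|(a : ℝ)| * x := by
    intro x
    rw [← mul_assoc, fin_sqrt ha0']
  have hB1 : BdR a0 L'.sR L'.vR := by
    rw [hL']
    refine ⟨hBR.1, fun i => ⟨?_, ?_, ?_⟩⟩
    · show |√|(a0 : ℝ)| * fin_sc _ (L.vR i) 0| ≤ 1
      rw [fin_sc0, hscale]
      exact (hBR.2 i).1
    · exact (hBR.2 i).2.1
    · exact (hBR.2 i).2.2
  have hB2 : ∀ (p : ℕ) [Fact p.Prime], p ≤ w → BdP (L'.sP p) (L'.vP p) := by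
    intro p _ hp
    rw [hL']
    refine ⟨(hBP p hp).1, fun i k => ?_⟩
    show ‖fin_sc (t p) (L.vP p i) k‖ ≤ 1
    fin_cases k
    · show ‖fin_sc (t p) (L.vP p i) 0‖ ≤ 1
      rw [fin_sc0, norm_mul, (ht p hp).1, one_mul]
      exact (hBP p hp).2 i 0
    · exact (hBP p hp).2 i 1
    · exact (hBP p hp).2 i 2
  obtain ⟨N, hN, hcl⟩ := hTnet a0 L' hOf hB1 hB2
  obtain ⟨s, v, hpt, hs, hv, hp⟩ := hnear N hN t ht
  refine ⟨s, v, hpt, fun j => ?_, fun i => ⟨?_, ?_, ?_⟩, fun p _ hpw => ⟨fun j => ?_, fun i k => ?_⟩⟩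
  · have h1 := hs j
    have h2 : |L.sR j - N.sR j| < ρ / 2 := by
      have := hcl.1 j
      rw [hL'] at this
      exact this
    rw [abs_lt] at h1 h2 ⊢
    constructor <;> linarith [h1.1, h1.2, h2.1, h2.2]
  · have h1 := (hv i).1
    have h2 := (hcl.2.1 i).1
    have h3 : √|(a0 : ℝ)| * L'.vR i 0 = √|(a : ℝ)| * L.vR i 0 := by
      rw [hL']
      show √|(a0 : ℝ)| * fin_sc _ (L.vR i) 0 = _
      rw [fin_sc0, hscale]
    rw [h3] at h2
    rw [abs_lt] at h1 h2 ⊢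
    constructor <;> linarith [h1.1, h1.2, h2.1, h2.2]
  · have h1 := (hv i).2.1
    have h2 : |L.vR i 1 - N.vR i 1| < ρ / 2 := by
      have := (hcl.2.1 i).2.1
      rw [hL'] at this
      exact this
    rw [abs_lt] at h1 h2 ⊢
    constructor <;> linarith [h1.1, h1.2, h2.1, h2.2]
  · have h1 := (hv i).2.2
    have h2 : |L.vR i 2 - N.vR i 2| < ρ / 2 := by
      have := (hcl.2.1 i).2.2
      rw [hL'] at this
      exact this
    rw [abs_lt] at h1 h2 ⊢
    constructor <;> linarith [h1.1, h1.2, h2.1, h2.2]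
  · have h1 := (hp p hpw).1 j
    have h2 : ‖L.sP p j - N.sP p j‖ < ρ / 2 := by
      have := (hcl.2.2 p hpw).1 j
      rw [hL'] at this
      exact this
    rw [norm_sub_rev] at h2
    calc ‖(s j : ℚ_[p]) - L.sP p j‖
        = ‖((s j : ℚ_[p]) - N.sP p j) + (N.sP p j - L.sP p j)‖ := by congr 1; ring
      _ ≤ ‖(s j : ℚ_[p]) - N.sP p j‖ + ‖N.sP p j - L.sP p j‖ := norm_add_le _ _
      _ < ρ := by linarith
  · obtain ⟨g0, g1, g2⟩ := (hp p hpw).2 i
    have key : ∀ x y z : ℚ_[p], ‖x - y‖ < ρ / 2 → ‖z - y‖ < ρ / 2 → ‖x - z‖ < ρ := by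
      intro x y z h1 h2
      rw [norm_sub_rev] at h2
      calc ‖x - z‖ = ‖(x - y) + (y - z)‖ := by congr 1; ring
        _ ≤ ‖x - y‖ + ‖y - z‖ := norm_add_le _ _
        _ < ρ := by linarith
    have hcl' := (hcl.2.2 p hpw).2 i
    fin_cases k
    · show ‖(v i 0 : ℚ_[p]) - L.vP p i 0‖ < ρ
      refine key _ _ _ g0 ?_
      have h2 : ‖t p * L.vP p i 0 - N.vP p i 0‖ < ρ / 2 := by
        have := hcl' 0
        rw [hL'] at this
        exact this
      have h3 : L.vP p i 0 - N.vP p i 0 / t p = (t p * L.vP p i 0 - N.vP p i 0) / t p := by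
        have := ht0 p hpw
        field_simp
      rw [h3, norm_div, (ht p hpw).1, div_one]
      exact h2
    · show ‖(v i 1 : ℚ_[p]) - L.vP p i 1‖ < ρ
      refine key _ _ _ g1 ?_
      have := hcl' 1
      rw [hL'] at this
      exact this
    · show ‖(v i 2 : ℚ_[p]) - L.vP p i 2‖ < ρ
      refine key _ _ _ g2 ?_
      have := hcl' 2
      rw [hL'] at this
      exact this

end TwWA
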