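import Pool.Agent.Lib.MP_e426f4_ag.WX.Glue
import Pool.Agent.Lib.MP_e426f4_ag.TWS.FsA

/-!
# WX-FsA: copy of `TWS/FsA.lean` for `HasPtX`
-/

set_option autoImplicit false
set_option linter.unusedSectionVars false

namespace TwWA

open Finset Polynomial TwHP TwHP.CD

variable {ι : Type} [Fintype ι] [DecidableEq ι]

open Classical in
theorem fsAX [Nonempty ι] (c : CD ι) {D : ℕ} (hc : c.Valid D) (N b : ℕ) (T : Finset ℕ) (m : ℕ)
    (hm : 1 ≤ m) (hb : Squarefree b) (hbQ : b.Coprime c.Q0)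
    (hmbT : ∀ q ∈ m.primeFactors, q ∣ b ∨ q ∈ T) (Pr : Finset ℕ)
    (hPr : ∀ p ∈ Pr, p.Prime ∧ c.w < p ∧ ¬ p ∣ m ∧ m * p ≡ c.u [MOD W8 c.w] ∧
      ∀ n ∈ c.NN N b T 1, ¬ (p : ℤ) ∣ c.vt (c.x b n))
    (V : ℕ) (hV : ∀ n ∈ c.NN N b T 1, (c.vt (c.x b n)).natAbs ≤ V) (R : ℝ) (hR0 : 0 ≤ R)
    (hR : ∀ E E' : ℕ, Squarefree E → Squarefree E' → E ≠ E' → E.Coprime c.Q0 → E'.Coprime c.Q0 →
      E ≤ V → E' ≤ V → |∑ p ∈ Pr, (jacobiSym (p : ℤ) (E * E') : ℝ)| ≤ R)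
    (G : ℝ) (hG : ∀ 𝓔 : Finset ℕ, (∀ E ∈ 𝓔, Squarefree E ∧ E.Coprime (c.Q0 * b) ∧ 1 < E) →
      ∑ E ∈ 𝓔, ((c.NN N b T E).card : ℝ) ^ 2 ≤ G) :
    ((Pr.filter (fun p => ¬ HasPtX c (c.al * ((m * p : ℕ) : ℤ)))).card : ℝ) *
        ((c.NN N b T 1).card : ℝ) ^ 2 ≤
      Pr.card * G +
        (∑ n ∈ c.NN N b T 1, (2 : ℝ) ^ (c.vt (c.x b n)).natAbs.primeFactors.card) ^ 2 * R := by
  set A := c.NN N b T 1 with hA
  set O : ℕ → Finset ℕ := fun n => Oset c (c.x b n) with hO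
  have hAmem : ∀ n ∈ A, n ∈ Icc 1 N ∧ ∀ q ∈ T, ∀ i, jacobiSym (c.vc i (c.x b n)) q = 1 := by
    intro n hn
    rw [hA, CD.NN, mem_filter] at hn
    exact ⟨hn.1, hn.2.1⟩
  -- the primes of `b` and of `T` do not divide `vt`
  have hbvt : ∀ n : ℕ, ∀ q : ℕ, q.Prime → q ∣ b → ¬ (q : ℤ) ∣ c.vt (c.x b n) := fun n q hq hqb =>
    not_dvd_vt c _ q hq (fun i => x_jac hc hb hbQ n hq hqb i)
  have hmJ : ∀ n ∈ A, ∀ q ∈ m.primeFactors, ∀ i, jacobiSym (c.vc i (c.x b n)) q = 1 := by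
    intro n hn q hq i
    rcases hmbT q hq with h | h
    · exact x_jac hc hb hbQ n (Nat.prime_of_mem_primeFactors hq) h i
    · exact (hAmem n hn).2 q h i
  have hmvt : ∀ n ∈ A, ∀ q : ℕ, q.Prime → q ∣ m → ¬ (q : ℤ) ∣ c.vt (c.x b n) := fun n hn q hq hqm =>
    not_dvd_vt c _ q hq (hmJ n hn q (Nat.mem_primeFactors.2 ⟨hq, hqm, by omega⟩))
  -- properties of the primes in `O n`
  have hOp : ∀ n ∈ A, ∀ q ∈ O n, q.Prime ∧ c.w < q ∧ (q : ℤ) ∣ c.vt (c.x b n) ∧ ¬ q ∣ c.Q0 ∧ ¬ q ∣ b ∧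
      ¬ q ∣ m := by
    intro n hn q hq
    obtain ⟨h1, h2, h3⟩ := Oset_dvd hq
    refine ⟨h1, h2, h3, ?_, ?_, ?_⟩
    · intro h; exact hc.bad q h1 h2 h _ (x_modEq c b n) h3
    · intro h; exact hbvt n q h1 h h3
    · intro h; exact hmvt n hn q h1 h h3
  -- `∏ O n`
  have hOsq : ∀ n ∈ A, Squarefree (∏ q ∈ O n, q) := fun n hn =>
    squarefree_prod_primes _ (fun q hq => (hOp n hn q hq).1)
  have hOdvd : ∀ n ∈ A, (∏ q ∈ O n, q) ∣ (c.vt (c.x b n)).natAbs := fun n hn =>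
    prod_primes_dvd_nat _ (fun q hq => (hOp n hn q hq).1) _
      (fun q hq => Int.natCast_dvd.1 (hOp n hn q hq).2.2.1)
  -- divisors of `∏ O n`
  have hEprime : ∀ n ∈ A, ∀ E : ℕ, E ∣ ∏ q ∈ O n, q → ∀ p : ℕ, p.Prime → p ∣ E → p ∈ O n := by
    intro n hn E hE p hp hpE
    have h1 : p ∣ ∏ q ∈ O n, q := hpE.trans hE
    obtain ⟨q, hq, hpq⟩ := (Prime.dvd_finsetProd_iff hp.prime _).1 h1
    rw [(Nat.prime_dvd_prime_iff_eq hp (hOp n hn q hq).1).1 hpq]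
    exact hq
  set Es : Finset ℕ := (A.biUnion (fun n => (∏ q ∈ O n, q).divisors)).erase 1 with hEsdef
  have hEsp : ∀ E ∈ Es, Squarefree E ∧ E.Coprime (c.Q0 * b) ∧ 1 < E ∧ E ≤ V := by
    intro E hE
    rw [hEsdef, mem_erase, mem_biUnion] at hE
    obtain ⟨hE1, n, hn, hEn⟩ := hE
    have hdvd := Nat.dvd_of_mem_divisors hEn
    have hsq : Squarefree E := (hOsq n hn).squarefree_of_dvd hdvd
    refine ⟨hsq, ?_, ?_, ?_⟩
    · refine Nat.Coprime.symm (Nat.coprime_of_dvd fun p hp h1 h2 => ?_)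
      have h3 := hOp n hn p (hEprime n hn E hdvd p hp h2)
      rcases (Nat.Prime.dvd_mul hp).1 h1 with h | h
      · exact h3.2.2.2.1 h
      · exact h3.2.2.2.2.1 h
    · have : E ≠ 0 := hsq.ne_zero
      omega
    · refine le_trans (Nat.le_of_dvd ?_ (hdvd.trans (hOdvd n hn))) (hV n hn)
      exact Int.natAbs_pos.2 (vt_x_ne hc b n)
  -- apply the abstract variance argument
  have key := var_abs A O (fun n hn q hq => (hOp n hn q hq).1) (fun n q => psi c m (c.x b n) q)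
    (by
      intro n hn q hq
      obtain ⟨i, β, h⟩ := mem_Oset.1 hq
      obtain ⟨h1, h2, h3⟩ := mem_oddL h
      have hOq := hOp n hn q hq
      change psi c m (c.x b n) q = 1 ∨ psi c m (c.x b n) q = -1
      rw [psi_eq c hc m _ q (x_modEq c b n) i β h]
      refine jac_pm q h1 _ ?_
      have hqp : Prime (q : ℤ) := Nat.prime_iff_prime_int.1 h1
      intro hdv
      rcases hqp.dvd_or_dvd hdv with h4 | h4
      · rcases hqp.dvd_or_dvd h4 with h5 | h5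
        · exact absurd (hc.al_primes q h1 h5) (by omega)
        · exact hOq.2.2.2.2.2 (by exact_mod_cast h5)
      · have := (cop c D hc _ (x_modEq c b n) q h1 h2 _ _ _ _ h3 h4).2
        cases β <;> simp at this)
    Pr
    (by
      intro p hp n hn q hq
      obtain ⟨hp1, _, _, _, hp5⟩ := hPr p hp
      have hOq := hOp n hn q hq
      have hne : ¬ (q : ℤ) ∣ (p : ℤ) := by
        intro h
        have h1 : q ∣ p := by exact_mod_cast h
        have h2 := (Nat.prime_dvd_prime_iff_eq hOq.1 hp1).1 h1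
        exact hp5 n hn (h2 ▸ hOq.2.2.1)
      rcases jac_pm q hOq.1 _ hne with h | h <;> rw [h] <;> norm_num)
    Es
    (by
      intro n hn E hE hE1
      rw [hEsdef, mem_erase, mem_biUnion]
      exact ⟨hE1, n, hn, Nat.mem_divisors.2 ⟨hE, (hOsq n hn).ne_zero⟩⟩)
    R
    (by
      intro E hE E' hE' hne
      obtain ⟨a1, a2, _, a4⟩ := hEsp E hE
      obtain ⟨b1, b2, _, b4⟩ := hEsp E' hE'
      exact hR E E' a1 b1 hne (Nat.Coprime.coprime_mul_right_right a2)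
        (Nat.Coprime.coprime_mul_right_right b2) a4 b4)
    hR0
  -- compare the left hand sides
  have hLHS : ((Pr.filter (fun p => ¬ HasPtX c (c.al * ((m * p : ℕ) : ℤ)))).card : ℝ) ≤
      ((Pr.filter fun p : ℕ => ∀ n ∈ A, ∃ q ∈ O n, psi c m (c.x b n) q * jacobiSym (p : ℤ) q ≠ 1).card : ℝ) := by
    have : (Pr.filter (fun p => ¬ HasPtX c (c.al * ((m * p : ℕ) : ℤ)))).card ≤
        (Pr.filter fun p : ℕ => ∀ n ∈ A, ∃ q ∈ O n, psi c m (c.x b n) q * jacobiSym (p : ℤ) q ≠ 1).card := by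
      refine Finset.card_le_card fun p hp => ?_
      rw [mem_filter] at hp ⊢
      refine ⟨hp.1, fun n hn => ?_⟩
      by_contra hcon
      push Not at hcon
      apply hp.2
      obtain ⟨hp1, hp2, hp3, hp4, hp5⟩ := hPr p hp.1
      refine glueX c D hc ((by norm_num : 2 ≤ 10000).trans (w_big hc)) m p (c.x b n) hp1 hp2 hp3 hm hp4
        (x_modEq c b n) (x_ge c b n) (hp5 n hn) (hmJ n hn) ?_
      intro q hq hwq i β hodd
      have hmem : q ∈ oddL c.w (c.v i β (c.x b n)) := by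
        rw [oddL, mem_filter]
        refine ⟨?_, hwq, hodd⟩
        rw [← Nat.support_factorization, Finsupp.mem_support_iff]
        intro h0
        rw [h0] at hodd
        exact absurd hodd (by decide)
      have hqO : q ∈ O n := mem_Oset.2 ⟨i, β, hmem⟩
      have h1 := hcon q hqO
      rw [psi_eq c hc m _ q (x_modEq c b n) i β hmem, ← jacobiSym.mul_left] at h1
      rw [← h1]
      congr 1
      push_cast
      ring
    exact_mod_cast this
  have hG' : ∑ E ∈ Es, ((A.filter fun n => E ∣ ∏ q ∈ O n, q).card : ℝ) ^ 2 ≤ G := by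
    refine le_trans (Finset.sum_le_sum fun E hE => ?_) (hG Es fun E hE =>
      ⟨(hEsp E hE).1, (hEsp E hE).2.1, (hEsp E hE).2.2.1⟩)
    refine pow_le_pow_left₀ (Nat.cast_nonneg _) ?_ 2
    have : (A.filter fun n => E ∣ ∏ q ∈ O n, q).card ≤ (c.NN N b T E).card := by
      refine Finset.card_le_card fun n hn => ?_
      rw [mem_filter] at hn
      rw [CD.NN, mem_filter]
      refine ⟨(hAmem n hn.1).1, (hAmem n hn.1).2, ?_⟩
      exact Int.natCast_dvd.2 (hn.2.trans (hOdvd n hn.1))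
    exact_mod_cast this
  have hS : (∑ n ∈ A, (2 : ℝ) ^ (O n).card) ^ 2 ≤
      (∑ n ∈ A, (2 : ℝ) ^ (c.vt (c.x b n)).natAbs.primeFactors.card) ^ 2 := by
    refine pow_le_pow_left₀ (Finset.sum_nonneg fun _ _ => by positivity) ?_ 2
    refine Finset.sum_le_sum fun n hn => ?_
    refine pow_le_pow_right₀ (by norm_num) (Finset.card_le_card fun q hq => ?_)
    have h := hOp n hn q hq
    exact Nat.mem_primeFactors.2 ⟨h.1, Int.natCast_dvd.1 h.2.2.1, Int.natAbs_ne_zero.2 (vt_x_ne hc b n)⟩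
  calc ((Pr.filter (fun p => ¬ HasPtX c (c.al * ((m * p : ℕ) : ℤ)))).card : ℝ) * (A.card : ℝ) ^ 2
      ≤ ((Pr.filter fun p : ℕ => ∀ n ∈ A, ∃ q ∈ O n,
          psi c m (c.x b n) q * jacobiSym (p : ℤ) q ≠ 1).card : ℝ) * (A.card : ℝ) ^ 2 :=
        mul_le_mul_of_nonneg_right hLHS (by positivity)
    _ ≤ Pr.card * ∑ E ∈ Es, ((A.filter fun n => E ∣ ∏ q ∈ O n, q).card : ℝ) ^ 2 +
        (∑ n ∈ A, (2 : ℝ) ^ (O n).card) ^ 2 * R := key
    _ ≤ Pr.card * G +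
        (∑ n ∈ A, (2 : ℝ) ^ (c.vt (c.x b n)).natAbs.primeFactors.card) ^ 2 * R := by
        refine add_le_add (mul_le_mul_of_nonneg_left hG' (Nat.cast_nonneg _)) ?_
        exact mul_le_mul_of_nonneg_right hS hR0

end TwWA
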