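import Pool.Agent.Lib.MP_e426f4_ag.WX.Defs
import Pool.Agent.Lib.MP_e426f4_ag.TW.Glue

/-!
# WX-Glue: from the conditions to a rational point with a base point in the class (copy of `TW/Glue.lean`)

Fix `i`, `A = al * (m p)`, `B = - v i false x`, `C = - v i true x`; nonzero.  Large primes `q`:
`q ∣ m` does not divide `vt x` (`J(vc i x|q) = 1` for all `i`, so `q` divides no `vc i x`); `p` neither; the two
values have no common large prime (`cop`).  So `CopW` holds for all three pairs; `LocW` is `hc.loc`.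
`pf`: `Phi = 1`; `-(B C) = vc i x`.  `J(-(A C)|rough w B) = ∏_{q ∣ B, q > w} J(A * v i true x|q)^{v_q(B)} = 1`
by `OK` (odd valuations) and squares (even valuations; the symbol is not 0); same for `C`.
So `J(vc i x|rough w A) = 1`, and `rough w A = m p` (all primes of `m p` are `> w` as `m p ≡ u` mod `W8 w` is
prime to `W8 w`; `al` is `w`-smooth); with the hypothesis on `m`: `J(vc i x|p) = 1`.
Local solubility at every prime: `p' ≤ w`: `loc`; `q > w` dividing `m p`: `lq_one` (with `-(B C) = vc i x`); `q > w`,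
`q ∤ m p`: if both valuations of `B, C` are even `lq_even`; if `v_q(B)` is odd: `J(-(A C)|q) = 1`, `lq_one` after
permutation; same for `C`.  `hm`.
-/

set_option autoImplicit false

namespace TwWA

open TwHP TwHP.CD

private lemma jac_prod (X : ℤ) (S : Finset ℕ) (f : ℕ → ℕ) (hS : ∀ q ∈ S, q ≠ 0) :
    jacobiSym X (∏ q ∈ S, q ^ f q) = ∏ q ∈ S, (jacobiSym X q) ^ f q := by
  classical
  induction S using Finset.induction_on with
  | empty => simp
  | insert a s ha ih =>
    rw [Finset.prod_insert ha, Finset.prod_insert ha]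
    have h1 : a ^ f a ≠ 0 := pow_ne_zero _ (hS a (Finset.mem_insert_self a s))
    have h2 : (∏ q ∈ s, q ^ f q) ≠ 0 :=
      Finset.prod_ne_zero_iff.2 fun q hq => pow_ne_zero _ (hS q (Finset.mem_insert_of_mem hq))
    rw [jacobiSym.mul_right' X h1 h2, jacobiSym.pow_right,
      ih fun q hq => hS q (Finset.mem_insert_of_mem hq)]

private lemma jac_even (X : ℤ) (q : ℕ) (hq : q.Prime) (h : ¬ (q : ℤ) ∣ X) (e : ℕ) (he : Even e) :
    (jacobiSym X q) ^ e = 1 := by
  obtain ⟨r, hr⟩ := he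
  have hg : X.gcd q = 1 := by
    have h1 : IsCoprime X (q : ℤ) := by
      rw [isCoprime_comm]
      exact (Nat.prime_iff_prime_int.1 hq).coprime_iff_not_dvd.2 h
    exact Int.isCoprime_iff_gcd_eq_one.1 h1
  rw [hr, ← two_mul, pow_mul, jacobiSym.sq_one hg, one_pow]

private lemma jac_rough (w : ℕ) (X B : ℤ)
    (h1 : ∀ q : ℕ, q.Prime → w < q → Odd (B.natAbs.factorization q) → jacobiSym X q = 1)
    (h2 : ∀ q : ℕ, q.Prime → w < q → (q : ℤ) ∣ B → ¬ (q : ℤ) ∣ X) :
    jacobiSym X (rough w B) = 1 := by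
  unfold rough
  rw [jac_prod X _ (fun q => B.natAbs.factorization q) fun q hq =>
    (Nat.prime_of_mem_primeFactors (Finset.mem_filter.1 hq).1).ne_zero]
  refine Finset.prod_eq_one fun q hq => ?_
  obtain ⟨hq1, hq2⟩ := Finset.mem_filter.1 hq
  have hqp := Nat.prime_of_mem_primeFactors hq1
  have hqB : (q : ℤ) ∣ B := Int.natCast_dvd.2 (Nat.dvd_of_mem_primeFactors hq1)
  rcases Nat.even_or_odd (B.natAbs.factorization q) with he | ho
  · exact jac_even X q hqp (h2 q hqp hq2 hqB) _ he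
  · rw [h1 q hqp hq2 ho, one_pow]

private lemma not_dvd_of_jac (X : ℤ) (q : ℕ) (hq : q.Prime) (h : jacobiSym X q = 1) :
    ¬ (q : ℤ) ∣ X := by
  intro hd
  haveI : NeZero q := ⟨hq.ne_zero⟩
  have h0 : jacobiSym X q = 0 := by
    rw [jacobiSym.eq_zero_iff_not_coprime]
    intro hg
    have h1 : (q : ℤ) ∣ (X.gcd q : ℤ) := Int.dvd_coe_gcd hd dvd_rfl
    rw [hg] at h1
    have h2 : q ∣ 1 := by exact_mod_cast h1
    exact hq.one_lt.ne' (Nat.dvd_one.1 h2)
  rw [h0] at h
  exact absurd h (by norm_num)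

variable {ι : Type} [Fintype ι] [DecidableEq ι]

theorem glueX (c : CD ι) (D : ℕ) (hc : c.Valid D) (hw2 : 2 ≤ c.w) (m p x : ℕ)
    (hp : p.Prime) (hwp : c.w < p) (hpm : ¬ p ∣ m) (hm : 0 < m)
    (hu : m * p ≡ c.u [MOD W8 c.w]) (hx : x ≡ c.x0 [MOD c.Q0]) (hx0 : c.x0 ≤ x)
    (hpx : ¬ (p : ℤ) ∣ c.vt x)
    (hmx : ∀ q ∈ m.primeFactors, ∀ i, jacobiSym (c.vc i x) q = 1)
    (hok : c.OK (c.al * ((m * p : ℕ) : ℤ)) x) : HasPtX c (c.al * ((m * p : ℕ) : ℤ)) := by
  classical
  have hmp : 0 < m * p := Nat.mul_pos hm hp.pos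
  have hvt : c.vt x ≠ 0 := hc.ne x hx0 hx
  have hv : ∀ i b, c.v i b x ≠ 0 := fun i b h0 => hvt (by
    have := v_dvd_vt c i b x
    rw [h0] at this
    exact zero_dvd_iff.1 this)
  -- primes of `m p` are large
  have hmpcop : (m * p).Coprime (W8 c.w) := by
    have h1 := hu.gcd_eq
    have h2 : Nat.gcd c.u (W8 c.w) = 1 := hc.u_cop
    rw [Nat.coprime_iff_gcd_eq_one, h1, h2]
  have hlarge : ∀ q : ℕ, q.Prime → q ∣ m * p → c.w < q := by
    intro q hq hqd
    by_contra hle
    have h1 : q ∣ W8 c.w := (prime_dvd_W8 c.w hw2 q hq).2 (not_lt.1 hle)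
    have h2 : q ∣ Nat.gcd (m * p) (W8 c.w) := Nat.dvd_gcd hqd h1
    rw [hmpcop] at h2
    exact hq.one_lt.ne' (Nat.dvd_one.1 h2)
  -- they do not divide `vt`
  have hnv : ∀ q : ℕ, q.Prime → q ∣ m * p → ¬ (q : ℤ) ∣ c.vt x := by
    intro q hq hqd
    rcases (hq.dvd_mul).1 hqd with h | h
    · intro hd
      obtain ⟨i, b, hib⟩ := (dvd_vt_iff c x q hq).1 hd
      have h1 := not_dvd_of_jac _ q hq (hmx q (Nat.mem_primeFactors.2 ⟨hq, h, hm.ne'⟩) i)
      apply h1
      unfold CD.vc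
      rw [dvd_neg]
      cases b
      · exact Dvd.dvd.mul_right hib _
      · exact Dvd.dvd.mul_left hib _
    · rw [(Nat.prime_dvd_prime_iff_eq hq hp).1 h]
      exact hpx
  refine ⟨x, hx0, hx, hvt, fun i => ?_⟩
  set A : ℤ := c.al * ((m * p : ℕ) : ℤ) with hAdef
  have hA0 : A ≠ 0 := mul_ne_zero hc.al_ne (by exact_mod_cast hmp.ne')
  set B : ℤ := -(c.v i false x) with hBdef
  set C : ℤ := -(c.v i true x) with hCdef
  have hB0 : B ≠ 0 := neg_ne_zero.2 (hv i false)
  have hC0 : C ≠ 0 := neg_ne_zero.2 (hv i true)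
  have hBC : -(B * C) = c.vc i x := by
    simp only [hBdef, hCdef, CD.vc]
    ring
  have hAC : -(A * C) = A * c.v i true x := by simp only [hCdef]; ring
  have hAB : -(A * B) = A * c.v i false x := by simp only [hBdef]; ring
  -- large primes of `A`
  have hqA : ∀ q : ℕ, q.Prime → c.w < q → (q : ℤ) ∣ A → q ∣ m * p := by
    intro q hq hwq hd
    have hqi : Prime (q : ℤ) := Nat.prime_iff_prime_int.1 hq
    rcases hqi.dvd_or_dvd hd with h | h
    · exact absurd (hc.al_primes q hq h) (not_le.2 hwq)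
    · exact_mod_cast h
  have hBv : ∀ q : ℕ, (q : ℤ) ∣ B → (q : ℤ) ∣ c.v i false x := by
    intro q h
    simpa [hBdef] using h
  have hCv : ∀ q : ℕ, (q : ℤ) ∣ C → (q : ℤ) ∣ c.v i true x := by
    intro q h
    simpa [hCdef] using h
  have hcAB : CopW c.w A B := by
    rintro q hq hwq ⟨h1, h2⟩
    exact hnv q hq (hqA q hq hwq h1) ((hBv q h2).trans (v_dvd_vt c i false x))
  have hcAC : CopW c.w A C := by
    rintro q hq hwq ⟨h1, h2⟩
    exact hnv q hq (hqA q hq hwq h1) ((hCv q h2).trans (v_dvd_vt c i true x))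
  have hcBC : CopW c.w B C := by
    rintro q hq hwq ⟨h1, h2⟩
    have := (cop c D hc x hx q hq hwq i i false true (hBv q h1) (hCv q h2)).2
    exact absurd this (by simp)
  have hloc : LocW c.w A B C := hc.loc x hx0 hx (m * p) hmp hu i
  have hphi := pf c.w hw2 A B C hA0 hB0 hC0 hcAB hcAC hcBC hloc
  have fB : B.natAbs = (c.v i false x).natAbs := by simp [hBdef]
  have fC : C.natAbs = (c.v i true x).natAbs := by simp [hCdef]
  -- conditions at the odd valuations
  have oB : ∀ q : ℕ, q.Prime → c.w < q → Odd (B.natAbs.factorization q) →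
      jacobiSym (-(A * C)) q = 1 := by
    intro q hq hwq ho
    rw [hAC]
    rw [fB] at ho
    exact hok q hq hwq i false ho
  have oC : ∀ q : ℕ, q.Prime → c.w < q → Odd (C.natAbs.factorization q) →
      jacobiSym (-(A * B)) q = 1 := by
    intro q hq hwq ho
    rw [hAB]
    rw [fC] at ho
    exact hok q hq hwq i true ho
  have jB : jacobiSym (-(A * C)) (rough c.w B) = 1 := by
    refine jac_rough c.w _ _ oB fun q hq hwq hd h => ?_
    rw [dvd_neg] at h
    rcases (Nat.prime_iff_prime_int.1 hq).dvd_or_dvd h with h | h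
    · exact hcAB q hq hwq ⟨h, hd⟩
    · exact hcBC q hq hwq ⟨hd, h⟩
  have jC : jacobiSym (-(A * B)) (rough c.w C) = 1 := by
    refine jac_rough c.w _ _ oC fun q hq hwq hd h => ?_
    rw [dvd_neg] at h
    rcases (Nat.prime_iff_prime_int.1 hq).dvd_or_dvd h with h | h
    · exact hcAC q hq hwq ⟨h, hd⟩
    · exact hcBC q hq hwq ⟨h, hd⟩
  have hrA : rough c.w A = m * p := by
    rw [hAdef]
    exact rough_of_mul c.w c.al (m * p) hc.al_ne hc.al_primes hmp hlarge
  have jA : jacobiSym (c.vc i x) (m * p) = 1 := by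
    unfold Phi at hphi
    rw [jB, jC, mul_one, mul_one, hBC, hrA] at hphi
    exact hphi
  have jm : jacobiSym (c.vc i x) m = 1 := by
    have h1 : m = ∏ q ∈ m.primeFactors, q ^ m.factorization q :=
      (Nat.prod_factorization_pow_eq_self hm.ne').symm
    rw [h1, jac_prod _ _ (fun q => m.factorization q) fun q hq =>
      (Nat.prime_of_mem_primeFactors hq).ne_zero]
    refine Finset.prod_eq_one fun q hq => ?_
    rw [hmx q hq i, one_pow]
  have jp : jacobiSym (c.vc i x) p = 1 := by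
    rw [jacobiSym.mul_right' _ hm.ne' hp.ne_zero, jm, one_mul] at jA
    exact jA
  have jq : ∀ q : ℕ, q.Prime → q ∣ m * p → jacobiSym (-(B * C)) q = 1 := by
    intro q hq hqd
    rw [hBC]
    rcases (hq.dvd_mul).1 hqd with h | h
    · exact hmx q (Nat.mem_primeFactors.2 ⟨hq, h, hm.ne'⟩) i
    · rw [(Nat.prime_dvd_prime_iff_eq hq hp).1 h]
      exact jp
  have hfin : Iso (A : ℚ) (B : ℚ) (C : ℚ) := by
    refine TwHP.hm A B C hA0 hB0 hC0 hloc.1 fun q hq => ?_
    by_cases hqw : q ≤ c.w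
    · exact hloc.2 q hqw
    have hwq : c.w < q := not_le.1 hqw
    have hq2 : q ≠ 2 := by omega
    have hqp : q.Prime := hq.out
    by_cases hd : q ∣ m * p
    · refine lq_one q hq2 A B C (fun h => ?_) (jq q hqp hd)
      exact hnv q hqp hd ((hBv q h).trans (v_dvd_vt c i false x))
    have hnA : ¬ (q : ℤ) ∣ A := fun h => hd (hqA q hqp hwq h)
    rcases Nat.even_or_odd (B.natAbs.factorization q) with eB | oB'
    · rcases Nat.even_or_odd (C.natAbs.factorization q) with eC | oC'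
      · refine lq_even q hq2 A B C hA0 hB0 hC0 ?_ eB eC
        rw [Nat.factorization_eq_zero_of_not_dvd fun h => hnA (Int.natCast_dvd.2 h)]
        exact Even.zero
      · have h1 := lq_one q hq2 C A B hnA (oC q hqp hwq oC')
        exact (iso_perm23 _ _ _).1 ((iso_perm12 _ _ _).1 h1)
    · have h1 := lq_one q hq2 B A C hnA (oB q hqp hwq oB')
      exact (iso_perm12 _ _ _).1 h1
  have e2 : ((B : ℤ) : ℚ) = -((c.v i false x : ℤ) : ℚ) := by simp [hBdef]
  have e3 : ((C : ℤ) : ℚ) = -((c.v i true x : ℤ) : ℚ) := by simp [hCdef]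
  rw [e2, e3] at hfin
  exact hfin

end TwWA
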