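import Pool.Agent.Lib.MP_e426f4_ag.WX.Defs

/-!
# WX-Idl: sets of density zero, multiples of high prime powers

PROOF. `small_ideal`: `mono` by `Set.ncard_le_ncard` (the sets are finite: subsets of `[-H, H]`), `union`: `ε/2 + ε/2`, `Set.ncard_union_le`; the empty set. `smallP_ideal`: the same (subsets of `[0, x]`).
`high`: `K` with `2 w / 2 ^ (K + 1) ≤ ε`. The set is contained in the union over the primes `p ≤ w` of `{a ≠ 0 : |a| ≤ H, p ^ (K+1) ∣ a}`, the image of the nonzero `b`, `|b| ≤ H / p ^ (K+1)`, of cardinality at most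
`2 H / p ^ (K+1) ≤ 2 H / 2 ^ (K+1)`; there are at most `w` primes `p ≤ w`.
`highP`: if `p ^ (K + 1) ∣ α q` then `p ^ K ∣ α`; `K = |α|`.
-/

set_option autoImplicit false

namespace TwWA

open TwHP

private theorem Idl_fin (H : ℕ) : {a : ℤ | |a| ≤ (H : ℤ)}.Finite := by
  refine (Set.finite_Icc (-(H : ℤ)) (H : ℤ)).subset fun a ha => ?_
  exact abs_le.mp ha

theorem small_ideal : Ideal SmallZ := by
  refine ⟨?_, ?_, ?_⟩
  · intro E E' hE h ε hε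
    obtain ⟨H0, h0⟩ := h ε hε
    refine ⟨H0, fun H hH => le_trans ?_ (h0 H hH)⟩
    have h1 : Set.ncard {a : ℤ | |a| ≤ H ∧ a ∈ E} ≤ Set.ncard {a : ℤ | |a| ≤ H ∧ a ∈ E'} :=
      Set.ncard_le_ncard (fun a ha => ⟨ha.1, hE ha.2⟩) ((Idl_fin H).subset fun a ha => ha.1)
    exact_mod_cast h1
  · intro E E' h h' ε hε
    obtain ⟨H0, h0⟩ := h (ε / 2) (by linarith)
    obtain ⟨H1, h1⟩ := h' (ε / 2) (by linarith)
    refine ⟨max H0 H1, fun H hH => ?_⟩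
    have g0 := h0 H (le_trans (le_max_left _ _) hH)
    have g1 := h1 H (le_trans (le_max_right _ _) hH)
    have g2 : Set.ncard {a : ℤ | |a| ≤ H ∧ a ∈ E ∪ E'} ≤
        Set.ncard {a : ℤ | |a| ≤ H ∧ a ∈ E} + Set.ncard {a : ℤ | |a| ≤ H ∧ a ∈ E'} := by
      have e : {a : ℤ | |a| ≤ H ∧ a ∈ E ∪ E'} = {a : ℤ | |a| ≤ H ∧ a ∈ E} ∪ {a : ℤ | |a| ≤ H ∧ a ∈ E'} := by
        ext a
        simp only [Set.mem_setOf_eq, Set.mem_union]
        tauto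
      rw [e]
      exact Set.ncard_union_le _ _
    have g3 : (Set.ncard {a : ℤ | |a| ≤ H ∧ a ∈ E ∪ E'} : ℝ) ≤
        (Set.ncard {a : ℤ | |a| ≤ H ∧ a ∈ E} : ℝ) + (Set.ncard {a : ℤ | |a| ≤ H ∧ a ∈ E'} : ℝ) := by
      exact_mod_cast g2
    linarith
  · intro ε hε
    refine ⟨0, fun H _ => ?_⟩
    have e : {a : ℤ | |a| ≤ H ∧ a ∈ (∅ : Set ℤ)} = ∅ := by
      ext a
      simp
    rw [e, Set.ncard_empty, Nat.cast_zero]
    positivity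

private theorem Idl_finP (x : ℕ) : {p : ℕ | p ≤ x}.Finite := Set.finite_Iic x

theorem smallP_ideal (α : ℤ) : Ideal (SmallP α) := by
  refine ⟨?_, ?_, ?_⟩
  · intro E E' hE h ε hε
    obtain ⟨H0, h0⟩ := h ε hε
    refine ⟨H0, fun H hH => le_trans ?_ (h0 H hH)⟩
    have h1 : Set.ncard {p : ℕ | p ≤ H ∧ p.Prime ∧ α * (p : ℤ) ∈ E} ≤
        Set.ncard {p : ℕ | p ≤ H ∧ p.Prime ∧ α * (p : ℤ) ∈ E'} :=
      Set.ncard_le_ncard (fun a ha => ⟨ha.1, ha.2.1, hE ha.2.2⟩) ((Idl_finP H).subset fun a ha => ha.1)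
    exact_mod_cast h1
  · intro E E' h h' ε hε
    obtain ⟨H0, h0⟩ := h (ε / 2) (by linarith)
    obtain ⟨H1, h1⟩ := h' (ε / 2) (by linarith)
    refine ⟨max H0 H1, fun H hH => ?_⟩
    have g0 := h0 H (le_trans (le_max_left _ _) hH)
    have g1 := h1 H (le_trans (le_max_right _ _) hH)
    have g2 : Set.ncard {p : ℕ | p ≤ H ∧ p.Prime ∧ α * (p : ℤ) ∈ E ∪ E'} ≤
        Set.ncard {p : ℕ | p ≤ H ∧ p.Prime ∧ α * (p : ℤ) ∈ E} +
          Set.ncard {p : ℕ | p ≤ H ∧ p.Prime ∧ α * (p : ℤ) ∈ E'} := by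
      have e : {p : ℕ | p ≤ H ∧ p.Prime ∧ α * (p : ℤ) ∈ E ∪ E'} =
          {p : ℕ | p ≤ H ∧ p.Prime ∧ α * (p : ℤ) ∈ E} ∪ {p : ℕ | p ≤ H ∧ p.Prime ∧ α * (p : ℤ) ∈ E'} := by
        ext a
        simp only [Set.mem_setOf_eq, Set.mem_union]
        tauto
      rw [e]
      exact Set.ncard_union_le _ _
    have g3 : (Set.ncard {p : ℕ | p ≤ H ∧ p.Prime ∧ α * (p : ℤ) ∈ E ∪ E'} : ℝ) ≤
        (Set.ncard {p : ℕ | p ≤ H ∧ p.Prime ∧ α * (p : ℤ) ∈ E} : ℝ) +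
          (Set.ncard {p : ℕ | p ≤ H ∧ p.Prime ∧ α * (p : ℤ) ∈ E'} : ℝ) := by
      exact_mod_cast g2
    calc (Set.ncard {p : ℕ | p ≤ H ∧ p.Prime ∧ α * (p : ℤ) ∈ E ∪ E'} : ℝ) ≤ _ := g3
      _ ≤ ε / 2 * ((H : ℝ) / Real.log H) + ε / 2 * ((H : ℝ) / Real.log H) := add_le_add g0 g1
      _ = ε * ((H : ℝ) / Real.log H) := by ring
  · intro ε hε
    refine ⟨0, fun H _ => ?_⟩
    have e : {p : ℕ | p ≤ H ∧ p.Prime ∧ α * (p : ℤ) ∈ (∅ : Set ℤ)} = ∅ := by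
      ext a
      simp
    rw [e, Set.ncard_empty, Nat.cast_zero]
    have : 0 ≤ Real.log (H : ℝ) := Real.log_natCast_nonneg H
    positivity

private theorem Idl_one (H d : ℕ) (hd : 0 < d) :
    ((Finset.Icc (-(H : ℤ)) (H : ℤ)).filter fun a => a ≠ 0 ∧ (d : ℤ) ∣ a).card ≤ 2 * (H / d) := by
  have h1 : ((Finset.Icc (-(H : ℤ)) (H : ℤ)).filter fun a => a ≠ 0 ∧ (d : ℤ) ∣ a) ⊆
      ((Finset.Icc (-((H / d : ℕ) : ℤ)) ((H / d : ℕ) : ℤ)).erase 0).image fun b => (d : ℤ) * b := by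
    intro a ha
    rw [Finset.mem_filter, Finset.mem_Icc] at ha
    obtain ⟨⟨h2, h3⟩, h4, b, rfl⟩ := ha
    rw [Finset.mem_image]
    have hd' : (0 : ℤ) < d := by exact_mod_cast hd
    refine ⟨b, ?_, rfl⟩
    rw [Finset.mem_erase, Finset.mem_Icc]
    refine ⟨fun h => h4 (by rw [h, mul_zero]), ?_, ?_⟩
    · have : -b ≤ (H : ℤ) / d := by
        rw [Int.le_ediv_iff_mul_le hd']
        linarith
      push_cast
      linarith
    · have : b ≤ (H : ℤ) / d := by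
        rw [Int.le_ediv_iff_mul_le hd']
        linarith
      push_cast
      exact this
  refine le_trans (Finset.card_le_card h1) (le_trans Finset.card_image_le ?_)
  have h0 : (0 : ℤ) ∈ Finset.Icc (-((H / d : ℕ) : ℤ)) ((H / d : ℕ) : ℤ) := by
    rw [Finset.mem_Icc]
    constructor <;> linarith [Int.natCast_nonneg (H / d)]
  rw [Finset.card_erase_of_mem h0, Int.card_Icc]
  omega

theorem high (w : ℕ) (ε : ℝ) (hε : 0 < ε) : ∃ K : ℕ, ∀ H : ℕ,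
    (Set.ncard {a : ℤ | |a| ≤ H ∧ a ≠ 0 ∧ ∃ p : ℕ, p.Prime ∧ p ≤ w ∧ (p : ℤ) ^ (K + 1) ∣ a} : ℝ) ≤
      ε * H := by
  classical
  obtain ⟨K, hK⟩ := pow_unbounded_of_one_lt (((w : ℝ) + 1) / ε) (one_lt_two)
  refine ⟨K, fun H => ?_⟩
  have h1 : {a : ℤ | |a| ≤ H ∧ a ≠ 0 ∧ ∃ p : ℕ, p.Prime ∧ p ≤ w ∧ (p : ℤ) ^ (K + 1) ∣ a} ⊆
      (((Finset.range (w + 1)).filter Nat.Prime).biUnion fun p =>
        (Finset.Icc (-(H : ℤ)) (H : ℤ)).filter fun a => a ≠ 0 ∧ ((p ^ (K + 1) : ℕ) : ℤ) ∣ a : Finset ℤ) := by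
    rintro a ⟨h2, h3, p, h4, h5, h6⟩
    rw [Finset.mem_coe, Finset.mem_biUnion]
    refine ⟨p, ?_, ?_⟩
    · rw [Finset.mem_filter, Finset.mem_range]
      exact ⟨by omega, h4⟩
    · rw [Finset.mem_filter, Finset.mem_Icc]
      refine ⟨abs_le.mp h2, h3, ?_⟩
      push_cast
      exact h6
  have h2 := Set.ncard_le_ncard h1 (Finset.finite_toSet _)
  rw [Set.ncard_coe_finset] at h2
  have h3 : (((Finset.range (w + 1)).filter Nat.Prime).biUnion fun p =>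
        (Finset.Icc (-(H : ℤ)) (H : ℤ)).filter fun a => a ≠ 0 ∧ ((p ^ (K + 1) : ℕ) : ℤ) ∣ a).card ≤
      (w + 1) * (2 * (H / 2 ^ (K + 1))) := by
    refine le_trans Finset.card_biUnion_le ?_
    have h4 : ∀ p ∈ (Finset.range (w + 1)).filter Nat.Prime,
        ((Finset.Icc (-(H : ℤ)) (H : ℤ)).filter fun a => a ≠ 0 ∧ ((p ^ (K + 1) : ℕ) : ℤ) ∣ a).card ≤
          2 * (H / 2 ^ (K + 1)) := by
      intro p hp
      have hp2 := (Finset.mem_filter.mp hp).2.two_le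
      refine le_trans (Idl_one H (p ^ (K + 1)) (by positivity)) ?_
      exact Nat.mul_le_mul_left 2 (Nat.div_le_div_left (Nat.pow_le_pow_left hp2 _) (by positivity))
    refine le_trans (Finset.sum_le_card_nsmul _ _ _ h4) ?_
    rw [smul_eq_mul]
    refine Nat.mul_le_mul_right _ ?_
    refine le_trans (Finset.card_filter_le _ _) ?_
    rw [Finset.card_range]
  have h4 : ((Set.ncard {a : ℤ | |a| ≤ H ∧ a ≠ 0 ∧ ∃ p : ℕ, p.Prime ∧ p ≤ w ∧ (p : ℤ) ^ (K + 1) ∣ a} : ℕ) : ℝ) ≤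
      ((w : ℝ) + 1) * (2 * ((H / 2 ^ (K + 1) : ℕ) : ℝ)) := by
    exact_mod_cast le_trans h2 h3
  refine le_trans h4 ?_
  have h5 : ((H / 2 ^ (K + 1) : ℕ) : ℝ) ≤ (H : ℝ) / ((2 ^ (K + 1) : ℕ) : ℝ) := Nat.cast_div_le
  have h6 : ((w : ℝ) + 1) / 2 ^ K ≤ ε := by
    rw [div_lt_iff₀ hε] at hK
    rw [div_le_iff₀ (by positivity)]
    linarith [mul_comm ε ((2 : ℝ) ^ K)]
  calc ((w : ℝ) + 1) * (2 * ((H / 2 ^ (K + 1) : ℕ) : ℝ)) ≤
      ((w : ℝ) + 1) * (2 * ((H : ℝ) / ((2 ^ (K + 1) : ℕ) : ℝ))) := by gcongr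
    _ = ((w : ℝ) + 1) / 2 ^ K * H := by
        push_cast
        rw [pow_succ]
        field_simp
    _ ≤ ε * H := by gcongr

theorem highP (w : ℕ) (α : ℤ) (hα : α ≠ 0) : ∃ K : ℕ, ∀ q : ℕ, q.Prime →
    ∀ p : ℕ, p.Prime → p ≤ w → ¬ (p : ℤ) ^ (K + 1) ∣ α * (q : ℤ) := by
  refine ⟨α.natAbs, fun q hq p hp _ h => ?_⟩
  have h1 : p ^ (α.natAbs + 1) ∣ α.natAbs * q := by
    have := Int.natAbs_dvd_natAbs.mpr h
    rwa [Int.natAbs_pow, Int.natAbs_natCast, Int.natAbs_mul, Int.natAbs_natCast] at this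
  have h2 : p ^ α.natAbs ∣ α.natAbs := by
    by_cases hpq : p = q
    · rw [hpq, pow_succ] at h1
      rw [hpq]
      exact Nat.dvd_of_mul_dvd_mul_right hq.pos h1
    · have hc : Nat.Coprime (p ^ (α.natAbs + 1)) q :=
        Nat.Coprime.pow_left _ ((Nat.coprime_primes hp hq).mpr hpq)
      exact dvd_trans (pow_dvd_pow p (Nat.le_succ _)) (hc.dvd_of_dvd_mul_right h1)
  have h3 := Nat.le_of_dvd (Int.natAbs_pos.mpr hα) h2
  have h4 : α.natAbs < p ^ α.natAbs := Nat.lt_pow_self hp.one_lt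
  omega

end TwWA
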