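import Pool.Agent.Lib.MP_e426f4_ag.WX.Defs
import Pool.Agent.Lib.MP_e426f4_ag.TW.LocP

/-!
# WX-LocP: `TW/LocP.lean` with an open cone
-/

set_option autoImplicit false

namespace TwWA

open TwHP

variable {ι : Type} [Fintype ι] {n : ℕ}

theorem loc_pX (F : ι → Bool → MvPolynomial (Fin (n + 1)) ℤ) (d : ι → Bool → ℕ)
    (hom : ∀ i b, (F i b).IsHomogeneous (d i b)) (ev : ∀ i b, Even (d i b)) (p : ℕ)
    [Fact p.Prime] (a : ℤ) (O : Set (Fin (n + 1) → ℚ_[p])) (hO : IsOpen O)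
    (hcone : ∀ (c : ℚ_[p]) (s : Fin (n + 1) → ℚ_[p]), c ≠ 0 → s ∈ O → (fun j => c * s j) ∈ O)
    (h : SolIn F a ℚ_[p] O) :
    ∃ (s : Fin (n + 1) → ℤ) (k : ℕ), ∀ t : Fin (n + 1) → ℤ, (∀ j, ((p : ℤ) ^ k) ∣ t j - s j) →
      (fun j => ((t j : ℤ) : ℚ_[p])) ∈ O ∧
      (∀ i b, MvPolynomial.eval t (F i b) ≠ 0) ∧
      ∀ i, Iso (a : ℚ_[p]) (-((MvPolynomial.eval t (F i false) : ℤ) : ℚ_[p]))
        (-((MvPolynomial.eval t (F i true) : ℤ) : ℚ_[p])) := by
  obtain ⟨s, hsO, hs0, hs⟩ := h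
  obtain ⟨m, hm⟩ := locP_scale p s
  have hp1 : (1 : ℝ) < p := by exact_mod_cast (Fact.out : p.Prime).one_lt
  have hp0 : (p : ℚ_[p]) ≠ 0 := by exact_mod_cast (Fact.out : p.Prime).ne_zero
  set l : ℚ_[p] := (p : ℚ_[p]) ^ m with hl
  have hl0 : l ≠ 0 := pow_ne_zero _ hp0
  set s' : Fin (n + 1) → ℚ_[p] := fun j => l * s j with hs'
  have hsO' : s' ∈ O := hcone l s hl0 hsO
  have hval : ∀ i b, MvPolynomial.aeval s' (F i b) =
      MvPolynomial.aeval s (F i b) * (l ^ (d i b / 2)) ^ 2 := by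
    intro i b
    have e : (l ^ (d i b / 2)) ^ 2 = l ^ d i b := by
      rw [← pow_mul, Nat.div_mul_cancel (ev i b).two_dvd]
    rw [hs', eval_smul (F i b) (d i b) (hom i b) l s, e, mul_comm]
  have hne : ∀ i b, MvPolynomial.aeval s' (F i b) ≠ 0 := by
    intro i b
    rw [hval]
    exact mul_ne_zero (hs0 i b) (pow_ne_zero _ (pow_ne_zero _ hl0))
  have hiso : ∀ i, Iso (a : ℚ_[p]) (-MvPolynomial.aeval s' (F i false))
      (-MvPolynomial.aeval s' (F i true)) := by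
    intro i
    rw [hval, hval, ← neg_mul, ← neg_mul]
    have := (iso_sq (a : ℚ_[p]) (-MvPolynomial.aeval s (F i false))
      (-MvPolynomial.aeval s (F i true)) 1 (l ^ (d i false / 2)) (l ^ (d i true / 2)) one_ne_zero
      (pow_ne_zero _ hl0) (pow_ne_zero _ hl0)).2 (hs i)
    rwa [one_pow, mul_one] at this
  -- the neighbourhood
  have hev : ∀ᶠ x in nhds s', ∀ i b, MvPolynomial.aeval x (F i b) ≠ 0 ∧
      ∃ t : ℚ_[p], t ≠ 0 ∧ MvPolynomial.aeval x (F i b) =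
        MvPolynomial.aeval s' (F i b) * t ^ 2 := by
    rw [Filter.eventually_all]
    intro i
    rw [Filter.eventually_all]
    intro b
    obtain ⟨ε, hε, hn⟩ := near_square p (MvPolynomial.aeval s' (F i b)) (hne i b)
    have hc : Continuous fun x : Fin (n + 1) → ℚ_[p] => MvPolynomial.aeval x (F i b) := by
      have : (fun x : Fin (n + 1) → ℚ_[p] => MvPolynomial.aeval x (F i b)) =
          fun x => MvPolynomial.eval x ((F i b).map (Int.castRingHom ℚ_[p])) := by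
        funext x
        rw [MvPolynomial.aeval_def, MvPolynomial.eval_map]
        rfl
      rw [this]
      exact MvPolynomial.continuous_eval _
    have := Metric.continuousAt_iff'.1 (hc.continuousAt (x := s')) ε hε
    refine this.mono fun x hx => hn _ ?_
    rwa [dist_eq_norm] at hx
  obtain ⟨δ, hδ, hball⟩ := Metric.eventually_nhds_iff.1 (hev.and (hO.mem_nhds hsO'))
  obtain ⟨k, hk⟩ := exists_pow_lt_of_lt_one hδ (show ((p : ℝ)⁻¹) < 1 from inv_lt_one_of_one_lt₀ hp1)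
  have hk' : (p : ℝ) ^ (-k : ℤ) < δ := by
    rw [zpow_neg, zpow_natCast, ← inv_pow]
    exact hk
  choose z hz using fun j => locP_approx p (s' j) (hm j) k
  refine ⟨z, k, fun t ht => ?_⟩
  have hd : dist (fun j => ((t j : ℤ) : ℚ_[p])) s' < δ := by
    rw [dist_pi_lt_iff hδ]
    intro j
    rw [dist_eq_norm]
    have e : ((t j : ℤ) : ℚ_[p]) - s' j = (((t j - z j : ℤ)) : ℚ_[p]) + ((z j : ℚ_[p]) - s' j) := by
      push_cast
      ring
    rw [e]
    refine lt_of_le_of_lt (Padic.nonarchimedean _ _) (lt_of_le_of_lt (max_le ?_ (hz j)) hk')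
    exact (Padic.norm_int_le_pow_iff_dvd _ _).2 (by exact_mod_cast ht j)
  obtain ⟨hb, hbO⟩ := hball hd
  refine ⟨hbO, fun i b h0 => ?_, fun i => ?_⟩
  · apply (hb i b).1
    rw [aeval_cast, h0, Int.cast_zero]
  · obtain ⟨u, hu0, hu⟩ := (hb i false).2
    obtain ⟨v, hv0, hv⟩ := (hb i true).2
    rw [aeval_cast] at hu hv
    rw [hu, hv, ← neg_mul, ← neg_mul]
    have := (iso_sq (a : ℚ_[p]) (-MvPolynomial.aeval s' (F i false))
      (-MvPolynomial.aeval s' (F i true)) 1 u v one_ne_zero hu0 hv0).2 (hiso i)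
    rwa [one_pow, mul_one] at this

end TwWA
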