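import Pool.Agent.Lib.MP_e426f4_ag.WX.ConeOf
import Pool.Agent.Lib.MP_e426f4_ag.WX.FibP
import Pool.Agent.Lib.MP_e426f4_ag.WX.FibR
import Pool.Agent.Lib.MP_e426f4_ag.WX.ConB
import Pool.Agent.Lib.MP_e426f4_ag.TW.Res

/-!
# WX-One: one tuple of local points

PROOF. Let `BR`, `BP p` be the open sets of `fib_r`, `fib_p` for the points of `L` (twist `a0`) and `ρ / 2` (for `p ≤ w`; for `p > w` take
`Set.univ`), `C` the cones of `cones`. By `hbase C w` and `Ideal.mono` it is enough to show: if `a` is in the set of the statement then `ELSIn C F a ∧ ¬ SolQ C w F a`.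
`ELSIn`: `a ≠ 0` from `ELS`. Real place: `s = L.sR ∈ BR ⊆ coneOf BR` (`c = 1`); the conics over `s` for `a`: `(√(|a0|/|a|) x, y, z)` (`a0 a > 0`). `p ≤ w`: `s = L.sP p`, `(x / t, y, z)`. `p > w`: from `ELS`.
`¬ SolQ`: let `s` be a rational base point in the cones, all conics over `s` soluble over `ℚ`; show `Near`. Let `t` be given as in `Near`. `scale`: `l ≠ 0` with `s' = l s` in `BR` and all `BP p`.
The values at `s'` are those at `s` times `l ^ d`, `d` even (`eval_smul` in `TW/Res.lean`, `hF.hom`, `hF.even`), so the conics over `s'` are soluble (`iso_sq`). By `fib_r`, `fib_p` there are local points `v` over `s'` for `a0`,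
within `ρ / 2` of those of `L`, with the same first coordinate. For each `i` apply `con_b` to the conic `a X₀² - F i false (s') X₁² - F i true (s') X₂² = 0` with the local points `(√(|a0|/|a|) x, y, z)`, `(x / t p, y, z)` and the
radius `ρ / (2 (1 + √|a|))`. `choose` over `i` gives the rational points `v i`. Triangle inequality: `|v i 1 - L.vR i 1| < ρ/2 + ρ/2`,
`|√|a| v i 0 - √|a0| L.vR i 0| ≤ √|a| ρ / (2 (1 + √|a|)) < ρ`, as `√|a| √(|a0|/|a|) = √|a0|`; `p`-adically ultrametric or the same.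
-/

set_option autoImplicit false

namespace TwWA

open TwHP

variable {ι : Type} [Fintype ι] {n : ℕ}

/-- the values of a polynomial at a rational vector in a field of characteristic `0` -/
private theorem aeval_castQ {K : Type} [Field K] [CharZero K] (f : MvPolynomial (Fin (n + 1)) ℤ)
    (s : Fin (n + 1) → ℚ) :
    ((MvPolynomial.aeval s f : ℚ) : K) = MvPolynomial.aeval (fun j => (s j : K)) f := by
  rw [MvPolynomial.aeval_def, MvPolynomial.aeval_def]
  have h := MvPolynomial.eval₂_comp_left (Rat.castHom K) (algebraMap ℤ ℚ) s f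
  rw [Rat.coe_castHom] at h
  rw [h]
  congr 1
  exact RingHom.ext_int _ _

/-- a point of the twist by `a0` gives a point of the twist by `a`, `a u² = a0` -/
private theorem tw_iso {K : Type} [Field K] {a0 a u f g : K} (hu : u ≠ 0) (h : a * u ^ 2 = a0)
    {v : Fin 3 → K} (hv : v ≠ 0) (he : a0 * v 0 ^ 2 = f * v 1 ^ 2 + g * v 2 ^ 2) :
    Iso a (-f) (-g) := by
  refine ⟨u * v 0, v 1, v 2, ?_, ?_⟩
  · by_contra hcon
    push Not at hcon
    obtain ⟨h0, h1, h2⟩ := hcon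
    apply hv
    funext k
    fin_cases k
    · exact (mul_eq_zero.1 h0).resolve_left hu
    · exact h1
    · exact h2
  · linear_combination v 0 ^ 2 * h + he

/-- the vector of that point -/
private theorem tw_ne {K : Type} [Field K] {u : K} (hu : u ≠ 0) {v : Fin 3 → K} (hv : v ≠ 0) :
    (![u * v 0, v 1, v 2] : Fin 3 → K) ≠ 0 := by
  intro h
  apply hv
  have h0 := congrFun h 0
  have h1 := congrFun h 1
  have h2 := congrFun h 2
  funext k
  fin_cases k
  · exact (mul_eq_zero.1 (by simpa using h0)).resolve_left hu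
  · simpa using h1
  · simpa using h2

private theorem tw_bl {K : Type} [Field K] {a0 a u f g : K} (h : a * u ^ 2 = a0)
    {v : Fin 3 → K} (he : a0 * v 0 ^ 2 = f * v 1 ^ 2 + g * v 2 ^ 2) :
    bl a (-f) (-g) (![u * v 0, v 1, v 2] : Fin 3 → K) (![u * v 0, v 1, v 2] : Fin 3 → K) = 0 := by
  unfold bl
  simp only [Matrix.cons_val_zero, Matrix.cons_val_one, Matrix.cons_val_two, Matrix.head_cons,
    Matrix.tail_cons]
  linear_combination v 0 ^ 2 * h + he

/-- the real number `τ` with `a τ² = a0` -/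
private theorem tau {a0 a : ℤ} (h : 0 < a0 * a) : ∃ τ : ℝ, τ ≠ 0 ∧ (a : ℝ) * τ ^ 2 = a0 ∧
    √|(a : ℝ)| * τ = √|(a0 : ℝ)| := by
  have h' : (0 : ℝ) < (a0 : ℝ) * a := by exact_mod_cast h
  have ha : (a : ℝ) ≠ 0 := by
    intro h0
    rw [h0, mul_zero] at h'
    exact lt_irrefl _ h'
  have ha0 : (a0 : ℝ) ≠ 0 := by
    intro h0
    rw [h0, zero_mul] at h'
    exact lt_irrefl _ h'
  have hpa : 0 < |(a : ℝ)| := abs_pos.2 ha
  have hpa0 : 0 < |(a0 : ℝ)| := abs_pos.2 ha0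
  refine ⟨√(|(a0 : ℝ)| / |(a : ℝ)|), (Real.sqrt_pos.2 (div_pos hpa0 hpa)).ne', ?_, ?_⟩
  · rw [Real.sq_sqrt (div_pos hpa0 hpa).le]
    rcases lt_or_gt_of_ne ha with h1 | h1
    · have h2 : (a0 : ℝ) < 0 := by
        by_contra hc
        push Not at hc
        nlinarith
      rw [abs_of_neg h1, abs_of_neg h2]
      field_simp
    · have h2 : 0 < (a0 : ℝ) := by
        by_contra hc
        push Not at hc
        nlinarith
      rw [abs_of_pos h1, abs_of_pos h2]
      field_simp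
  · rw [← Real.sqrt_mul (abs_nonneg _)]
    congr 1
    field_simp

theorem one (F : ι → Bool → MvPolynomial (Fin (n + 1)) ℤ) (d : ι → Bool → ℕ) (hF : Fam F d)
    (I : Set ℤ → Prop) (hI : Ideal I)
    (hbase : ∀ (C : Cones n) (w : ℕ), I {a | ELSIn C F a ∧ ¬ SolQ C w F a}) (w : ℕ) (a0 : ℤ)
    (ha0 : a0 ≠ 0) (L : Loc ι n) (hL : L.Of F w a0) (ρ : ℝ) (hρ : 0 < ρ) :
    I {a | ELS F a ∧ Equ w a0 a ∧ ¬ Near F w a0 L ρ a} := by
  classical
  obtain ⟨BR, hBRo, hsR, hBR⟩ := fib_r F a0 L.sR L.vR hL.1 (ρ / 2) (half_pos hρ)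
  have hex : ∀ (p : ℕ) [Fact p.Prime], ∃ B : Set (Fin (n + 1) → ℚ_[p]), p ≤ w →
      (IsOpen B ∧ L.sP p ∈ B ∧ ∀ s ∈ B, (∀ j, ‖s j - L.sP p j‖ < ρ / 2) ∧
      ∃ v : ι → Fin 3 → ℚ_[p], IsPt F a0 s v ∧ (∀ i, v i 0 = L.vP p i 0) ∧
        ∀ i k, ‖v i k - L.vP p i k‖ < ρ / 2) := by
    intro p _
    by_cases hp : p ≤ w
    · obtain ⟨B, h1, h2, h3⟩ := fib_p F p a0 (L.sP p) (L.vP p) (hL.2 p hp) (ρ / 2) (half_pos hρ)
      exact ⟨B, fun _ => ⟨h1, h2, h3⟩⟩
    · exact ⟨Set.univ, fun h => absurd h hp⟩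
  choose BP hBP using hex
  obtain ⟨C, hCR, hCP, hCU⟩ := cones w BR hBRo BP (fun p _ hp => (hBP p hp).1)
  refine hI.mono _ _ ?_ (hbase C w)
  rintro a ⟨hELS, hEqu, hNear⟩
  have haQ : (a : ℚ) ≠ 0 := by exact_mod_cast hELS.1
  obtain ⟨τ, hτ0, hτ1, hτ2⟩ := tau hEqu.1
  refine ⟨⟨hELS.1, ?_, ?_⟩, ?_⟩
  · refine ⟨L.sR, ?_, hL.1.1, fun i => tw_iso hτ0 hτ1 (hL.1.2 i).1 (hL.1.2 i).2⟩
    rw [hCR]
    exact ⟨1, one_ne_zero, by simpa using hsR⟩
  · intro p _
    by_cases hp : p ≤ w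
    · obtain ⟨t, ht1, ht2⟩ := hEqu.2 p hp
      have ht0 : t ≠ 0 := by
        intro h0
        rw [h0, norm_zero] at ht1
        exact zero_ne_one ht1
      have htt : (a : ℚ_[p]) * t⁻¹ ^ 2 = a0 := by
        rw [ht2]
        field_simp
      refine ⟨L.sP p, ?_, (hL.2 p hp).1,
        fun i => tw_iso (inv_ne_zero ht0) htt ((hL.2 p hp).2 i).1 ((hL.2 p hp).2 i).2⟩
      rw [hCP p hp]
      exact ⟨1, one_ne_zero, by simpa using (hBP p hp).2.1⟩
    · obtain ⟨s, h1, h2⟩ := hELS.2.2 p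
      exact ⟨s, by rw [hCU p (not_le.1 hp)]; exact Set.mem_univ _, h1, h2⟩
  · rintro ⟨s, hsR', hsP', hne, hiso⟩
    apply hNear
    intro t ht
    rw [hCR] at hsR'
    obtain ⟨l, hl, hlR, hlP⟩ := scale w BR hBRo BP (fun p _ hp => (hBP p hp).1) s hsR'
      (fun p _ hp => by rw [← hCP p hp]; exact hsP' p hp)
    obtain ⟨s', hs'⟩ : ∃ s' : Fin (n + 1) → ℚ, s' = fun j => l * s j := ⟨_, rfl⟩
    have hval : ∀ i b, MvPolynomial.aeval s' (F i b) = l ^ d i b * MvPolynomial.aeval s (F i b) := by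
      intro i b
      rw [hs']
      exact eval_smul (F i b) (d i b) (hF.hom i b) l s
    have hne' : ∀ i b, MvPolynomial.aeval s' (F i b) ≠ 0 := by
      intro i b
      rw [hval]
      exact mul_ne_zero (pow_ne_zero _ hl) (hne i b)
    have hiso' : ∀ i, Iso (a : ℚ) (-MvPolynomial.aeval s' (F i false))
        (-MvPolynomial.aeval s' (F i true)) := by
      intro i
      obtain ⟨m1, hm1⟩ := hF.even i false
      obtain ⟨m2, hm2⟩ := hF.even i true
      have h := (iso_sq (a : ℚ) (-MvPolynomial.aeval s (F i false)) (-MvPolynomial.aeval s (F i true))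
        1 (l ^ m1) (l ^ m2) one_ne_zero (pow_ne_zero _ hl) (pow_ne_zero _ hl)).2 (hiso i)
      rw [hval, hval, hm1, hm2]
      convert h using 1 <;> ring
    -- the real points
    obtain ⟨hsR2, vR, hvR1, hvR2, hvR3⟩ := hBR _ hlR
    have hexP : ∀ (p : ℕ) [Fact p.Prime], ∃ v : ι → Fin 3 → ℚ_[p], p ≤ w →
        (IsPt F a0 (fun j => ((l * s j : ℚ) : ℚ_[p])) v ∧ (∀ i, v i 0 = L.vP p i 0) ∧
          ∀ i k, ‖v i k - L.vP p i k‖ < ρ / 2) := by
      intro p _
      by_cases hp : p ≤ w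
      · obtain ⟨-, v, h1⟩ := (hBP p hp).2.2 _ (hlP p hp)
        exact ⟨v, fun _ => h1⟩
      · exact ⟨0, fun h => absurd h hp⟩
    choose VP hVP using hexP
    have ht0 : ∀ (p : ℕ) [Fact p.Prime], p ≤ w → t p ≠ 0 := by
      intro p _ hp h0
      have h1 := (ht p hp).1
      rw [h0, norm_zero] at h1
      exact zero_ne_one h1
    have htt : ∀ (p : ℕ) [Fact p.Prime], p ≤ w → (a : ℚ_[p]) * (t p)⁻¹ ^ 2 = a0 := by
      intro p _ hp
      have := ht0 p hp
      rw [(ht p hp).2]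
      field_simp
    have hcR : ∀ i b, ((MvPolynomial.aeval s' (F i b) : ℚ) : ℝ) =
        MvPolynomial.aeval (fun j => ((l * s j : ℚ) : ℝ)) (F i b) := by
      intro i b
      rw [aeval_castQ, hs']
    have hcP : ∀ (p : ℕ) [Fact p.Prime], ∀ i b, ((MvPolynomial.aeval s' (F i b) : ℚ) : ℚ_[p]) =
        MvPolynomial.aeval (fun j => ((l * s j : ℚ) : ℚ_[p])) (F i b) := by
      intro p _ i b
      rw [aeval_castQ, hs']
    obtain ⟨r, hr⟩ : ∃ r : ℝ, r = ρ / (2 * (1 + √|(a : ℝ)|)) := ⟨_, rfl⟩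
    have hsq : 0 ≤ √|(a : ℝ)| := Real.sqrt_nonneg _
    have hden : 0 < 2 * (1 + √|(a : ℝ)|) := by linarith
    have hr0 : 0 < r := by
      rw [hr]
      exact div_pos hρ hden
    have hr1 : r ≤ ρ / 2 := by
      rw [hr]
      exact div_le_div_of_nonneg_left hρ.le (by norm_num) (by linarith)
    have hr2 : √|(a : ℝ)| * r < ρ := by
      rw [hr, mul_div_assoc', div_lt_iff₀ hden]
      nlinarith
    have key : ∀ i, ∃ X : Fin 3 → ℚ, X ≠ 0 ∧
        bl (a : ℚ) (-MvPolynomial.aeval s' (F i false)) (-MvPolynomial.aeval s' (F i true)) X X = 0 ∧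
        (∀ k, |(X k : ℝ) - (![τ * vR i 0, vR i 1, vR i 2] : Fin 3 → ℝ) k| < r) ∧
        ∀ (p : ℕ) [Fact p.Prime], p ≤ w →
          ∀ k, ‖(X k : ℚ_[p]) - (![(t p)⁻¹ * VP p i 0, VP p i 1, VP p i 2] : Fin 3 → ℚ_[p]) k‖ < r := by
      intro i
      refine con_b w (a : ℚ) (-MvPolynomial.aeval s' (F i false)) (-MvPolynomial.aeval s' (F i true))
        haQ (neg_ne_zero.2 (hne' i false)) (neg_ne_zero.2 (hne' i true)) (hiso' i)
        (![τ * vR i 0, vR i 1, vR i 2]) (tw_ne hτ0 (hvR1.2 i).1) ?_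
        (fun p _ => ![(t p)⁻¹ * VP p i 0, VP p i 1, VP p i 2])
        (fun p _ hp => tw_ne (inv_ne_zero (ht0 p hp)) ((hVP p hp).1.2 i).1) ?_ r hr0
      · rw [Rat.cast_neg, Rat.cast_neg, Rat.cast_intCast, hcR, hcR]
        exact tw_bl hτ1 (hvR1.2 i).2
      · intro p _ hp
        rw [Rat.cast_neg, Rat.cast_neg, Rat.cast_intCast, hcP, hcP]
        exact tw_bl (htt p hp) ((hVP p hp).1.2 i).2
    choose X hX0 hXb hXR hXP using key
    refine ⟨s', X, ⟨hne', fun i => ⟨hX0 i, ?_⟩⟩, ?_, ?_, ?_⟩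
    · have h := hXb i
      unfold bl at h
      linear_combination h
    · intro j
      have h := hsR2 j
      rw [hs']
      linarith
    · intro i
      have e0 := hXR i 0
      have e1 := hXR i 1
      have e2 := hXR i 2
      simp only [Matrix.cons_val_zero, Matrix.cons_val_one, Matrix.cons_val_two, Matrix.head_cons,
        Matrix.tail_cons] at e0 e1 e2
      have g1 := hvR3 i 1
      have g2 := hvR3 i 2
      refine ⟨?_, ?_, ?_⟩
      · have h1 : √|(a : ℝ)| * (X i 0 : ℝ) - √|(a0 : ℝ)| * L.vR i 0 =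
            √|(a : ℝ)| * ((X i 0 : ℝ) - τ * vR i 0) := by
          rw [← hτ2, ← hvR2 i]
          ring
        rw [h1, abs_mul, abs_of_nonneg hsq]
        exact lt_of_le_of_lt (mul_le_mul_of_nonneg_left e0.le hsq) hr2
      · calc |(X i 1 : ℝ) - L.vR i 1| ≤ |(X i 1 : ℝ) - vR i 1| + |vR i 1 - L.vR i 1| :=
            abs_sub_le _ _ _
          _ < ρ := by linarith
      · calc |(X i 2 : ℝ) - L.vR i 2| ≤ |(X i 2 : ℝ) - vR i 2| + |vR i 2 - L.vR i 2| :=
            abs_sub_le _ _ _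
          _ < ρ := by linarith
    · intro p _ hp
      refine ⟨?_, fun i => ?_⟩
      · intro j
        have h := ((hBP p hp).2.2 _ (hlP p hp)).1 j
        rw [hs']
        linarith
      · have e0 := hXP i p hp 0
        have e1 := hXP i p hp 1
        have e2 := hXP i p hp 2
        simp only [Matrix.cons_val_zero, Matrix.cons_val_one, Matrix.cons_val_two, Matrix.head_cons,
          Matrix.tail_cons] at e0 e1 e2
        have g1 := (hVP p hp).2.2 i 1
        have g2 := (hVP p hp).2.2 i 2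
        refine ⟨?_, ?_, ?_⟩
        · rw [(hVP p hp).2.1 i, mul_comm, ← div_eq_mul_inv] at e0
          linarith
        · calc ‖(X i 1 : ℚ_[p]) - L.vP p i 1‖ = ‖((X i 1 : ℚ_[p]) - VP p i 1) +
              (VP p i 1 - L.vP p i 1)‖ := by rw [sub_add_sub_cancel]
            _ ≤ ‖(X i 1 : ℚ_[p]) - VP p i 1‖ + ‖VP p i 1 - L.vP p i 1‖ := norm_add_le _ _
            _ < ρ := by linarith
        · calc ‖(X i 2 : ℚ_[p]) - L.vP p i 2‖ = ‖((X i 2 : ℚ_[p]) - VP p i 2) +
              (VP p i 2 - L.vP p i 2)‖ := by rw [sub_add_sub_cancel]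
            _ ≤ ‖(X i 2 : ℚ_[p]) - VP p i 2‖ + ‖VP p i 2 - L.vP p i 2‖ := norm_add_le _ _
            _ < ρ := by linarith

end TwWA
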