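import Pool.Agent.Lib.MP_e426f4_ag.WX.FsB
import Pool.Agent.Lib.MP_e426f4_ag.TWS.Sum

/-!
# WX-Sum: copy of `TWS/Sum.lean` for `HasPtX`
-/

set_option autoImplicit false
set_option linter.unusedSectionVars false

namespace TwWA

open Finset Polynomial TwHP TwHP.CD Pool.Agent.Lib.MP_e426f4_ag.TWL

variable {ι : Type} [Fintype ι] [DecidableEq ι]

open Classical in
theorem sum4X [Nonempty ι] (c : CD ι) {D : ℕ} (hc : c.Valid D) (cb : ℕ) (δ : ℝ) (hδ : 0 < δ) (hδ1 : δ ≤ 1) :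
    ∃ H0 : ℕ, ∀ H : ℕ, H0 ≤ H →
      (((Icc 1 (H / c.al.natAbs)).filter fun a : ℕ => a ≡ c.u [MOD W8 c.w] ∧ c.Anat D cb δ H a ∧
        ¬ HasPtX c (c.al * (a : ℤ))).card : ℝ) ≤
      8 * C3c D / (c.w * δ * Nat.totient (W8 c.w)) * ((H : ℝ) / c.al.natAbs) + H / Real.log H := by
  obtain ⟨H1, h1⟩ := ch4 c hc cb
  obtain ⟨H2, h2⟩ := fs4X c hc cb δ hδ
  obtain ⟨H3, h3⟩ := dyadic_sum δ hδ hδ1
  obtain ⟨H4, h4⟩ := zH_lt D (Fintype.card ι) δ hδ
  refine ⟨max (max H1 H2) (max H3 H4), fun H hH => ?_⟩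
  have k1 := h1 H ((le_max_left _ _).trans ((le_max_left _ _).trans hH))
  have k2 := h2 H ((le_max_right _ _).trans ((le_max_left _ _).trans hH))
  have k3 := h3 H ((le_max_left _ _).trans ((le_max_right _ _).trans hH))
  have k4 := h4 H ((le_max_right _ _).trans ((le_max_right _ _).trans hH))
  set L := Real.log H with hL
  set N := NH D (Fintype.card ι) cb H with hN
  set z := zH D (Fintype.card ι) H with hz
  set X := H / c.al.natAbs with hX
  have hXH : X ≤ H := Nat.div_le_self _ _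
  have hwpos : 0 < c.w := lt_of_lt_of_le (by norm_num) (w_big hc)
  have hW8 : 0 < W8 c.w := by
    rw [W8]
    refine Nat.mul_pos (by norm_num) (Finset.prod_pos fun p hp => ?_)
    exact (mem_filter.1 hp).2.pos
  have hφ : 0 < Nat.totient (W8 c.w) := Nat.totient_pos.2 hW8
  have hφR : (0 : ℝ) < (Nat.totient (W8 c.w) : ℝ) := by exact_mod_cast hφ
  have hwR : (0 : ℝ) < (c.w : ℝ) := by exact_mod_cast hwpos
  have hC3 : 0 < C3c D := by rw [C3c, C2c]; positivity
  -- the residue `v m`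
  set vv : ℕ → ℕ := fun m => if h : ∃ v, m * v ≡ c.u [MOD W8 c.w] then h.choose else 0 with hvv
  set Gd : ℕ → Prop := fun m => m.Coprime c.Q0 ∧ (bb z m : ℝ) ≤ L ^ cb ∧
    (2 : ℝ) ^ m.primeFactors.card ≤ L ^ 2 ∧ c.CG L N z m ∧ ∃ v, m * v ≡ c.u [MOD W8 c.w] with hGd
  set Bs : ℕ → ℕ → Finset ℕ := fun m P => if Gd m then
    (prm P (W8 c.w) (vv m)).filter (fun p => ¬ p ∣ m ∧ ¬ HasPtX c (c.al * ((m * p : ℕ) : ℤ))) else ∅ with hBs
  set J : ℕ → Finset ℕ := fun m => (range (Nat.log 2 X + 1)).filter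
        (fun j => (H : ℝ) ^ δ / 2 ≤ ((2 ^ j : ℕ) : ℝ) ∧ m * 2 ^ j < X) with hJ
  set S1 : Finset ℕ := (Icc 1 H).filter (fun a : ℕ => (bb z a : ℝ) ≤ L ^ cb ∧ ¬ c.CG L N z a) with hS1
  set S2 : Finset ℕ := (Icc 1 X).biUnion (fun m => (J m).biUnion (fun j => (Bs m (2 ^ j)).image (fun p => m * p)))
    with hS2
  have hsub : ((Icc 1 X).filter fun a : ℕ => a ≡ c.u [MOD W8 c.w] ∧ c.Anat D cb δ H a ∧
        ¬ HasPtX c (c.al * (a : ℤ))) ⊆ S1 ∪ S2 := by
    intro a ha
    rw [mem_filter, mem_Icc] at ha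
    obtain ⟨⟨ha1, haX⟩, hau, hA, hno⟩ := ha
    rw [mem_union]
    by_cases hCG : c.CG L N z a
    · right
      obtain ⟨m, p, ham, hp, hpm, hm1, hpH, hmQ, hmb, hmo, hmC⟩ :=
        decomp c D cb δ H L N k4 a ha1 hA hCG
      have hex : ∃ v, m * v ≡ c.u [MOD W8 c.w] := ⟨p, by rw [← ham]; exact hau⟩
      have hvm : m * vv m ≡ c.u [MOD W8 c.w] := by
        rw [hvv]; simp only [dif_pos hex]; exact hex.choose_spec
      have hcopW : (W8 c.w).Coprime m := by
        have e1 : Nat.gcd a (W8 c.w) = Nat.gcd c.u (W8 c.w) := Nat.ModEq.gcd_eq hau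
        have e2 : a.Coprime (W8 c.w) := by rw [Nat.Coprime, e1]; exact hc.u_cop
        exact (Nat.Coprime.coprime_dvd_left ⟨p, ham⟩ e2).symm
      have hpv : p ≡ vv m [MOD W8 c.w] := by
        refine Nat.ModEq.cancel_left_of_coprime hcopW (c := m) ?_
        rw [← ham]
        exact hau.trans hvm.symm
      have hp2 := hp.two_le
      have hj1 : 2 ^ (Nat.log 2 (p - 1)) ≤ p - 1 := Nat.pow_log_le_self 2 (by omega)
      have hj2 : p - 1 < 2 ^ (Nat.log 2 (p - 1) + 1) := Nat.lt_pow_succ_log_self (by norm_num) _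
      set j := Nat.log 2 (p - 1) with hj
      rw [pow_succ] at hj2
      have hpa : p ≤ a := by rw [ham]; exact Nat.le_mul_of_pos_left _ hm1
      rw [hS2, mem_biUnion]
      have hma : m ≤ a := by rw [ham]; exact Nat.le_mul_of_pos_right _ hp.pos
      refine ⟨m, mem_Icc.2 ⟨hm1, hma.trans haX⟩, ?_⟩
      rw [mem_biUnion]
      refine ⟨j, ?_, ?_⟩
      · rw [hJ, mem_filter, mem_range]
        refine ⟨?_, ?_, ?_⟩
        · rw [Nat.lt_succ_iff]
          exact Nat.log_mono_right (by omega)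
        · have : (p : ℝ) ≤ 2 * ((2 ^ j : ℕ) : ℝ) := by
            have : p ≤ 2 * 2 ^ j := by omega
            exact_mod_cast this
          linarith
        · calc m * 2 ^ j < m * p := Nat.mul_lt_mul_of_pos_left (by omega) hm1
            _ = a := ham.symm
            _ ≤ X := haX
      · rw [mem_image]
        refine ⟨p, ?_, ham.symm⟩
        rw [hBs]
        have hgd : Gd m := ⟨hmQ, hmb, hmo, hmC, hex⟩
        simp only [if_pos hgd]
        rw [mem_filter, prm, mem_filter, mem_Ioc]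
        refine ⟨⟨⟨by omega, by omega⟩, hp, hpv⟩, hpm, ?_⟩
        rw [← ham]; exact hno
    · left
      rw [hS1, mem_filter, mem_Icc]
      exact ⟨⟨ha1, haX.trans hXH⟩, hA.bb_le, hCG⟩
  have hcard2 : (S2.card : ℝ) ≤ C3c D / c.w * (8 * X / (Nat.totient (W8 c.w) * δ)) := by
    have e1 : S2.card ≤ ∑ m ∈ Icc 1 X, ∑ j ∈ J m, (Bs m (2 ^ j)).card := by
      rw [hS2]
      refine Finset.card_biUnion_le.trans (Finset.sum_le_sum fun m _ => ?_)
      refine Finset.card_biUnion_le.trans (Finset.sum_le_sum fun j _ => ?_)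
      exact Finset.card_image_le
    have e2 : ∀ m ∈ Icc 1 X, ∀ j ∈ J m, ((Bs m (2 ^ j)).card : ℝ) ≤
        C3c D / c.w * (((2 ^ j : ℕ) : ℝ) / (Nat.totient (W8 c.w) * Real.log ((2 ^ j : ℕ) : ℝ))) := by
      intro m hm j hj
      rw [mem_Icc] at hm
      rw [hJ, mem_filter] at hj
      have h2j : 2 ^ j ≤ H := by
        have : 2 ^ j ≤ m * 2 ^ j := Nat.le_mul_of_pos_left _ hm.1
        omega
      rw [hBs]
      by_cases hgd : Gd m
      · simp only [if_pos hgd]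
        have hex := hgd.2.2.2.2
        have hvm : m * vv m ≡ c.u [MOD W8 c.w] := by
          rw [hvv]; simp only [dif_pos hex]; exact hex.choose_spec
        exact k2 m hm.1 (hm.2.trans hXH) hgd.1 hgd.2.1 hgd.2.2.1 hgd.2.2.2.1 (2 ^ j) (vv m) hj.2.1 h2j hvm
      · simp only [if_neg hgd, Finset.card_empty, Nat.cast_zero]
        have : 0 ≤ Real.log ((2 ^ j : ℕ) : ℝ) := Real.log_natCast_nonneg _
        positivity
    have e3 : (S2.card : ℝ) ≤ ∑ m ∈ Icc 1 X, ∑ j ∈ J m, C3c D / c.w *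
        (((2 ^ j : ℕ) : ℝ) / (Nat.totient (W8 c.w) * Real.log ((2 ^ j : ℕ) : ℝ))) := by
      have e1' : (S2.card : ℝ) ≤ ((∑ m ∈ Icc 1 X, ∑ j ∈ J m, (Bs m (2 ^ j)).card : ℕ) : ℝ) := by
        exact_mod_cast e1
      refine e1'.trans ?_
      push_cast
      refine Finset.sum_le_sum fun m hm => Finset.sum_le_sum fun j hj => ?_
      have := e2 m hm j hj
      push_cast at this
      exact this
    refine e3.trans ?_
    simp only [← Finset.mul_sum]
    exact mul_le_mul_of_nonneg_left (k3 X hXH _ hφR) (by positivity)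
  have hcard : (((Icc 1 X).filter fun a : ℕ => a ≡ c.u [MOD W8 c.w] ∧ c.Anat D cb δ H a ∧
        ¬ HasPtX c (c.al * (a : ℤ))).card : ℝ) ≤ S1.card + S2.card := by
    exact_mod_cast (Finset.card_le_card hsub).trans (Finset.card_union_le _ _)
  have hXle : (X : ℝ) ≤ (H : ℝ) / c.al.natAbs := Nat.cast_div_le
  have hfin : C3c D / c.w * (8 * X / (Nat.totient (W8 c.w) * δ)) ≤
      8 * C3c D / (c.w * δ * Nat.totient (W8 c.w)) * ((H : ℝ) / c.al.natAbs) := by
    have e5 : C3c D / c.w * (8 * X / (Nat.totient (W8 c.w) * δ)) =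
        8 * C3c D / (c.w * δ * Nat.totient (W8 c.w)) * X := by
      field_simp
    rw [e5]
    exact mul_le_mul_of_nonneg_left hXle (by positivity)
  calc (((Icc 1 X).filter fun a : ℕ => a ≡ c.u [MOD W8 c.w] ∧ c.Anat D cb δ H a ∧
        ¬ HasPtX c (c.al * (a : ℤ))).card : ℝ) ≤ S1.card + S2.card := hcard
    _ ≤ H / L + 8 * C3c D / (c.w * δ * Nat.totient (W8 c.w)) * ((H : ℝ) / c.al.natAbs) :=
        add_le_add k1 (hcard2.trans hfin)
    _ = _ := by ring

end TwWA
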