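import Pool.Agent.Lib.MP_e426f4_ag.WX.Fin
import Pool.Agent.Lib.MP_e426f4_ag.WX.Idl
import Pool.Agent.Lib.MP_e426f4_ag.WX.BadSmall
import Pool.Agent.Lib.MP_e426f4_ag.WX.PrimeThm

/-!
# WX-Zed: density of the rational points for almost all twists
-/

set_option autoImplicit false

namespace TwWA

open Finset TwHP

variable {ι : Type} [Fintype ι] [DecidableEq ι] [Nonempty ι] {n : ℕ}

theorem dense_z (F : ι → Bool → MvPolynomial (Fin (n + 1)) ℤ) (d : ι → Bool → ℕ) (hF : Fam F d)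
    (w : ℕ) (ρ : ℝ) (hρ : 0 < ρ) : SmallZ {a | ELS F a ∧ ¬ Dense F w ρ a} := by
  intro ε hε
  obtain ⟨K, hK⟩ := high w (ε / 2) (by positivity)
  obtain ⟨H0, hH0⟩ := fin_dense F d hF SmallZ small_ideal
    (fun C w' ε' hε' => bad_smallX C w' F d hF ε' hε') w K ρ hρ (ε / 2) (by positivity)
  refine ⟨H0, fun H hH => ?_⟩
  have hsub : {a : ℤ | |a| ≤ H ∧ a ∈ {a : ℤ | ELS F a ∧ ¬ Dense F w ρ a}} ⊆
      {a : ℤ | |a| ≤ H ∧ a ∈ {a : ℤ | ELS F a ∧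
        (∀ p : ℕ, p.Prime → p ≤ w → ¬ (p : ℤ) ^ (K + 1) ∣ a) ∧ ¬ Dense F w ρ a}} ∪
      {a : ℤ | |a| ≤ H ∧ a ≠ 0 ∧ ∃ p : ℕ, p.Prime ∧ p ≤ w ∧ (p : ℤ) ^ (K + 1) ∣ a} := by
    rintro a ⟨haH, hE, hD⟩
    by_cases h : ∀ p : ℕ, p.Prime → p ≤ w → ¬ (p : ℤ) ^ (K + 1) ∣ a
    · exact Or.inl ⟨haH, hE, h, hD⟩
    · push Not at h
      exact Or.inr ⟨haH, hE.1, h⟩
  have hfin : Set.Finite ({a : ℤ | |a| ≤ H ∧ a ∈ {a : ℤ | ELS F a ∧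
        (∀ p : ℕ, p.Prime → p ≤ w → ¬ (p : ℤ) ^ (K + 1) ∣ a) ∧ ¬ Dense F w ρ a}} ∪
      {a : ℤ | |a| ≤ H ∧ a ≠ 0 ∧ ∃ p : ℕ, p.Prime ∧ p ≤ w ∧ (p : ℤ) ^ (K + 1) ∣ a}) := by
    refine (Set.finite_Icc (-(H : ℤ)) H).subset ?_
    rintro a (⟨haH, -⟩ | ⟨haH, -⟩) <;> exact abs_le.1 haH
  have h1 := (Set.ncard_le_ncard hsub hfin).trans (Set.ncard_union_le _ _)
  have h2 := hH0 H hH
  have h3 := hK H
  have h4 : (Set.ncard {a : ℤ | |a| ≤ H ∧ a ∈ {a : ℤ | ELS F a ∧ ¬ Dense F w ρ a}} : ℝ) ≤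
      (Set.ncard {a : ℤ | |a| ≤ H ∧ a ∈ {a : ℤ | ELS F a ∧
        (∀ p : ℕ, p.Prime → p ≤ w → ¬ (p : ℤ) ^ (K + 1) ∣ a) ∧ ¬ Dense F w ρ a}} : ℝ) +
      (Set.ncard {a : ℤ | |a| ≤ H ∧ a ≠ 0 ∧
        ∃ p : ℕ, p.Prime ∧ p ≤ w ∧ (p : ℤ) ^ (K + 1) ∣ a} : ℝ) := by
    exact_mod_cast h1
  linarith

theorem dense_p (F : ι → Bool → MvPolynomial (Fin (n + 1)) ℤ) (d : ι → Bool → ℕ) (hF : Fam F d)
    (α : ℤ) (hα : α ≠ 0) (w : ℕ) (ρ : ℝ) (hρ : 0 < ρ) :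
    SmallP α {a | ELS F a ∧ ¬ Dense F w ρ a} := by
  classical
  obtain ⟨K, hK⟩ := highP w α hα
  intro ε hε
  obtain ⟨x0, hx0⟩ := fin_dense F d hF (SmallP α) (smallP_ideal α) (by
    intro C w' ε' hε'
    obtain ⟨x0, hx0⟩ := prime_thmX C w' F d hF α hα ε' hε'
    refine ⟨x0, fun x hx => ?_⟩
    refine le_trans ?_ (hx0 x hx)
    rw [← Set.ncard_coe_finset]
    exact_mod_cast Set.ncard_le_ncard (by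
      rintro p ⟨h1, h2, h3, h4⟩
      rw [Finset.coe_filter]
      exact ⟨mem_Icc.2 ⟨h2.pos, h1⟩, h2, h3, h4⟩) (Finset.finite_toSet _)) w K ρ hρ ε hε
  refine ⟨x0, fun x hx => ?_⟩
  refine le_trans ?_ (hx0 x hx)
  have hsub : {p : ℕ | p ≤ x ∧ p.Prime ∧ α * (p : ℤ) ∈ {a : ℤ | ELS F a ∧ ¬ Dense F w ρ a}} ⊆
      {p : ℕ | p ≤ x ∧ p.Prime ∧ α * (p : ℤ) ∈ {a : ℤ | ELS F a ∧
        (∀ p : ℕ, p.Prime → p ≤ w → ¬ (p : ℤ) ^ (K + 1) ∣ a) ∧ ¬ Dense F w ρ a}} := by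
    rintro p ⟨h1, h2, h3, h4⟩
    exact ⟨h1, h2, h3, fun l hl hlw => hK p h2 l hl hlw, h4⟩
  have hfin : Set.Finite {p : ℕ | p ≤ x ∧ p.Prime ∧ α * (p : ℤ) ∈ {a : ℤ | ELS F a ∧
        (∀ p : ℕ, p.Prime → p ≤ w → ¬ (p : ℤ) ^ (K + 1) ∣ a) ∧ ¬ Dense F w ρ a}} := by
    refine (Set.finite_Iic x).subset ?_
    rintro p ⟨h1, -⟩
    exact h1
  exact_mod_cast Set.ncard_le_ncard hsub hfin

end TwWA
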